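import Pool.Agent.GBC.Defs

/-!
# Cutoff functions
-/

namespace Pool.Agent.GBC

open MeasureTheory Metric Set Filter Topology Real
open scoped ContDiff

/-- The cutoff: `0` for `z ≤ z₀ - 1/k` and `1` for `z ≥ z₀`. -/
noncomputable def chi (k z₀ z : ℝ) : ℝ := smoothTransition (1 + k * (z - z₀))

/-- its derivative -/
noncomputable def chi' (k z₀ : ℝ) : ℝ → ℝ := deriv (chi k z₀)

variable {k z₀ : ℝ}

lemma chi_contDiff (k z₀ : ℝ) : ContDiff ℝ ∞ (chi k z₀) := by
  unfold chi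
  refine smoothTransition.contDiff.comp ?_
  fun_prop

lemma chi'_contDiff (k z₀ : ℝ) : ContDiff ℝ ∞ (chi' k z₀) :=
  (contDiff_infty_iff_deriv.1 (chi_contDiff k z₀)).2

lemma hasDerivAt_chi (k z₀ z : ℝ) : HasDerivAt (chi k z₀) (chi' k z₀ z) z :=
  ((chi_contDiff k z₀).differentiable (by simp) z).hasDerivAt

lemma chi_nonneg (k z₀ z : ℝ) : 0 ≤ chi k z₀ z := smoothTransition.nonneg _

lemma chi_le_one (k z₀ z : ℝ) : chi k z₀ z ≤ 1 := smoothTransition.le_one _

lemma chi_of_ge (hk : 0 < k) {z : ℝ} (hz : z₀ ≤ z) : chi k z₀ z = 1 := by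
  unfold chi
  refine smoothTransition.one_of_one_le ?_
  have := mul_nonneg hk.le (sub_nonneg.2 hz)
  linarith

lemma chi_of_le (hk : 0 < k) {z : ℝ} (hz : z ≤ z₀ - 1 / k) : chi k z₀ z = 0 := by
  unfold chi
  refine smoothTransition.zero_of_nonpos ?_
  have h1 : k * (z - z₀) ≤ k * (-(1 / k)) := by
    refine mul_le_mul_of_nonneg_left ?_ hk.le
    linarith
  have h2 : k * (-(1 / k)) = -1 := by
    field_simp
  linarith

lemma chi_mono (hk : 0 < k) : Monotone (chi k z₀) := by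
  intro a b hab
  refine smoothTransition.monotone ?_
  have := mul_le_mul_of_nonneg_left (sub_le_sub_right hab z₀) hk.le
  linarith

lemma chi'_nonneg (hk : 0 < k) (z : ℝ) : 0 ≤ chi' k z₀ z :=
  (chi_mono hk).deriv_nonneg

lemma chi'_of_ge (hk : 0 < k) {z : ℝ} (hz : z₀ ≤ z) : chi' k z₀ z = 0 := by
  have : IsLocalMax (chi k z₀) z := by
    refine Filter.Eventually.of_forall fun w => ?_
    rw [chi_of_ge hk hz]
    exact chi_le_one k z₀ w
  exact this.deriv_eq_zero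

lemma chi'_of_le (hk : 0 < k) {z : ℝ} (hz : z ≤ z₀ - 1 / k) : chi' k z₀ z = 0 := by
  have : IsLocalMin (chi k z₀) z := by
    refine Filter.Eventually.of_forall fun w => ?_
    rw [chi_of_le hk hz]
    exact chi_nonneg k z₀ w
  exact this.deriv_eq_zero

/-- The flux of the cutoffs. -/
lemma flux_chi {n : ℕ} (hn : 1 ≤ n) (hk : 0 < k) (hkz : 1 / k < z₀) :
    ∫ x : E n, 2 * chi' k z₀ (‖x‖ ^ 2) * (‖x‖ ^ 2) ^ (1 - (n : ℝ) / 2) = omega n := by
  have : Nontrivial (E n) := Module.nontrivial_of_finrank_pos (R := ℝ) (by simp; omega)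
  have h := integral_fun_norm_addHaar (volume : Measure (E n))
    (fun r : ℝ => 2 * chi' k z₀ (r ^ 2) * (r ^ 2) ^ (1 - (n : ℝ) / 2))
  rw [h]
  have h1 : ∫ y in Ioi (0 : ℝ), y ^ (Module.finrank ℝ (E n) - 1) •
      (2 * chi' k z₀ (y ^ 2) * (y ^ 2) ^ (1 - (n : ℝ) / 2)) =
      ∫ y in Ioi (0 : ℝ), chi' k z₀ (y ^ 2) * (2 * y) := by
    refine setIntegral_congr_fun measurableSet_Ioi fun y hy => ?_
    have hy0 : 0 < y := hy
    have e1 : Module.finrank ℝ (E n) = n := by simp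
    have e2 : (y ^ 2) ^ (1 - (n : ℝ) / 2) = y ^ (2 - (n : ℝ)) := by
      rw [← rpow_natCast y 2, ← rpow_mul hy0.le]
      congr 1
      push_cast
      ring
    have e3 : y ^ (n - 1) * y ^ (2 - (n : ℝ)) = y := by
      rw [← rpow_natCast y (n - 1), ← rpow_add hy0, Nat.cast_sub hn]
      have : ((n : ℝ) - (1 : ℕ)) + (2 - (n : ℝ)) = 1 := by
        push_cast
        ring
      rw [this, rpow_one]
    simp only [e1, e2, smul_eq_mul]
    calc y ^ (n - 1) * (2 * chi' k z₀ (y ^ 2) * y ^ (2 - (n : ℝ)))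
        = 2 * chi' k z₀ (y ^ 2) * (y ^ (n - 1) * y ^ (2 - (n : ℝ))) := by ring
      _ = _ := by rw [e3]; ring
  have e3 : chi k z₀ ((0 : ℝ) ^ 2) = 0 := chi_of_le hk (by norm_num; linarith [one_div k])
  have h2 : ∫ y in Ioi (0 : ℝ), chi' k z₀ (y ^ 2) * (2 * y) = 1 - chi k z₀ ((0 : ℝ) ^ 2) := by
    have e1 : ∀ y : ℝ, HasDerivAt (fun y => chi k z₀ (y ^ 2)) (chi' k z₀ (y ^ 2) * (2 * y)) y := by
      intro y
      have e2 := (hasDerivAt_chi k z₀ (y ^ 2)).comp y (hasDerivAt_pow 2 y)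
      simpa [Function.comp_def] using e2
    refine integral_Ioi_of_hasDerivAt_of_nonneg' (fun y _ => e1 y) (fun y hy => ?_) ?_
    · have hy0 : 0 < y := hy
      exact mul_nonneg (chi'_nonneg hk _) (by linarith)
    · refine tendsto_const_nhds.congr' ?_
      filter_upwards [eventually_ge_atTop (max 1 z₀)] with y hy
      have hy1 : 1 ≤ y := le_trans (le_max_left _ _) hy
      have hy2 : z₀ ≤ y := le_trans (le_max_right _ _) hy
      rw [chi_of_ge hk]
      nlinarith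
  rw [h1, h2, e3, sub_zero, smul_eq_mul, mul_one, omega]
  have h3 := (volume : Measure (E n)).toSphere_real_apply_univ
  rw [measureReal_def] at h3
  rw [h3, nsmul_eq_mul]

end Pool.Agent.GBC
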