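import Pool.Agent.GBC.Chris
import Pool.Agent.GBC.Cut

/-!
# Areas for the metric `δ + C(|x|²) Jx ⊗ Jx`
-/

namespace Pool.Agent.GBC

open MeasureTheory Metric Set Filter Topology Real
open scoped ContDiff

variable {n : ℕ} {J : E n →L[ℝ] E n} {C : ℝ → ℝ}

lemma dens_gJ (hJ : IsCx J) (C : ℝ → ℝ) (x : E n) :
    dens (gJ J C) x = √(1 + ‖x‖ ^ 2 * C (‖x‖ ^ 2)) := by
  rw [dens, det_gJ hJ]

lemma contDiff_K (hC : ContDiff ℝ ∞ C) :
    ContDiff ℝ ∞ fun x : E n => 1 + ‖x‖ ^ 2 * C (‖x‖ ^ 2) := by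
  have h : ContDiff ℝ ∞ fun x : E n => ‖x‖ ^ 2 := contDiff_norm_sq ℝ
  exact contDiff_const.add (h.mul (hC.comp h))

lemma K_pos (hC0 : ∀ z, 0 ≤ C z) (x : E n) : 0 < 1 + ‖x‖ ^ 2 * C (‖x‖ ^ 2) := by
  have := mul_nonneg (sq_nonneg ‖x‖) (hC0 (‖x‖ ^ 2))
  linarith

lemma contDiff_dens (hJ : IsCx J) (hC : ContDiff ℝ ∞ C) (hC0 : ∀ z, 0 ≤ C z) :
    ContDiff ℝ ∞ (dens (gJ J C)) := by
  have h : dens (gJ J C) = fun x => √(1 + ‖x‖ ^ 2 * C (‖x‖ ^ 2)) := by
    funext x
    exact dens_gJ hJ C x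
  rw [h]
  exact (contDiff_K hC).sqrt fun x => (K_pos hC0 x).ne'

lemma quad_gJ (C : ℝ → ℝ) (x v : E n) :
    ∑ i, ∑ j, gJ J C x i j * v i * v j = ‖v‖ ^ 2 + C (‖x‖ ^ 2) * (inner ℝ (J x) v) ^ 2 := by
  have h1 : ∀ i j, gJ J C x i j * v i * v j =
      (1 : Matrix (Fin n) (Fin n) ℝ) i j * (v i * v j) +
      C (‖x‖ ^ 2) * (((J x) i * v i) * ((J x) j * v j)) := by
    intro i j
    rw [gJ_apply]
    ring
  simp only [h1, Finset.sum_add_distrib, ← Finset.mul_sum, ← Finset.sum_mul, sum_mul_eq_inner]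
  simp only [Matrix.one_apply, ite_mul, one_mul, zero_mul, Finset.sum_ite_eq, Finset.mem_univ,
    if_true, sum_mul_eq_inner, real_inner_self_eq_norm_sq]
  ring

lemma norm_le_one_of_test (hC0 : ∀ z, 0 ≤ C z) {X : E n → E n} (hX : IsTestField (gJ J C) X)
    (x : E n) : ‖X x‖ ≤ 1 := by
  have h := hX.length x
  rw [quad_gJ] at h
  have h1 := mul_nonneg (hC0 (‖x‖ ^ 2)) (sq_nonneg (inner ℝ (J x) (X x)))
  have h2 : ‖X x‖ ^ 2 ≤ 1 := by linarith
  nlinarith [norm_nonneg (X x)]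

/-- The square of the area density. -/
noncomputable def FF (n : ℕ) (C : ℝ → ℝ) (z : ℝ) : ℝ := z ^ (n - 1) * (1 + z * C z)

lemma omega_pos (hn : 1 ≤ n) : 0 < omega n := by
  have : Nontrivial (E n) := Module.nontrivial_of_finrank_pos (R := ℝ) (by simp; omega)
  have h3 := (volume : Measure (E n)).toSphere_real_apply_univ
  rw [measureReal_def] at h3
  rw [omega, h3]
  have h4 : 0 < (volume : Measure (E n)).real (ball 0 1) := by
    rw [measureReal_def]
    exact ENNReal.toReal_pos (measure_ball_pos _ _ one_pos).ne' measure_ball_lt_top.ne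
  have h5 : (0 : ℝ) < (Module.finrank ℝ (E n) : ℝ) := by
    simp
    omega
  positivity

lemma divDens_eq (g : MetricField n) (X : E n → E n) (x : E n) :
    divDens g X x = ∑ i, pd i (fun y => (dens g y • X y) i) x := by
  unfold divDens
  simp only [PiLp.smul_apply, smul_eq_mul]

lemma hasCompactSupport_smul' (f : E n → ℝ) {X : E n → E n} (hX : HasCompactSupport X) :
    HasCompactSupport fun x => f x • X x := by
  refine hX.mono fun x hx => ?_
  rw [Function.mem_support] at hx ⊢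
  intro h0
  exact hx (by rw [h0, smul_zero])

/-- Integration by parts against a cutoff. -/
lemma parts_chi {k z₀ : ℝ} (Z : E n → E n) (hZ : ContDiff ℝ ∞ Z) (hZc : HasCompactSupport Z) :
    ∫ x, (1 - chi k z₀ (‖x‖ ^ 2)) * ∑ i, pd i (fun y => Z y i) x =
      ∫ x, 2 * chi' k z₀ (‖x‖ ^ 2) * inner ℝ x (Z x) := by
  have hZi : ∀ i, ContDiff ℝ ∞ fun y => Z y i := fun i => by
    exact (EuclideanSpace.proj i : E n →L[ℝ] ℝ).contDiff.comp hZ
  have hZic : ∀ i, HasCompactSupport fun y => Z y i := fun i => by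
    exact hZc.comp_left (g := fun v : E n => v i) rfl
  have hcut : ContDiff ℝ ∞ fun x : E n => 1 - chi k z₀ (‖x‖ ^ 2) :=
    contDiff_const.sub ((chi_contDiff k z₀).comp (contDiff_norm_sq ℝ))
  have hpd : ∀ i (x : E n), fderiv ℝ (fun x : E n => 1 - chi k z₀ (‖x‖ ^ 2)) x (ev i) =
      -(2 * chi' k z₀ (‖x‖ ^ 2) * x i) := by
    intro i x
    have h := (hasF_sq _ _ x (hasDerivAt_chi k z₀ (‖x‖ ^ 2))).const_sub 1
    rw [h.fderiv]
    simp [innerSL_apply_apply, inner_ev]
    ring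
  have hcont : ∀ i, Continuous fun x => fderiv ℝ (fun y => Z y i) x (ev i) := fun i =>
    ((hZi i).continuous_fderiv (by simp)).clm_apply continuous_const
  have hint1 : ∀ i, Integrable fun x => (1 - chi k z₀ (‖x‖ ^ 2)) *
      fderiv ℝ (fun y => Z y i) x (ev i) := by
    intro i
    refine (hcut.continuous.mul (hcont i)).integrable_of_hasCompactSupport ?_
    refine HasCompactSupport.mul_left ?_
    exact (hZic i).fderiv_apply ℝ _
  have hint2 : ∀ i, Integrable fun x => fderiv ℝ (fun x : E n => 1 - chi k z₀ (‖x‖ ^ 2)) x (ev i) *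
      Z x i := by
    intro i
    refine Continuous.integrable_of_hasCompactSupport ?_ (HasCompactSupport.mul_left (hZic i))
    exact ((hcut.continuous_fderiv (by simp)).clm_apply continuous_const).mul (hZi i).continuous
  have hint3 : ∀ i, Integrable fun x => (1 - chi k z₀ (‖x‖ ^ 2)) * Z x i := by
    intro i
    exact (hcut.continuous.mul (hZi i).continuous).integrable_of_hasCompactSupport
      (HasCompactSupport.mul_left (hZic i))
  have key : ∀ i, ∫ x, (1 - chi k z₀ (‖x‖ ^ 2)) * fderiv ℝ (fun y => Z y i) x (ev i) =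
      ∫ x, 2 * chi' k z₀ (‖x‖ ^ 2) * (x i * Z x i) := by
    intro i
    rw [integral_mul_fderiv_eq_neg_fderiv_mul_of_integrable (hint2 i) (hint1 i) (hint3 i)
      (fun x _ => (hcut.differentiable (by simp)) x)
      (fun x _ => ((hZi i).differentiable (by simp)) x), ← integral_neg]
    refine integral_congr_ae (Eventually.of_forall fun x => ?_)
    simp only [hpd]
    ring
  calc ∫ x, (1 - chi k z₀ (‖x‖ ^ 2)) * ∑ i, pd i (fun y => Z y i) x
      = ∫ x, ∑ i, (1 - chi k z₀ (‖x‖ ^ 2)) * fderiv ℝ (fun y => Z y i) x (ev i) := by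
        refine integral_congr_ae (Eventually.of_forall fun x => ?_)
        simp only [Finset.mul_sum]
        rfl
    _ = ∑ i, ∫ x, (1 - chi k z₀ (‖x‖ ^ 2)) * fderiv ℝ (fun y => Z y i) x (ev i) :=
        integral_finsetSum _ fun i _ => hint1 i
    _ = ∑ i, ∫ x, 2 * chi' k z₀ (‖x‖ ^ 2) * (x i * Z x i) :=
        Finset.sum_congr rfl fun i _ => key i
    _ = ∫ x, ∑ i, 2 * chi' k z₀ (‖x‖ ^ 2) * (x i * Z x i) := by
        rw [integral_finsetSum]
        intro i _
        have := (hint2 i).neg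
        refine this.congr (Eventually.of_forall fun x => ?_)
        simp only [Pi.neg_apply, hpd]
        ring
    _ = _ := by
        refine integral_congr_ae (Eventually.of_forall fun x => ?_)
        simp only [← Finset.mul_sum, sum_mul_eq_inner]

end Pool.Agent.GBC
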