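import Pool.Agent.GBC.Defs

/-!
# The metric `δ + C(|x|²) Jx ⊗ Jx`
-/

namespace Pool.Agent.GBC

open MeasureTheory Metric Set Filter Topology Real

/-- `J` is an orthogonal complex structure. -/
structure IsCx {n : ℕ} (J : E n →L[ℝ] E n) : Prop where
  skew : ∀ u v, inner ℝ (J u) v = - inner ℝ u (J v)
  sq : ∀ u, J (J u) = -u

variable {n : ℕ} {J : E n →L[ℝ] E n}

/-- The basis vectors. -/
noncomputable abbrev ev (i : Fin n) : E n := EuclideanSpace.single i 1

lemma inner_ev (u : E n) (i : Fin n) : inner ℝ u (ev i) = u i := by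
  simp [ev, EuclideanSpace.inner_single_right]

lemma ev_inner (u : E n) (i : Fin n) : inner ℝ (ev i) u = u i := by
  simp [ev, EuclideanSpace.inner_single_left]

lemma sum_mul_eq_inner (u v : E n) : ∑ i, u i * v i = inner ℝ u v := by
  simp only [PiLp.inner_apply, RCLike.inner_apply, conj_trivial]
  exact Finset.sum_congr rfl fun i _ => mul_comm _ _

lemma inner_J_J (hJ : IsCx J) (u v : E n) : inner ℝ (J u) (J v) = inner ℝ u v := by
  rw [hJ.skew, hJ.sq, inner_neg_right, neg_neg]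

lemma inner_J_self (hJ : IsCx J) (u : E n) : inner ℝ (J u) u = 0 := by
  have h := hJ.skew u u
  have h2 := real_inner_comm u (J u)
  linarith

lemma inner_self_J (hJ : IsCx J) (u : E n) : inner ℝ u (J u) = 0 := by
  rw [real_inner_comm, inner_J_self hJ]

/-- The metric `δ_ij + C(|x|²) (Jx)_i (Jx)_j`. -/
noncomputable def gJ (J : E n →L[ℝ] E n) (C : ℝ → ℝ) : MetricField n :=
  fun x i j => (1 : Matrix (Fin n) (Fin n) ℝ) i j + C (‖x‖ ^ 2) * ((J x) i * (J x) j)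

lemma gJ_apply (C : ℝ → ℝ) (x : E n) (i j : Fin n) :
    gJ J C x i j = (1 : Matrix (Fin n) (Fin n) ℝ) i j + C (‖x‖ ^ 2) * ((J x) i * (J x) j) := rfl

lemma gJ_eq (C : ℝ → ℝ) (x : E n) :
    gJ J C x = 1 + Matrix.replicateCol Unit (C (‖x‖ ^ 2) • (J x : Fin n → ℝ)) *
      Matrix.replicateRow Unit (J x : Fin n → ℝ) := by
  ext i j
  simp [gJ, Matrix.mul_apply]

lemma dot_J (hJ : IsCx J) (x : E n) : (J x : Fin n → ℝ) ⬝ᵥ (J x : Fin n → ℝ) = ‖x‖ ^ 2 := by
  have : (J x : Fin n → ℝ) ⬝ᵥ (J x : Fin n → ℝ) = ∑ i, (J x) i * (J x) i := rfl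
  rw [this, sum_mul_eq_inner, inner_J_J hJ, real_inner_self_eq_norm_sq]

lemma det_gJ (hJ : IsCx J) (C : ℝ → ℝ) (x : E n) :
    (gJ J C x).det = 1 + ‖x‖ ^ 2 * C (‖x‖ ^ 2) := by
  rw [gJ_eq, Matrix.det_one_add_replicateCol_mul_replicateRow]
  rw [dotProduct_smul, dot_J hJ, smul_eq_mul]
  ring

lemma inv_gJ (hJ : IsCx J) (C : ℝ → ℝ) (x : E n) (hK : 1 + ‖x‖ ^ 2 * C (‖x‖ ^ 2) ≠ 0)
    (i j : Fin n) :
    (gJ J C x)⁻¹ i j = (1 : Matrix (Fin n) (Fin n) ℝ) i j -
      C (‖x‖ ^ 2) / (1 + ‖x‖ ^ 2 * C (‖x‖ ^ 2)) * ((J x) i * (J x) j) := by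
  set c := C (‖x‖ ^ 2) with hc
  set K := 1 + ‖x‖ ^ 2 * c with hKd
  let B : Matrix (Fin n) (Fin n) ℝ := fun i j => (1 : Matrix (Fin n) (Fin n) ℝ) i j -
      c / K * ((J x) i * (J x) j)
  have h : gJ J C x * B = 1 := by
    ext i j
    rw [Matrix.mul_apply]
    have h1 : ∀ k, gJ J C x i k * B k j =
        (1 : Matrix (Fin n) (Fin n) ℝ) i k * (1 : Matrix (Fin n) (Fin n) ℝ) k j -
        c / K * ((1 : Matrix (Fin n) (Fin n) ℝ) i k * (J x) k) * (J x) j +
        c * (J x) i * ((J x) k * (1 : Matrix (Fin n) (Fin n) ℝ) k j) -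
        c * (c / K) * (J x) i * (J x) j * ((J x) k * (J x) k) := by
      intro k
      simp only [gJ_apply, B, ← hc]
      ring
    rw [Finset.sum_congr rfl fun k _ => h1 k, Finset.sum_sub_distrib, Finset.sum_add_distrib,
      Finset.sum_sub_distrib, ← Matrix.mul_apply, one_mul, ← Finset.mul_sum, ← Finset.mul_sum,
      ← Finset.sum_mul, ← Finset.mul_sum, sum_mul_eq_inner, inner_J_J hJ,
      real_inner_self_eq_norm_sq]
    simp only [Matrix.one_apply, ite_mul, one_mul, zero_mul, mul_ite, mul_one, mul_zero,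
      Finset.sum_ite_eq, Finset.sum_ite_eq', Finset.mem_univ, if_true]
    field_simp
    rw [hKd]
    ring
  have h2 : (gJ J C x)⁻¹ = B := Matrix.inv_eq_right_inv h
  rw [h2]

lemma posDef_gJ {C : ℝ → ℝ} (x : E n) (hC : 0 ≤ C (‖x‖ ^ 2)) : (gJ J C x).PosDef := by
  refine Matrix.PosDef.of_dotProduct_mulVec_pos ?_ ?_
  · ext i j
    simp only [Matrix.conjTranspose_apply, gJ_apply, star_trivial, Matrix.one_apply]
    rw [mul_comm ((J x) j)]
    simp only [eq_comm]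
  · intro v hv
    have h1 : star v ⬝ᵥ (gJ J C x).mulVec v = v ⬝ᵥ v + C (‖x‖ ^ 2) *
        ((J x : Fin n → ℝ) ⬝ᵥ v) ^ 2 := by
      rw [gJ_eq, Matrix.add_mulVec, Matrix.one_mulVec, ← Matrix.mulVec_mulVec]
      simp only [star_trivial, dotProduct_add]
      congr 1
      simp only [Matrix.mulVec, dotProduct, Matrix.replicateCol_apply, Matrix.replicateRow_apply,
        Finset.univ_unique, Finset.sum_singleton, Pi.smul_apply, smul_eq_mul]
      set S := ∑ i, (J x).ofLp i * v i with hS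
      have : ∀ i, v i * (C (‖x‖ ^ 2) * (J x).ofLp i * S) =
          (C (‖x‖ ^ 2) * S) * ((J x).ofLp i * v i) := fun i => by ring
      rw [Finset.sum_congr rfl fun i _ => this i, ← Finset.mul_sum, ← hS]
      ring
    rw [h1]
    have h2 : 0 < v ⬝ᵥ v := by
      rcases lt_or_eq_of_le (Finset.sum_nonneg fun i (_ : i ∈ Finset.univ) => mul_self_nonneg (v i))
        with h | h
      · exact h
      · exact absurd (dotProduct_self_eq_zero.1 h.symm) hv
    have h3 : 0 ≤ C (‖x‖ ^ 2) * ((J x : Fin n → ℝ) ⬝ᵥ v) ^ 2 := mul_nonneg hC (sq_nonneg _)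
    linarith

end Pool.Agent.GBC
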