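import Pool.Agent.GBC.Basic

/-!
# Christoffel symbols and curvature of `δ + C(|x|²) Jx ⊗ Jx`
-/

namespace Pool.Agent.GBC

open MeasureTheory Metric Set Filter Topology Real

variable {n : ℕ} {J : E n →L[ℝ] E n}

lemma pd_of {f : E n → ℝ} {f' : E n →L[ℝ] ℝ} {x : E n} (h : HasFDerivAt f f' x) (i : Fin n) :
    pd i f x = f' (ev i) := by
  rw [pd, h.fderiv]

lemma hasF_coord (i : Fin n) (x : E n) :
    HasFDerivAt (fun y : E n => y i) (EuclideanSpace.proj i : E n →L[ℝ] ℝ) x :=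
  (EuclideanSpace.proj i : E n →L[ℝ] ℝ).hasFDerivAt

lemma hasF_J (i : Fin n) (x : E n) :
    HasFDerivAt (fun y : E n => (J y) i) ((EuclideanSpace.proj i : E n →L[ℝ] ℝ) ∘L J) x :=
  ((EuclideanSpace.proj i : E n →L[ℝ] ℝ) ∘L J).hasFDerivAt

lemma hasF_sq (F : ℝ → ℝ) (F1 : ℝ) (x : E n) (hF : HasDerivAt F F1 (‖x‖ ^ 2)) :
    HasFDerivAt (fun y : E n => F (‖y‖ ^ 2)) (F1 • (2 • innerSL ℝ x)) x := by
  have h := (hasStrictFDerivAt_norm_sq x).hasFDerivAt
  exact hF.comp_hasFDerivAt x h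

lemma coord_ev (i j : Fin n) : (ev i : E n) j = (1 : Matrix (Fin n) (Fin n) ℝ) i j := by
  simp [ev, Matrix.one_apply, eq_comm]

lemma pd_gJ {C : ℝ → ℝ} {c1 : ℝ} (x : E n) (hC : HasDerivAt C c1 (‖x‖ ^ 2)) (p i j : Fin n) :
    pd p (fun y => gJ J C y i j) x = 2 * c1 * x p * ((J x) i * (J x) j) +
      C (‖x‖ ^ 2) * ((J (ev p)) i * (J x) j + (J x) i * (J (ev p)) j) := by
  have h := ((hasF_sq C c1 x hC).fun_mul
    ((hasF_J (J := J) i x).fun_mul (hasF_J (J := J) j x))).const_add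
    ((1 : Matrix (Fin n) (Fin n) ℝ) i j)
  have h2 := pd_of h p
  change pd p (fun y => gJ J C y i j) x = _ at h2
  rw [h2]
  simp [innerSL_apply_apply, inner_ev]
  ring

/-- the coefficient `(C' - C²) / K` -/
noncomputable def beta (C C1 : ℝ → ℝ) (z : ℝ) : ℝ := (C1 z - C z ^ 2) / (1 + z * C z)

/-- its derivative -/
noncomputable def beta1 (C C1 C2 : ℝ → ℝ) (z : ℝ) : ℝ :=
  ((C2 z - 2 * C z * C1 z) * (1 + z * C z) - (C1 z - C z ^ 2) * (C z + z * C1 z)) /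
    (1 + z * C z) ^ 2

lemma beta_alt (C C1 : ℝ → ℝ) (z : ℝ) (hK : 1 + z * C z ≠ 0) :
    beta C C1 z = C1 z * (1 - C z / (1 + z * C z) * z) - C z / (1 + z * C z) * C z := by
  unfold beta
  have h : C z / (1 + z * C z) * (1 + z * C z) = C z := div_mul_cancel₀ _ hK
  rw [div_eq_iff hK]
  linear_combination (C1 z * z + C z) * h

lemma hasDerivAt_beta {C C1 C2 : ℝ → ℝ} {z : ℝ} (hC : HasDerivAt C (C1 z) z)
    (hC1 : HasDerivAt C1 (C2 z) z) (hK : 1 + z * C z ≠ 0) :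
    HasDerivAt (beta C C1) (beta1 C C1 C2 z) z := by
  have h := (hC1.fun_sub (hC.fun_pow 2)).fun_div (((hasDerivAt_id' z).fun_mul hC).const_add 1) hK
  refine h.congr_deriv ?_
  simp only [beta1]
  norm_num

lemma Jev_skew (hJ : IsCx J) (i j : Fin n) : (J (ev i)) j = - (J (ev j)) i := by
  rw [← inner_ev (J (ev i)) j, hJ.skew, ev_inner]

lemma chris_gJ (hJ : IsCx J) {C C1 : ℝ → ℝ} (x : E n) (hC : HasDerivAt C (C1 (‖x‖ ^ 2)) (‖x‖ ^ 2))
    (hK : 1 + ‖x‖ ^ 2 * C (‖x‖ ^ 2) ≠ 0) (k i j : Fin n) :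
    christoffel (gJ J C) k i j x =
      - C1 (‖x‖ ^ 2) * ((J x) i * (J x) j * x k) +
      beta C C1 (‖x‖ ^ 2) * ((x i * (J x) j + x j * (J x) i) * (J x) k) +
      C (‖x‖ ^ 2) * ((J x) j * (J (ev i)) k + (J x) i * (J (ev j)) k) := by
  unfold christoffel
  set z := ‖x‖ ^ 2 with hz
  set c := C z with hc
  set c1 := C1 z with hc1
  have h1 : ∀ l, pd i (fun y => gJ J C y j l) x + pd j (fun y => gJ J C y i l) x -
      pd l (fun y => gJ J C y i j) x =
      2 * (c1 * ((x i * (J x) j + x j * (J x) i)) * (J x) l - c1 * ((J x) i * (J x) j) * x l +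
        c * (J x) j * (J (ev i)) l + c * (J x) i * (J (ev j)) l) := by
    intro l
    rw [pd_gJ x hC, pd_gJ x hC, pd_gJ x hC, Jev_skew hJ l i, Jev_skew hJ l j, Jev_skew hJ i j]
    simp only [← hz, ← hc]
    ring
  have h2 : ∀ l, (gJ J C x)⁻¹ k l * (pd i (fun y => gJ J C y j l) x +
      pd j (fun y => gJ J C y i l) x - pd l (fun y => gJ J C y i j) x) =
      (1 : Matrix (Fin n) (Fin n) ℝ) k l * (2 * (c1 * ((x i * (J x) j + x j * (J x) i)) * (J x) l -
        c1 * ((J x) i * (J x) j) * x l +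
        c * (J x) j * (J (ev i)) l + c * (J x) i * (J (ev j)) l)) -
      2 * (c / (1 + z * c)) * (J x) k * (c1 * (x i * (J x) j + x j * (J x) i)) *
        ((J x) l * (J x) l) +
      2 * (c / (1 + z * c)) * (J x) k * (c1 * ((J x) i * (J x) j)) * ((J x) l * x l) -
      2 * (c / (1 + z * c)) * (J x) k * (c * (J x) j) * ((J x) l * (J (ev i)) l) -
      2 * (c / (1 + z * c)) * (J x) k * (c * (J x) i) * ((J x) l * (J (ev j)) l) := by
    intro l
    rw [h1, inv_gJ hJ C x hK]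
    simp only [← hz, ← hc]
    ring
  have hβ : beta C C1 z = c1 * (1 - c / (1 + z * c) * z) - c / (1 + z * c) * c :=
    beta_alt C C1 z hK
  rw [Finset.sum_congr rfl fun l _ => h2 l, Finset.sum_sub_distrib, Finset.sum_sub_distrib,
    Finset.sum_add_distrib, Finset.sum_sub_distrib, ← Finset.mul_sum, ← Finset.mul_sum,
    ← Finset.mul_sum, ← Finset.mul_sum, sum_mul_eq_inner, sum_mul_eq_inner, sum_mul_eq_inner,
    sum_mul_eq_inner, inner_J_J hJ, inner_J_J hJ, inner_J_J hJ, inner_J_self hJ, inner_ev,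
    inner_ev, real_inner_self_eq_norm_sq, hβ]
  simp only [Matrix.one_apply, ite_mul, one_mul, zero_mul, Finset.sum_ite_eq, Finset.mem_univ,
    if_true, ← hz]
  ring

end Pool.Agent.GBC
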