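import Pool.Agent.GBC.Defs

/-!
# The Gauss-Bonnet curvature in a frame
-/

namespace Pool.Agent.GBC

open MeasureTheory Metric Set Filter Topology Real

variable {n : ℕ} {A : Type*} [Fintype A]

section contr

variable (G : Fin n → Fin n → ℝ) (w : A → ℝ) (B : A → Fin n → ℝ)

lemma contr_one {ι : Type*} [Fintype ι] (hG : ∀ i j, G i j = ∑ α, w α * (B α i * B α j))
    (c : ι → ℝ) (F F' : ι → Fin n → ℝ) :
    ∑ i, ∑ i', G i i' * ∑ m, c m * (F m i * F' m i') =
      ∑ α, w α * ∑ m, c m * ((∑ i, B α i * F m i) * (∑ i', B α i' * F' m i')) := by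
  have h1 : ∀ i i', G i i' * ∑ m, c m * (F m i * F' m i') =
      ∑ α, ∑ m, w α * c m * ((B α i * F m i) * (B α i' * F' m i')) := by
    intro i i'
    rw [hG, Finset.sum_mul]
    refine Finset.sum_congr rfl fun α _ => ?_
    rw [Finset.mul_sum]
    refine Finset.sum_congr rfl fun m _ => ?_
    ring
  have h2 : ∀ α, w α * ∑ m, c m * ((∑ i, B α i * F m i) * (∑ i', B α i' * F' m i')) =
      ∑ m, ∑ i, ∑ i', w α * c m * ((B α i * F m i) * (B α i' * F' m i')) := by
    intro α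
    rw [Finset.mul_sum]
    refine Finset.sum_congr rfl fun m _ => ?_
    rw [Finset.sum_mul_sum, ← mul_assoc, Finset.mul_sum]
    refine Finset.sum_congr rfl fun i _ => ?_
    rw [Finset.mul_sum]
  calc ∑ i, ∑ i', G i i' * ∑ m, c m * (F m i * F' m i')
      = ∑ i, ∑ i', ∑ α, ∑ m, w α * c m * ((B α i * F m i) * (B α i' * F' m i')) :=
        Finset.sum_congr rfl fun i _ => Finset.sum_congr rfl fun i' _ => h1 i i'
    _ = ∑ i, ∑ α, ∑ i', ∑ m, w α * c m * ((B α i * F m i) * (B α i' * F' m i')) :=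
        Finset.sum_congr rfl fun i _ => Finset.sum_comm
    _ = ∑ α, ∑ i, ∑ i', ∑ m, w α * c m * ((B α i * F m i) * (B α i' * F' m i')) :=
        Finset.sum_comm
    _ = ∑ α, ∑ i, ∑ m, ∑ i', w α * c m * ((B α i * F m i) * (B α i' * F' m i')) :=
        Finset.sum_congr rfl fun α _ => Finset.sum_congr rfl fun i _ => Finset.sum_comm
    _ = ∑ α, ∑ m, ∑ i, ∑ i', w α * c m * ((B α i * F m i) * (B α i' * F' m i')) :=
        Finset.sum_congr rfl fun α _ => Finset.sum_comm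
    _ = _ := Finset.sum_congr rfl fun α _ => (h2 α).symm

lemma contr_zero (hG : ∀ i j, G i j = ∑ α, w α * (B α i * B α j)) (F F' : Fin n → ℝ) :
    ∑ i, ∑ i', G i i' * (F i * F' i') =
      ∑ α, w α * ((∑ i, B α i * F i) * (∑ i', B α i' * F' i')) := by
  have := contr_one G w B hG (ι := Unit) (fun _ => 1) (fun _ => F) (fun _ => F')
  simpa using this

lemma nest2 (f : A → A → ℝ) :
    ∑ γ, w γ * ∑ δ, w δ * f γ δ = ∑ m : A × A, (w m.1 * w m.2) * f m.1 m.2 := by
  rw [Fintype.sum_prod_type]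
  refine Finset.sum_congr rfl fun γ _ => ?_
  rw [Finset.mul_sum]
  refine Finset.sum_congr rfl fun δ _ => ?_
  ring

lemma nest3 (f : A → A → A → ℝ) :
    ∑ β, w β * ∑ γ, w γ * ∑ δ, w δ * f β γ δ =
      ∑ m : A × A × A, (w m.1 * (w m.2.1 * w m.2.2)) * f m.1 m.2.1 m.2.2 := by
  rw [Fintype.sum_prod_type]
  refine Finset.sum_congr rfl fun β _ => ?_
  rw [nest2, Finset.mul_sum]
  refine Finset.sum_congr rfl fun m _ => ?_
  ring

lemma contr_four (hG : ∀ i j, G i j = ∑ α, w α * (B α i * B α j))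
    (R : Fin n → Fin n → Fin n → Fin n → ℝ) :
    ∑ i, ∑ i', G i i' * ∑ j, ∑ j', G j j' * ∑ k, ∑ k', G k k' *
      ∑ l, ∑ l', G l l' * (R i j k l * R i' j' k' l') =
    ∑ α, w α * ∑ β, w β * ∑ γ, w γ * ∑ δ, w δ *
      (∑ i, B α i * ∑ j, B β j * ∑ k, B γ k * ∑ l, B δ l * R i j k l) ^ 2 := by
  have h1 : ∀ i j k i' j' k', ∑ l, ∑ l', G l l' * (R i j k l * R i' j' k' l') =
      ∑ δ, w δ * ((∑ l, B δ l * R i j k l) * (∑ l, B δ l * R i' j' k' l)) := by
    intro i j k i' j' k'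
    exact contr_zero G w B hG _ _
  have h2 : ∀ i j i' j', ∑ k, ∑ k', G k k' *
      ∑ l, ∑ l', G l l' * (R i j k l * R i' j' k' l') =
      ∑ γ, w γ * ∑ δ, w δ * ((∑ k, B γ k * ∑ l, B δ l * R i j k l) *
        (∑ k, B γ k * ∑ l, B δ l * R i' j' k l)) := by
    intro i j i' j'
    simp only [h1]
    exact contr_one G w B hG w (fun δ k => ∑ l, B δ l * R i j k l)
      (fun δ k => ∑ l, B δ l * R i' j' k l)
  have h3 : ∀ i i', ∑ j, ∑ j', G j j' * ∑ k, ∑ k', G k k' *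
      ∑ l, ∑ l', G l l' * (R i j k l * R i' j' k' l') =
      ∑ β, w β * ∑ γ, w γ * ∑ δ, w δ * ((∑ j, B β j * ∑ k, B γ k * ∑ l, B δ l * R i j k l) *
        (∑ j, B β j * ∑ k, B γ k * ∑ l, B δ l * R i' j k l)) := by
    intro i i'
    simp only [h2, nest2]
    exact contr_one G w B hG (fun m : A × A => w m.1 * w m.2)
      (fun m j => ∑ k, B m.1 k * ∑ l, B m.2 l * R i j k l)
      (fun m j => ∑ k, B m.1 k * ∑ l, B m.2 l * R i' j k l)
  simp only [h3, nest3]
  rw [contr_one G w B hG (fun m : A × A × A => w m.1 * (w m.2.1 * w m.2.2))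
      (fun m i => ∑ j, B m.1 j * ∑ k, B m.2.1 k * ∑ l, B m.2.2 l * R i j k l)
      (fun m i => ∑ j, B m.1 j * ∑ k, B m.2.1 k * ∑ l, B m.2.2 l * R i j k l)]
  refine Finset.sum_congr rfl fun α _ => ?_
  congr 1
  refine Finset.sum_congr rfl fun m _ => ?_
  rw [sq]

lemma contr_two (hG : ∀ i j, G i j = ∑ α, w α * (B α i * B α j)) (R : Fin n → Fin n → ℝ) :
    ∑ i, ∑ i', G i i' * ∑ j, ∑ j', G j j' * (R i j * R i' j') =
    ∑ α, w α * ∑ β, w β * (∑ i, B α i * ∑ j, B β j * R i j) ^ 2 := by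
  have h1 : ∀ i i', ∑ j, ∑ j', G j j' * (R i j * R i' j') =
      ∑ β, w β * ((∑ j, B β j * R i j) * (∑ j, B β j * R i' j)) := by
    intro i i'
    exact contr_zero G w B hG _ _
  simp only [h1]
  rw [contr_one G w B hG w (fun β i => ∑ j, B β j * R i j) (fun β i => ∑ j, B β j * R i j)]
  refine Finset.sum_congr rfl fun α _ => ?_
  congr 1
  refine Finset.sum_congr rfl fun m _ => ?_
  rw [sq]

lemma contr_trace (hG : ∀ i j, G i j = ∑ α, w α * (B α i * B α j)) (R : Fin n → Fin n → ℝ) :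
    ∑ i, ∑ i', G i i' * R i i' = ∑ α, w α * ∑ i, B α i * ∑ i', B α i' * R i i' := by
  have h1 : ∀ i i', G i i' * R i i' = ∑ α, w α * (B α i * (B α i' * R i i')) := by
    intro i i'
    rw [hG, Finset.sum_mul]
    refine Finset.sum_congr rfl fun α _ => ?_
    ring
  simp only [h1]
  calc ∑ i, ∑ i', ∑ α, w α * (B α i * (B α i' * R i i'))
      = ∑ i, ∑ α, ∑ i', w α * (B α i * (B α i' * R i i')) :=
        Finset.sum_congr rfl fun i _ => Finset.sum_comm
    _ = ∑ α, ∑ i, ∑ i', w α * (B α i * (B α i' * R i i')) := Finset.sum_comm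
    _ = _ := by simp only [Finset.mul_sum]

end contr

/-- The components of the curvature tensor in a frame. -/
noncomputable def frameR (g : MetricField n) (x : E n) (B : A → Fin n → ℝ) (α β γ δ : A) : ℝ :=
  ∑ i, B α i * ∑ j, B β j * ∑ k, B γ k * ∑ l, B δ l * riem g x i j k l

lemma normSqRiem_frame (g : MetricField n) (x : E n) (w : A → ℝ) (B : A → Fin n → ℝ)
    (hG : ∀ i j, (g x)⁻¹ i j = ∑ α, w α * (B α i * B α j)) :
    normSqRiem g x = ∑ α, w α * ∑ β, w β * ∑ γ, w γ * ∑ δ, w δ * frameR g x B α β γ δ ^ 2 :=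
  contr_four ((g x)⁻¹ : Matrix (Fin n) (Fin n) ℝ) w B hG _

lemma ric_frame (g : MetricField n) (x : E n) (w : A → ℝ) (B : A → Fin n → ℝ)
    (hG : ∀ i j, (g x)⁻¹ i j = ∑ α, w α * (B α i * B α j)) (β δ : A) :
    ∑ j, B β j * ∑ l, B δ l * ric g x j l = ∑ α, w α * frameR g x B α β α δ := by
  unfold ric frameR
  have h1 : ∀ j l, ∑ i, ∑ k, (g x)⁻¹ i k * riem g x i j k l =
      ∑ α, w α * ∑ i, B α i * ∑ k, B α k * riem g x i j k l := by
    intro j l
    exact contr_trace ((g x)⁻¹ : Matrix (Fin n) (Fin n) ℝ) w B hG fun i k => riem g x i j k l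
  simp only [h1, Finset.mul_sum]
  calc ∑ j, ∑ l, ∑ α, ∑ i, ∑ k, B β j * (B δ l * (w α * (B α i * (B α k * riem g x i j k l))))
      = ∑ j, ∑ α, ∑ l, ∑ i, ∑ k,
        B β j * (B δ l * (w α * (B α i * (B α k * riem g x i j k l)))) :=
        Finset.sum_congr rfl fun _ _ => Finset.sum_comm
    _ = ∑ α, ∑ j, ∑ l, ∑ i, ∑ k,
        B β j * (B δ l * (w α * (B α i * (B α k * riem g x i j k l)))) := Finset.sum_comm
    _ = ∑ α, ∑ j, ∑ i, ∑ l, ∑ k,
        B β j * (B δ l * (w α * (B α i * (B α k * riem g x i j k l)))) :=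
        Finset.sum_congr rfl fun _ _ => Finset.sum_congr rfl fun _ _ => Finset.sum_comm
    _ = ∑ α, ∑ i, ∑ j, ∑ l, ∑ k,
        B β j * (B δ l * (w α * (B α i * (B α k * riem g x i j k l)))) :=
        Finset.sum_congr rfl fun _ _ => Finset.sum_comm
    _ = ∑ α, ∑ i, ∑ j, ∑ k, ∑ l,
        B β j * (B δ l * (w α * (B α i * (B α k * riem g x i j k l)))) :=
        Finset.sum_congr rfl fun _ _ => Finset.sum_congr rfl fun _ _ =>
          Finset.sum_congr rfl fun _ _ => Finset.sum_comm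
    _ = _ := by
        refine Finset.sum_congr rfl fun _ _ => Finset.sum_congr rfl fun _ _ =>
          Finset.sum_congr rfl fun _ _ => Finset.sum_congr rfl fun _ _ =>
          Finset.sum_congr rfl fun _ _ => ?_
        ring

lemma normSqRic_frame (g : MetricField n) (x : E n) (w : A → ℝ) (B : A → Fin n → ℝ)
    (hG : ∀ i j, (g x)⁻¹ i j = ∑ α, w α * (B α i * B α j)) :
    normSqRic g x = ∑ β, w β * ∑ δ, w δ * (∑ α, w α * frameR g x B α β α δ) ^ 2 := by
  unfold normSqRic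
  rw [contr_two ((g x)⁻¹ : Matrix (Fin n) (Fin n) ℝ) w B hG]
  simp only [ric_frame g x w B hG]

lemma scal_frame (g : MetricField n) (x : E n) (w : A → ℝ) (B : A → Fin n → ℝ)
    (hG : ∀ i j, (g x)⁻¹ i j = ∑ α, w α * (B α i * B α j)) :
    scal g x = ∑ β, w β * ∑ α, w α * frameR g x B α β α β := by
  unfold scal
  rw [contr_trace ((g x)⁻¹ : Matrix (Fin n) (Fin n) ℝ) w B hG]
  simp only [ric_frame g x w B hG]

end Pool.Agent.GBC
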