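import Pool.Agent.GBC.Riem
import Pool.Agent.GBC.Contr

/-!
# The adapted frame
-/

namespace Pool.Agent.GBC

open MeasureTheory Metric Set Filter Topology Real

variable {n : ℕ} {J : E n →L[ℝ] E n}

lemma sum_slot (f : E n → ℝ) (hf : IsLinearMap ℝ f) (v : E n) :
    ∑ i, v i * f (ev i) = f v := by
  have h1 : v = ∑ i, v i • (ev i : E n) := by
    ext j
    simp [ev, Pi.single_apply]
  have h2 : f v = (hf.mk' f) (∑ i, v i • (ev i : E n)) := by
    rw [← h1]
    rfl
  rw [h2, map_sum]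
  refine Finset.sum_congr rfl fun i _ => ?_
  rw [map_smul]
  rfl

lemma Rf_lin4 (x : E n) (c c1 d : ℝ) (p q s : E n) :
    IsLinearMap ℝ (fun t => Rf J x c c1 d p q s t) := by
  constructor
  · intro u v
    simp only [Rf, om, WW, inner_add_right]
    ring
  · intro a u
    simp only [Rf, om, WW, inner_smul_right, smul_eq_mul]
    ring

lemma Rf_lin3 (x : E n) (c c1 d : ℝ) (p q t : E n) :
    IsLinearMap ℝ (fun s => Rf J x c c1 d p q s t) := by
  constructor
  · intro u v
    simp only [Rf, om, WW, inner_add_right, inner_add_left, map_add]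
    ring
  · intro a u
    simp only [Rf, om, WW, inner_smul_right, real_inner_smul_left, map_smul, smul_eq_mul]
    ring

lemma Rf_lin2 (x : E n) (c c1 d : ℝ) (p s t : E n) :
    IsLinearMap ℝ (fun q => Rf J x c c1 d p q s t) := by
  constructor
  · intro u v
    simp only [Rf, om, WW, inner_add_right, inner_add_left, map_add]
    ring
  · intro a u
    simp only [Rf, om, WW, inner_smul_right, real_inner_smul_left, map_smul, smul_eq_mul]
    ring

lemma Rf_lin1 (x : E n) (c c1 d : ℝ) (q s t : E n) :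
    IsLinearMap ℝ (fun p => Rf J x c c1 d p q s t) := by
  constructor
  · intro u v
    simp only [Rf, om, WW, inner_add_right, inner_add_left, map_add]
    ring
  · intro a u
    simp only [Rf, om, WW, inner_smul_right, real_inner_smul_left, map_smul, smul_eq_mul]
    ring

lemma frameR_gJ {A : Type*} [Fintype A] (hJ : IsCx J) {C C1 C2 : ℝ → ℝ}
    (hC : ∀ z, HasDerivAt C (C1 z) z)
    (hC1 : ∀ z, HasDerivAt C1 (C2 z) z) (hK : ∀ z, 0 ≤ z → 1 + z * C z ≠ 0)
    (x : E n) (b : A → E n) (α β γ δ : A) :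
    frameR (gJ J C) x (fun α i => (b α) i) α β γ δ =
      Rf J x (C (‖x‖ ^ 2)) (C1 (‖x‖ ^ 2)) (dd C C1 C2 (‖x‖ ^ 2)) (b α) (b β) (b γ) (b δ) := by
  unfold frameR
  simp only [riem_gJ hJ hC hC1 hK]
  simp only [sum_slot _ (Rf_lin4 (J := J) x _ _ _ _ _ _), sum_slot _ (Rf_lin3 (J := J) x _ _ _ _ _ _),
    sum_slot _ (Rf_lin2 (J := J) x _ _ _ _ _ _), sum_slot _ (Rf_lin1 (J := J) x _ _ _ _ _ _)]

/-- The adapted orthonormal frame: `b none = x / |x|`, `b (some none) = Jx / |x|`. -/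
lemma exists_frame {N : ℕ} {J : E (N + 2) →L[ℝ] E (N + 2)} (hJ : IsCx J) (x : E (N + 2))
    (hx : x ≠ 0) : ∃ b : OrthonormalBasis (Option (Option (Fin N))) ℝ (E (N + 2)),
      b none = ‖x‖⁻¹ • x ∧ b (some none) = ‖x‖⁻¹ • J x := by
  have hx0 : ‖x‖ ≠ 0 := norm_ne_zero_iff.2 hx
  let v : Option (Option (Fin N)) → E (N + 2) := fun o => match o with
    | none => ‖x‖⁻¹ • x
    | some none => ‖x‖⁻¹ • J x
    | some (some _) => 0
  let s : Set (Option (Option (Fin N))) := {none, some none}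
  have hnJ : ‖J x‖ = ‖x‖ := by
    have : ‖J x‖ ^ 2 = ‖x‖ ^ 2 := by
      rw [← real_inner_self_eq_norm_sq, ← real_inner_self_eq_norm_sq, inner_J_J hJ]
    exact (sq_eq_sq₀ (norm_nonneg _) (norm_nonneg _)).1 this
  have hv : Orthonormal ℝ (s.domRestrict v) := by
    constructor
    · rintro ⟨o, ho⟩
      change ‖v o‖ = 1
      rcases ho with rfl | ho
      · simp [v, norm_smul, hx0]
      · rw [mem_singleton_iff] at ho
        subst ho
        simp [v, norm_smul, hnJ, hx0]
    · rintro ⟨o, ho⟩ ⟨o', ho'⟩ hne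
      change inner ℝ (v o) (v o') = 0
      rcases ho with rfl | ho
      · rcases ho' with rfl | ho'
        · exact absurd rfl hne
        · rw [mem_singleton_iff] at ho'
          subst ho'
          simp [v, real_inner_smul_left, inner_smul_right, inner_self_J hJ]
      · rw [mem_singleton_iff] at ho
        subst ho
        rcases ho' with rfl | ho'
        · simp [v, real_inner_smul_left, inner_smul_right, inner_J_self hJ]
        · rw [mem_singleton_iff] at ho'
          subst ho'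
          exact absurd rfl hne
  have hcard : Module.finrank ℝ (E (N + 2)) = Fintype.card (Option (Option (Fin N))) := by
    simp
  obtain ⟨b, hb⟩ := hv.exists_orthonormalBasis_extension_of_card_eq hcard
  exact ⟨b, hb none (by simp [s]), hb (some none) (by simp [s])⟩

/-- The weights. -/
noncomputable def wt {N : ℕ} (K : ℝ) : Option (Option (Fin N)) → ℝ
  | none => 1
  | some none => K⁻¹
  | some (some _) => 1

lemma inv_frame {N : ℕ} {J : E (N + 2) →L[ℝ] E (N + 2)} (hJ : IsCx J) (C : ℝ → ℝ)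
    (x : E (N + 2)) (hx : x ≠ 0) (hK : 1 + ‖x‖ ^ 2 * C (‖x‖ ^ 2) ≠ 0)
    (b : OrthonormalBasis (Option (Option (Fin N))) ℝ (E (N + 2)))
    (hb1 : b (some none) = ‖x‖⁻¹ • J x) (i j : Fin (N + 2)) :
    (gJ J C x)⁻¹ i j = ∑ α, wt (1 + ‖x‖ ^ 2 * C (‖x‖ ^ 2)) α * ((b α) i * (b α) j) := by
  have hx0 : ‖x‖ ≠ 0 := norm_ne_zero_iff.2 hx
  have h1 : ∑ α, (b α) i * (b α) j = (1 : Matrix (Fin (N + 2)) (Fin (N + 2)) ℝ) i j := by
    have h2 := b.sum_inner_mul_inner (ev i) (ev j)
    rw [ev_inner, ev_comm, coord_ev] at h2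
    rw [← h2]
    refine Finset.sum_congr rfl fun α _ => ?_
    rw [ev_inner, inner_ev]
  rw [inv_gJ hJ C x hK, ← h1]
  simp only [Fintype.sum_option, wt, hb1]
  simp only [PiLp.smul_apply, smul_eq_mul, one_mul]
  have h3 : ‖x‖⁻¹ * ‖x‖⁻¹ - C (‖x‖ ^ 2) / (1 + ‖x‖ ^ 2 * C (‖x‖ ^ 2)) =
      (1 + ‖x‖ ^ 2 * C (‖x‖ ^ 2))⁻¹ * (‖x‖⁻¹ * ‖x‖⁻¹) := by
    generalize C (‖x‖ ^ 2) = c at *
    generalize ‖x‖ = r at *
    field_simp
    ring
  linear_combination ((J x) i * (J x) j) * h3

end Pool.Agent.GBC
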