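import Pool.Agent.GBC.Rot
import Pool.Agent.GBC.Frame

/-!
# Closed form of the curvature of `δ + C(x) Ax ⊗ Ax`
-/

set_option linter.unusedSimpArgs false

namespace Pool.Agent.GBC

open MeasureTheory Metric Set Filter Topology Real
open scoped ContDiff

variable {n : ℕ} {A : E n →L[ℝ] E n} {C : E n → ℝ}

/-- Christoffel symbols of the first kind as a vector. -/
noncomputable def gml (A : E n →L[ℝ] E n) (x : E n) (c : ℝ) (g : E n) (p q : E n) : E n :=
  (1 / 2 * (inner ℝ g p * inner ℝ (A x) q + inner ℝ g q * inner ℝ (A x) p)) • A x -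
    (1 / 2 * (inner ℝ (A x) p * inner ℝ (A x) q)) • g +
    (c * inner ℝ (A x) q) • A p + (c * inner ℝ (A x) p) • A q

/-- Product of Christoffel symbols. -/
noncomputable def GG (A : E n →L[ℝ] E n) (x : E n) (c : ℝ) (g : E n) (p q s t : E n) : ℝ :=
  inner ℝ (gml A x c g p q) (gml A x c g s t) - c / (1 + ‖A x‖ ^ 2 * c) *
    (inner ℝ (A x) (gml A x c g p q) * inner ℝ (A x) (gml A x c g s t))

/-- Second derivatives of `C Y Y`. -/
noncomputable def sec (A : E n →L[ℝ] E n) (x : E n) (c : ℝ) (g : E n)
    (H : E n →L[ℝ] E n →L[ℝ] ℝ) (a b p q : E n) : ℝ :=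
  H a b * (inner ℝ (A x) p * inner ℝ (A x) q) +
    inner ℝ g a * (om A b p * inner ℝ (A x) q + inner ℝ (A x) p * om A b q) +
    inner ℝ g b * (om A a p * inner ℝ (A x) q + inner ℝ (A x) p * om A a q) +
    c * (om A b p * om A a q + om A a p * om A b q)

/-- The curvature tensor in closed form. -/
noncomputable def Rg (A : E n →L[ℝ] E n) (x : E n) (c : ℝ) (g : E n)
    (H : E n →L[ℝ] E n →L[ℝ] ℝ) (p q s t : E n) : ℝ :=
  1 / 2 * (sec A x c g H p t q s + sec A x c g H q s p t - sec A x c g H p s q t -
    sec A x c g H q t p s) - (GG A x c g p s q t - GG A x c g q s p t)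

lemma gml_comm (x : E n) (c : ℝ) (g p q : E n) : gml A x c g p q = gml A x c g q p := by
  unfold gml
  rw [add_comm (inner ℝ g p * inner ℝ (A x) q), mul_comm (inner ℝ (A x) p)]
  abel

lemma gml_add (x : E n) (c : ℝ) (g p p' q : E n) :
    gml A x c g (p + p') q = gml A x c g p q + gml A x c g p' q := by
  unfold gml
  simp only [inner_add_right, map_add]
  module

lemma gml_smul (x : E n) (c : ℝ) (g : E n) (a : ℝ) (p q : E n) :
    gml A x c g (a • p) q = a • gml A x c g p q := by
  unfold gml
  simp only [inner_smul_right, map_smul]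
  module

lemma gml_add' (x : E n) (c : ℝ) (g p p' q : E n) :
    gml A x c g q (p + p') = gml A x c g q p + gml A x c g q p' := by
  rw [gml_comm, gml_add, gml_comm, gml_comm x c g p' q]

lemma gml_smul' (x : E n) (c : ℝ) (g : E n) (a : ℝ) (p q : E n) :
    gml A x c g q (a • p) = a • gml A x c g q p := by
  rw [gml_comm, gml_smul, gml_comm]

lemma Rg_lin4 (x : E n) (c : ℝ) (g : E n) (H : E n →L[ℝ] E n →L[ℝ] ℝ) (p q s : E n) :
    IsLinearMap ℝ (fun t => Rg A x c g H p q s t) := by
  constructor
  · intro u v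
    simp only [Rg, sec, GG, om, inner_add_right, inner_add_left, map_add, gml_add, gml_add',
      _root_.add_apply]
    ring
  · intro a u
    simp only [Rg, sec, GG, om, inner_smul_right, real_inner_smul_left, map_smul, gml_smul, gml_smul',
      _root_.smul_apply, smul_eq_mul]
    ring

lemma Rg_lin3 (x : E n) (c : ℝ) (g : E n) (H : E n →L[ℝ] E n →L[ℝ] ℝ) (p q t : E n) :
    IsLinearMap ℝ (fun s => Rg A x c g H p q s t) := by
  constructor
  · intro u v
    simp only [Rg, sec, GG, om, inner_add_right, inner_add_left, map_add, gml_add, gml_add',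
      _root_.add_apply]
    ring
  · intro a u
    simp only [Rg, sec, GG, om, inner_smul_right, real_inner_smul_left, map_smul, gml_smul, gml_smul',
      _root_.smul_apply, smul_eq_mul]
    ring

lemma Rg_lin2 (x : E n) (c : ℝ) (g : E n) (H : E n →L[ℝ] E n →L[ℝ] ℝ) (p s t : E n) :
    IsLinearMap ℝ (fun q => Rg A x c g H p q s t) := by
  constructor
  · intro u v
    simp only [Rg, sec, GG, om, inner_add_right, inner_add_left, map_add, gml_add, gml_add',
      _root_.add_apply]
    ring
  · intro a u
    simp only [Rg, sec, GG, om, inner_smul_right, real_inner_smul_left, map_smul, gml_smul, gml_smul',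
      _root_.smul_apply, smul_eq_mul]
    ring

lemma Rg_lin1 (x : E n) (c : ℝ) (g : E n) (H : E n →L[ℝ] E n →L[ℝ] ℝ) (q s t : E n) :
    IsLinearMap ℝ (fun p => Rg A x c g H p q s t) := by
  constructor
  · intro u v
    simp only [Rg, sec, GG, om, inner_add_right, inner_add_left, map_add, gml_add, gml_add',
      _root_.add_apply]
    ring
  · intro a u
    simp only [Rg, sec, GG, om, inner_smul_right, real_inner_smul_left, map_smul, gml_smul, gml_smul',
      _root_.smul_apply, smul_eq_mul]
    ring

lemma om_skew (hA : IsSkew A) (p q : E n) : om A p q = - om A q p := by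
  unfold om
  rw [hA, real_inner_comm]

/-- Pair symmetry. -/
lemma Rg_pair (x : E n) (c : ℝ) (g : E n) (H : E n →L[ℝ] E n →L[ℝ] ℝ)
    (hH : ∀ p q, H p q = H q p) (p q s t : E n) :
    Rg A x c g H p q s t = Rg A x c g H s t p q := by
  have h1 : ∀ a b p q, sec A x c g H a b p q = sec A x c g H b a p q := by
    intro a b p q
    unfold sec
    rw [hH a b]
    ring
  have h2 : ∀ a b p q, sec A x c g H a b p q = sec A x c g H a b q p := by
    intro a b p q
    unfold sec
    ring
  have h3 : ∀ p q s t, GG A x c g p q s t = GG A x c g s t p q := by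
    intro p q s t
    unfold GG
    rw [real_inner_comm (gml A x c g s t) (gml A x c g p q)]
    ring
  have h4 : ∀ p q s t, GG A x c g p q s t = GG A x c g q p s t := by
    intro p q s t
    unfold GG
    rw [gml_comm x c g p q]
  have h5 : ∀ p q s t, GG A x c g p q s t = GG A x c g p q t s := by
    intro p q s t
    unfold GG
    rw [gml_comm x c g s t]
  unfold Rg
  rw [h1 p t q s, h2 t p q s, h1 q s p t, h2 s q p t, h1 p s q t, h2 s p q t, h1 q t p s,
    h2 t q p s, h4 p s q t, h5 s p q t, h3 q s p t, h4 p t q s, h5 t p q s]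
  ring

lemma Rg_anti (x : E n) (c : ℝ) (g : E n) (H : E n →L[ℝ] E n →L[ℝ] ℝ)
    (p q s t : E n) : Rg A x c g H p q s t = - Rg A x c g H q p s t := by
  unfold Rg
  ring

/-- The key vanishing. -/
lemma Rg_zero (hA : IsSkew A) (x : E n) (c : ℝ) (g : E n) (H : E n →L[ℝ] E n →L[ℝ] ℝ)
    {p q : E n} {lp lq : ℝ} (hp : inner ℝ (A x) p = 0) (hq : inner ℝ (A x) q = 0)
    (hAp : A p = lp • A x) (hAq : A q = lq • A x) (s t : E n) :
    Rg A x c g H p q s t = 0 := by
  have o1 : ∀ v, om A p v = lp * inner ℝ (A x) v := by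
    intro v
    unfold om
    rw [hAp, real_inner_smul_left]
  have o2 : ∀ v, om A q v = lq * inner ℝ (A x) v := by
    intro v
    unfold om
    rw [hAq, real_inner_smul_left]
  have o3 : ∀ v, om A v p = -(lp * inner ℝ (A x) v) := by
    intro v
    rw [om_skew hA, o1]
  have o4 : ∀ v, om A v q = -(lq * inner ℝ (A x) v) := by
    intro v
    rw [om_skew hA, o2]
  have g1 : ∀ v, gml A x c g p v = (inner ℝ (A x) v * (1 / 2 * inner ℝ g p + c * lp)) • A x := by
    intro v
    unfold gml
    rw [hp, hAp]
    simp only [smul_smul]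
    module
  have g2 : ∀ v, gml A x c g q v = (inner ℝ (A x) v * (1 / 2 * inner ℝ g q + c * lq)) • A x := by
    intro v
    unfold gml
    rw [hq, hAq]
    simp only [smul_smul]
    module
  unfold Rg sec GG
  rw [g1, g1, g2, g2]
  simp only [o1, o2, o3, o4, hp, hq, inner_smul_right, real_inner_smul_left]
  ring

end Pool.Agent.GBC
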