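import Pool.Agent.GBC.Basic

/-!
# Existence of a complex structure in even dimensions
-/

namespace Pool.Agent.GBC

/-- The standard complex structure as a linear map. -/
noncomputable def stdJ (m : ℕ) : E (m + m) →ₗ[ℝ] E (m + m) where
  toFun x := WithLp.toLp 2 (Fin.addCases (fun a => - x (Fin.natAdd m a)) fun b =>
    x (Fin.castAdd m b))
  map_add' x y := by
    ext i
    refine Fin.addCases (fun a => ?_) (fun a => ?_) i
    · simp only [PiLp.add_apply, Fin.addCases_left]
      ring
    · simp only [PiLp.add_apply, Fin.addCases_right]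
  map_smul' c x := by
    ext i
    refine Fin.addCases (fun a => ?_) (fun a => ?_) i
    · simp only [PiLp.smul_apply, Fin.addCases_left, smul_eq_mul, RingHom.id_apply]
      ring
    · simp only [PiLp.smul_apply, Fin.addCases_right, smul_eq_mul, RingHom.id_apply]

lemma stdJ_left (m : ℕ) (x : E (m + m)) (a : Fin m) :
    (stdJ m x) (Fin.castAdd m a) = - x (Fin.natAdd m a) := by
  simp only [stdJ, LinearMap.coe_mk, AddHom.coe_mk, Fin.addCases_left]

lemma stdJ_right (m : ℕ) (x : E (m + m)) (a : Fin m) :
    (stdJ m x) (Fin.natAdd m a) = x (Fin.castAdd m a) := by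
  simp only [stdJ, LinearMap.coe_mk, AddHom.coe_mk, Fin.addCases_right]

lemma isCx_stdJ (m : ℕ) : IsCx (LinearMap.toContinuousLinearMap (stdJ m)) := by
  constructor
  · intro u v
    rw [LinearMap.coe_toContinuousLinearMap', ← sum_mul_eq_inner, ← sum_mul_eq_inner,
      Fin.sum_univ_add, Fin.sum_univ_add]
    simp only [stdJ_left, stdJ_right]
    rw [neg_add, ← Finset.sum_neg_distrib, ← Finset.sum_neg_distrib, add_comm]
    congr 1
    · refine Finset.sum_congr rfl fun i _ => ?_
      ring
    · refine Finset.sum_congr rfl fun i _ => ?_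
      ring
  · intro u
    rw [LinearMap.coe_toContinuousLinearMap']
    ext i
    refine Fin.addCases (fun a => ?_) (fun a => ?_) i
    · rw [stdJ_left, stdJ_right]
      rfl
    · rw [stdJ_right, stdJ_left]
      rfl

lemma exists_cx {n : ℕ} (hn : Even n) : ∃ J : E n →L[ℝ] E n, IsCx J := by
  obtain ⟨m, rfl⟩ := hn
  exact ⟨_, isCx_stdJ m⟩

end Pool.Agent.GBC
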