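import Mathlib

/-!
# Definitions for the Gauss-Bonnet-Chern mass

A Riemannian metric on (a region of) `ℝⁿ` is given by the matrix of its components in Cartesian
coordinates. All tensors are expressed through their components.
-/

namespace Pool.Agent.GBC

open MeasureTheory Metric Set Filter Topology Real
open scoped ContDiff

variable {n : ℕ}

/-- Euclidean space `ℝⁿ`. -/
abbrev E (n : ℕ) := EuclideanSpace ℝ (Fin n)

/-- A field of `n × n` matrices on `ℝⁿ`: the components `g_ij` of a metric. -/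
abbrev MetricField (n : ℕ) := E n → Matrix (Fin n) (Fin n) ℝ

/-- `g` is a smooth Riemannian metric on `ℝⁿ`. -/
structure IsMetric (g : MetricField n) : Prop where
  smooth : ∀ i j, ContDiff ℝ ∞ fun x => g x i j
  posDef : ∀ x, (g x).PosDef

/-- The partial derivative `∂_i f`. -/
noncomputable def pd (i : Fin n) (f : E n → ℝ) (x : E n) : ℝ :=
  fderiv ℝ f x (EuclideanSpace.single i 1)

/-- The Christoffel symbols `Γ^k_ij`. -/
noncomputable def christoffel (g : MetricField n) (k i j : Fin n) (x : E n) : ℝ :=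
  1 / 2 * ∑ l, (g x)⁻¹ k l *
    (pd i (fun y => g y j l) x + pd j (fun y => g y i l) x - pd l (fun y => g y i j) x)

/-- The curvature tensor `R_ijkl = ⟨R(∂_i, ∂_j) ∂_l, ∂_k⟩`, where `R(∂_i, ∂_j) ∂_l` has the
components `∂_i Γ^m_jl - ∂_j Γ^m_il + Γ^m_ip Γ^p_jl - Γ^m_jp Γ^p_il`. With this sign `R_ijij` is
positive on round spheres. -/
noncomputable def riem (g : MetricField n) (x : E n) (i j k l : Fin n) : ℝ :=
  ∑ m, g x k m * (pd i (christoffel g m j l) x - pd j (christoffel g m i l) x +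
    ∑ p, (christoffel g m i p x * christoffel g p j l x -
      christoffel g m j p x * christoffel g p i l x))

/-- The Ricci tensor `R_jl = g^ik R_ijkl`. -/
noncomputable def ric (g : MetricField n) (x : E n) (j l : Fin n) : ℝ :=
  ∑ i, ∑ k, (g x)⁻¹ i k * riem g x i j k l

/-- The scalar curvature `R = g^jl R_jl`. -/
noncomputable def scal (g : MetricField n) (x : E n) : ℝ :=
  ∑ j, ∑ l, (g x)⁻¹ j l * ric g x j l

/-- `|Rm|² = g^ii' g^jj' g^kk' g^ll' R_ijkl R_i'j'k'l'`. -/
noncomputable def normSqRiem (g : MetricField n) (x : E n) : ℝ :=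
  ∑ i, ∑ i', (g x)⁻¹ i i' * ∑ j, ∑ j', (g x)⁻¹ j j' * ∑ k, ∑ k', (g x)⁻¹ k k' *
    ∑ l, ∑ l', (g x)⁻¹ l l' * (riem g x i j k l * riem g x i' j' k' l')

/-- `|Ric|² = g^ii' g^jj' R_ij R_i'j'`. -/
noncomputable def normSqRic (g : MetricField n) (x : E n) : ℝ :=
  ∑ i, ∑ i', (g x)⁻¹ i i' * ∑ j, ∑ j', (g x)⁻¹ j j' * (ric g x i j * ric g x i' j')

/-- The Gauss-Bonnet curvature `L₂ = |Rm|² - 4 |Ric|² + R²`. -/
noncomputable def gaussBonnet (g : MetricField n) (x : E n) : ℝ :=
  normSqRiem g x - 4 * normSqRic g x + scal g x ^ 2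

/-- The curvature tensor with raised indices `R^ijkl`. -/
noncomputable def riemUp (g : MetricField n) (x : E n) (i j k l : Fin n) : ℝ :=
  ∑ a, ∑ b, ∑ c, ∑ d, (g x)⁻¹ i a * (g x)⁻¹ j b * (g x)⁻¹ k c * (g x)⁻¹ l d * riem g x a b c d

/-- The Ricci tensor with raised indices `R^ij`. -/
noncomputable def ricUp (g : MetricField n) (x : E n) (i j : Fin n) : ℝ :=
  ∑ a, ∑ b, (g x)⁻¹ i a * (g x)⁻¹ j b * ric g x a b

/-- The tensor `P^ijkl`. -/
noncomputable def tensorP (g : MetricField n) (x : E n) (i j k l : Fin n) : ℝ :=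
  riemUp g x i j k l + ricUp g x j k * (g x)⁻¹ i l - ricUp g x j l * (g x)⁻¹ i k -
    ricUp g x i k * (g x)⁻¹ j l + ricUp g x i l * (g x)⁻¹ j k +
    1 / 2 * scal g x * ((g x)⁻¹ i k * (g x)⁻¹ j l - (g x)⁻¹ i l * (g x)⁻¹ j k)

/-- The area `ω_{n-1}` of the unit sphere of `ℝⁿ`. -/
noncomputable def omega (n : ℕ) : ℝ := ((volume : Measure (E n)).toSphere univ).toReal

/-- `c ∫_{S_r} P^ijkl ∂_l g_jk ν_i dS` with `c = (n-4)! / (2 (n-1)! ω_{n-1})`; the coordinate
sphere `S_r` is parametrised by the unit sphere with its surface measure. -/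
noncomputable def massIntegral (g : MetricField n) (r : ℝ) : ℝ :=
  ((n - 4).factorial : ℝ) / (2 * (n - 1).factorial * omega n) *
    (r ^ (n - 1) * ∫ θ : sphere (0 : E n) 1, ∑ i, ∑ j, ∑ k, ∑ l,
      tensorP g (r • (θ : E n)) i j k l * pd l (fun y => g y j k) (r • (θ : E n)) * (θ : E n) i
      ∂(volume : Measure (E n)).toSphere)

/-- `m` is the Gauss-Bonnet-Chern mass `m₂` of `g`. -/
def IsGBCMass (g : MetricField n) (m : ℝ) : Prop :=
  Tendsto (massIntegral g) atTop (𝓝 m)

/-- `g` is asymptotically flat of order `τ` (in the Cartesian coordinates). -/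
def IsAF (g : MetricField n) (τ : ℝ) : Prop :=
  ∃ R A : ℝ, 0 < R ∧ ∀ x : E n, R ≤ ‖x‖ → ∀ i j,
    |g x i j - (1 : Matrix (Fin n) (Fin n) ℝ) i j| ≤ A * ‖x‖ ^ (-τ) ∧
    (∀ k, |pd k (fun y => g y i j) x| ≤ A * ‖x‖ ^ (-τ - 1)) ∧
    ∀ k l, |pd l (pd k (fun y => g y i j)) x| ≤ A * ‖x‖ ^ (-τ - 2)

/-- The volume density `√(det g)`. -/
noncomputable def dens (g : MetricField n) (x : E n) : ℝ := √(g x).det

/-- `√(det g) div_g X = ∂_i (√(det g) X^i)`. -/
noncomputable def divDens (g : MetricField n) (X : E n → E n) (x : E n) : ℝ :=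
  ∑ i, pd i (fun y => dens g y * X y i) x

/-- Smooth compactly supported vector fields of `g`-length at most `1`. -/
structure IsTestField (g : MetricField n) (X : E n → E n) : Prop where
  smooth : ContDiff ℝ ∞ X
  compact : HasCompactSupport X
  length : ∀ x, ∑ i, ∑ j, g x i j * X x i * X x j ≤ 1

/-- The `g`-area of the boundary of `Ω` (its perimeter): the supremum of the integrals of the
divergence over `Ω` of the test fields. For a domain with smooth boundary it is the area of the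
boundary. -/
noncomputable def area (g : MetricField n) (Ω : Set (E n)) : ENNReal :=
  ⨆ (X : E n → E n) (_ : IsTestField g X), ENNReal.ofReal (∫ x in Ω, divDens g X x)

/-- The mean curvature at `x` of the level set of `ρ` through `x`: the divergence of the unit
normal field `grad ρ / |grad ρ|`. -/
noncomputable def meanCurv (g : MetricField n) (ρ : E n → ℝ) (x : E n) : ℝ :=
  (dens g x)⁻¹ * ∑ i, pd i (fun y => dens g y * ((∑ j, (g y)⁻¹ i j * pd j ρ y) /
    √(∑ j, ∑ k, (g y)⁻¹ j k * pd j ρ y * pd k ρ y))) x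

/-- The sphere of radius `r₀`, the boundary of the exterior region `M = {x | r₀ ≤ ‖x‖}`, is an
area outer minimizing horizon: it is minimal, and no hypersurface enclosing it has smaller
area. -/
structure IsOuterMinimizingHorizon (g : MetricField n) (r₀ : ℝ) : Prop where
  minimal : ∀ x : E n, ‖x‖ = r₀ → meanCurv g (fun y => ‖y‖ ^ 2) x = 0
  outer : ∀ Ω : Set (E n), Bornology.IsBounded Ω → MeasurableSet Ω → ball 0 r₀ ⊆ Ω →
    area g (ball 0 r₀) ≤ area g Ω

end Pool.Agent.GBC
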