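import Pool.Agent.GBC.Frame

/-!
# The curvature in the adapted frame
-/

namespace Pool.Agent.GBC

open MeasureTheory Metric Set Filter Topology Real

/-- The frame relations. -/
structure FrameRel {N : ℕ} (J : E (N + 2) →L[ℝ] E (N + 2)) (x : E (N + 2))
    (b : Option (Option (Fin N)) → E (N + 2)) : Prop where
  X0 : inner ℝ x (b none) = ‖x‖
  X1 : inner ℝ x (b (some none)) = 0
  X2 : ∀ a, inner ℝ x (b (some (some a))) = 0
  Y0 : inner ℝ (J x) (b none) = 0
  Y1 : inner ℝ (J x) (b (some none)) = ‖x‖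
  Y2 : ∀ a, inner ℝ (J x) (b (some (some a))) = 0
  O00 : inner ℝ (J (b none)) (b none) = 0
  O01 : inner ℝ (J (b none)) (b (some none)) = 1
  O02 : ∀ a, inner ℝ (J (b none)) (b (some (some a))) = 0
  O10 : inner ℝ (J (b (some none))) (b none) = -1
  O11 : inner ℝ (J (b (some none))) (b (some none)) = 0
  O12 : ∀ a, inner ℝ (J (b (some none))) (b (some (some a))) = 0
  O20 : ∀ a, inner ℝ (J (b (some (some a)))) (b none) = 0
  O21 : ∀ a, inner ℝ (J (b (some (some a)))) (b (some none)) = 0
  D00 : inner ℝ (b none) (b none) = 1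
  D01 : inner ℝ (b none) (b (some none)) = 0
  D02 : ∀ a, inner ℝ (b none) (b (some (some a))) = 0
  D10 : inner ℝ (b (some none)) (b none) = 0
  D11 : inner ℝ (b (some none)) (b (some none)) = 1
  D12 : ∀ a, inner ℝ (b (some none)) (b (some (some a))) = 0
  D20 : ∀ a, inner ℝ (b (some (some a))) (b none) = 0
  D21 : ∀ a, inner ℝ (b (some (some a))) (b (some none)) = 0
  D22 : ∀ a c, inner ℝ (b (some (some a))) (b (some (some c))) = if a = c then 1 else 0

variable {N : ℕ} {J : E (N + 2) →L[ℝ] E (N + 2)}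

lemma frameRel (hJ : IsCx J) (x : E (N + 2)) (hx : x ≠ 0)
    (b : OrthonormalBasis (Option (Option (Fin N))) ℝ (E (N + 2)))
    (h0 : b none = ‖x‖⁻¹ • x) (h1 : b (some none) = ‖x‖⁻¹ • J x) : FrameRel J x b := by
  have hx0 : ‖x‖ ≠ 0 := norm_ne_zero_iff.2 hx
  have hxb : x = ‖x‖ • b none := by rw [h0, smul_smul, mul_inv_cancel₀ hx0, one_smul]
  have hJb : J (b none) = b (some none) := by rw [h0, h1, map_smul]
  have hJJ : J (b (some none)) = - b none := by rw [← hJb, hJ.sq]
  have hX : ∀ α, inner ℝ x (b α) = ‖x‖ * inner ℝ (b none) (b α) := by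
    intro α
    conv_lhs => rw [hxb]
    rw [real_inner_smul_left]
  have hY : ∀ α, inner ℝ (J x) (b α) = ‖x‖ * inner ℝ (b (some none)) (b α) := by
    intro α
    conv_lhs => rw [hxb]
    rw [map_smul, real_inner_smul_left, hJb]
  have hD : ∀ α β, inner ℝ (b α) (b β) = if α = β then (1 : ℝ) else 0 := by
    intro α β
    exact (orthonormal_iff_ite.1 b.orthonormal) α β
  constructor <;> intros <;>
    simp only [hX, hY, hJb, hJJ, hD, hJ.skew (b (some (some _))), inner_neg_left, inner_neg_right,
      Option.some.injEq, reduceCtorEq, if_true, if_false, mul_one, mul_zero, neg_zero, neg_neg]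

/-- The matrix of `J` on the complement. -/
noncomputable def oo (J : E (N + 2) →L[ℝ] E (N + 2)) (b : Option (Option (Fin N)) → E (N + 2))
    (a c : Fin N) : ℝ := inner ℝ (J (b (some (some a)))) (b (some (some c)))

lemma oo_skew (hJ : IsCx J) (b : Option (Option (Fin N)) → E (N + 2)) (a c : Fin N) :
    oo J b a c = - oo J b c a := by
  unfold oo
  rw [hJ.skew, real_inner_comm]

lemma oo_self (hJ : IsCx J) (b : Option (Option (Fin N)) → E (N + 2)) (a : Fin N) :
    oo J b a a = 0 := by
  have := oo_skew hJ b a a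
  linarith

lemma oo_sum (hJ : IsCx J) {x : E (N + 2)}
    (b : OrthonormalBasis (Option (Option (Fin N))) ℝ (E (N + 2))) (hb : FrameRel J x b)
    (a c : Fin N) : ∑ e, oo J b a e * oo J b c e = if a = c then 1 else 0 := by
  have h := b.sum_inner_mul_inner (J (b (some (some a)))) (J (b (some (some c))))
  rw [inner_J_J hJ, hb.D22] at h
  simp only [Fintype.sum_option, hb.O20, hb.O21, zero_mul, zero_add] at h
  rw [← h]
  refine Finset.sum_congr rfl fun e _ => ?_
  unfold oo
  rw [real_inner_comm (J (b (some (some c))))]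

end Pool.Agent.GBC
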