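import Pool.Agent.GBC.Ring

/-!
# The metric coefficient and the calibrating field
-/

namespace Pool.Agent.GBC

open MeasureTheory Metric Set Filter Topology Real
open scoped ContDiff

/-- cutoff: `1` on `[1/8, 1/2]`, supported in `[1/16, 3/4]` -/
noncomputable def th (q : ℝ) : ℝ := smoothTransition (16 * q - 1) * smoothTransition (3 - 4 * q)

/-- cutoff: `0` for `q ≤ 3/4` and `1` for `q ≥ 1` -/
noncomputable def hh (q : ℝ) : ℝ := smoothTransition (4 * q - 3)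

lemma th_contDiff : ContDiff ℝ ∞ th := by
  unfold th
  refine ContDiff.mul (smoothTransition.contDiff.comp ?_) (smoothTransition.contDiff.comp ?_) <;>
    fun_prop

lemma hh_contDiff : ContDiff ℝ ∞ hh := by
  unfold hh
  refine smoothTransition.contDiff.comp ?_
  fun_prop

lemma th_nonneg (q : ℝ) : 0 ≤ th q := mul_nonneg (smoothTransition.nonneg _)
  (smoothTransition.nonneg _)

lemma th_le_one (q : ℝ) : th q ≤ 1 := by
  unfold th
  calc _ ≤ (1 : ℝ) * 1 := mul_le_mul (smoothTransition.le_one _) (smoothTransition.le_one _)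
        (smoothTransition.nonneg _) zero_le_one
    _ = 1 := one_mul _

lemma th_eq_one {q : ℝ} (h1 : 1 / 8 ≤ q) (h2 : q ≤ 1 / 2) : th q = 1 := by
  rw [th, smoothTransition.one_of_one_le (by linarith), smoothTransition.one_of_one_le (by linarith),
    one_mul]

lemma th_of_le {q : ℝ} (h : q ≤ 1 / 16) : th q = 0 := by
  rw [th, smoothTransition.zero_of_nonpos (by linarith), zero_mul]

lemma th_of_ge {q : ℝ} (h : 3 / 4 ≤ q) : th q = 0 := by
  rw [th, smoothTransition.zero_of_nonpos (x := 3 - 4 * q) (by linarith), mul_zero]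

lemma hh_nonneg (q : ℝ) : 0 ≤ hh q := smoothTransition.nonneg _

lemma hh_le_one (q : ℝ) : hh q ≤ 1 := smoothTransition.le_one _

lemma hh_of_le {q : ℝ} (h : q ≤ 3 / 4) : hh q = 0 := smoothTransition.zero_of_nonpos (by linarith)

lemma hh_of_ge {q : ℝ} (h : 1 ≤ q) : hh q = 1 := smoothTransition.one_of_one_le (by linarith)

lemma hh_deriv_nonneg (q : ℝ) : 0 ≤ deriv hh q := by
  refine Monotone.deriv_nonneg fun a b hab => ?_
  exact smoothTransition.monotone (by linarith)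

lemma hasDerivAt_hh (q : ℝ) : HasDerivAt hh (deriv hh q) q :=
  (hh_contDiff.differentiable (by simp) q).hasDerivAt

/-- normalisation -/
noncomputable def c₁ (M : ℕ) : ℝ := (12 * 7 ^ M)⁻¹

lemma c₁_pos (M : ℕ) : 0 < c₁ M := by
  unfold c₁
  positivity

variable {n : ℕ} {A : E n →L[ℝ] E n} {M : ℕ}

/-- The function `P`. -/
noncomputable def PF (A : E n →L[ℝ] E n) (x : E n) : ℝ := ‖A x‖ ^ 2 + hh (QQ A x) * QQ A x

lemma PF_nonneg (hA : IsRot A) (x : E n) : 0 ≤ PF A x := by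
  have := mul_nonneg (hh_nonneg (QQ A x)) (Q_nonneg hA x)
  unfold PF
  positivity

lemma PF_pos (hA : IsRot A) {x : E n} (hx : 0 < QQ A x) : 0 < PF A x := by
  unfold PF
  rcases lt_or_ge (QQ A x) 1 with h | h
  · have h1 := r_pos x h
    have h2 := mul_nonneg (hh_nonneg (QQ A x)) (Q_nonneg hA x)
    linarith
  · rw [hh_of_ge h]
    have := sq_nonneg ‖A x‖
    linarith

lemma PF_of_le {x : E n} (hx : QQ A x ≤ 3 / 4) : PF A x = ‖A x‖ ^ 2 := by
  rw [PF, hh_of_le hx, zero_mul, add_zero]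

lemma s_le (hA : IsRot A) {x : E n} (hx : 1 / 2 ≤ QQ A x) : ‖x‖ ^ 2 ≤ 6 * QQ A x := by
  have h := Q_ge hA x
  rcases le_or_gt (‖x‖ ^ 2) 3 with h3 | h3
  · linarith
  · nlinarith

lemma PF_le (hA : IsRot A) {x : E n} (hx : 1 / 2 ≤ QQ A x) : PF A x ≤ 7 * QQ A x := by
  have h1 := s_le hA hx
  have h2 := normA_le hA x
  have h3 : hh (QQ A x) * QQ A x ≤ 1 * QQ A x :=
    mul_le_mul_of_nonneg_right (hh_le_one _) (Q_nonneg hA x)
  unfold PF
  linarith

/-- The square of the length of the calibrating field. -/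
noncomputable def Wsq (A : E n →L[ℝ] E n) (M : ℕ) (x : E n) : ℝ :=
  c₁ M * (‖x‖ ^ 2 * PF A x ^ M) / QQ A x ^ (M + 2)

lemma Wsq_le_one (hA : IsRot A) {x : E n} (hx : 1 / 2 ≤ QQ A x) : Wsq A M x ≤ 1 := by
  have hQ : 0 < QQ A x := by linarith
  unfold Wsq
  rw [div_le_one (by positivity)]
  have h1 : PF A x ^ M ≤ (7 * QQ A x) ^ M := pow_le_pow_left₀ (PF_nonneg hA x) (PF_le hA hx) M
  have h2 : ‖x‖ ^ 2 * PF A x ^ M ≤ 6 * QQ A x * (7 * QQ A x) ^ M :=
    mul_le_mul (s_le hA hx) h1 (pow_nonneg (PF_nonneg hA x) M) (by positivity)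
  have h3 : c₁ M * (‖x‖ ^ 2 * PF A x ^ M) ≤ c₁ M * (6 * QQ A x * (7 * QQ A x) ^ M) :=
    mul_le_mul_of_nonneg_left h2 (c₁_pos M).le
  have h4 : c₁ M * (6 * QQ A x * (7 * QQ A x) ^ M) = 1 / 2 * QQ A x ^ (M + 1) := by
    rw [mul_pow, c₁]
    have : (7 : ℝ) ^ M ≠ 0 := by positivity
    field_simp
    ring
  have h5 : 1 / 2 * QQ A x ^ (M + 1) ≤ QQ A x ^ (M + 2) := by
    rw [pow_succ (QQ A x) (M + 1)]
    nlinarith [pow_pos hQ (M + 1)]
  linarith

lemma Wsq_nonneg (hA : IsRot A) (x : E n) : 0 ≤ Wsq A M x := by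
  unfold Wsq
  have h1 := c₁_pos M
  have h2 := PF_nonneg hA x
  have h3 := Q_nonneg hA x
  positivity

/-- The coefficient function of the metric. -/
noncomputable def CC (A : E n →L[ℝ] E n) (M : ℕ) (x : E n) : ℝ :=
  th (QQ A x) * (c₁ M * (‖x‖ ^ 2 * (‖A x‖ ^ 2) ^ M) / QQ A x ^ (M + 2) - 1) / ‖A x‖ ^ 2

lemma CC_of_ge {x : E n} (hx : 3 / 4 ≤ QQ A x) : CC A M x = 0 := by
  rw [CC, th_of_ge hx, zero_mul, zero_div]

lemma CC_of_le {x : E n} (hx : QQ A x ≤ 1 / 16) : CC A M x = 0 := by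
  rw [CC, th_of_le hx, zero_mul, zero_div]

lemma CC_contDiff (A : E n →L[ℝ] E n) (M : ℕ) : ContDiff ℝ ∞ (CC A M) := by
  rw [contDiff_iff_contDiffAt]
  intro x
  have hQc : Continuous (QQ A) := (contDiff_Q A).continuous
  rcases lt_or_ge (QQ A x) (1 / 16) with h1 | h1
  · refine (contDiffAt_const (c := (0 : ℝ))).congr_of_eventuallyEq ?_
    filter_upwards [(isOpen_lt hQc continuous_const).mem_nhds h1] with y hy
    exact CC_of_le (le_of_lt hy)
  rcases lt_or_ge (3 / 4) (QQ A x) with h2 | h2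
  · refine (contDiffAt_const (c := (0 : ℝ))).congr_of_eventuallyEq ?_
    filter_upwards [(isOpen_lt continuous_const hQc).mem_nhds h2] with y hy
    exact CC_of_ge (le_of_lt hy)
  have hr := r_pos x (show QQ A x < 1 by linarith)
  have hQ : 0 < QQ A x := by linarith
  have cQ : ContDiffAt ℝ ∞ (QQ A) x := (contDiff_Q A).contDiffAt
  have cr : ContDiffAt ℝ ∞ (fun y : E n => ‖A y‖ ^ 2) x := (contDiff_rN A).contDiffAt
  have cs : ContDiffAt ℝ ∞ (fun y : E n => ‖y‖ ^ 2) x := contDiff_sN.contDiffAt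
  unfold CC
  refine ContDiffAt.div (ContDiffAt.mul (th_contDiff.contDiffAt.comp x cQ) ?_) cr hr.ne'
  refine ContDiffAt.sub (ContDiffAt.div (contDiffAt_const.mul (cs.mul (cr.pow M))) (cQ.pow _)
    (pow_ne_zero _ hQ.ne')) contDiffAt_const

/-- The determinant. -/
noncomputable def KK (A : E n →L[ℝ] E n) (M : ℕ) (x : E n) : ℝ := 1 + ‖A x‖ ^ 2 * CC A M x

lemma KK_of_mem {x : E n} (hx : QQ A x ≤ 3 / 4) :
    KK A M x = 1 + th (QQ A x) * (Wsq A M x - 1) := by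
  have hr := r_pos x (show QQ A x < 1 by linarith)
  rw [KK, CC, Wsq, PF_of_le hx, mul_div_cancel₀ _ hr.ne']

lemma KK_of_ge {x : E n} (hx : 3 / 4 ≤ QQ A x) : KK A M x = 1 := by
  rw [KK, CC_of_ge hx]
  ring

lemma KK_pos (hA : IsRot A) (x : E n) : 0 < KK A M x := by
  rcases le_or_gt (3 / 4) (QQ A x) with h | h
  · rw [KK_of_ge h]
    exact one_pos
  rw [KK_of_mem h.le]
  rcases (th_nonneg (QQ A x)).eq_or_lt with h0 | h0
  · rw [← h0]
    norm_num
  have hQ : 0 < QQ A x := by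
    by_contra hq
    rw [not_lt] at hq
    rw [th_of_le (by linarith)] at h0
    exact lt_irrefl _ h0
  have hr := r_pos x (show QQ A x < 1 by linarith)
  have hW : 0 < Wsq A M x := by
    unfold Wsq
    rw [PF_of_le h.le]
    have h1 := c₁_pos M
    have h2 : 0 < ‖x‖ ^ 2 := lt_of_lt_of_le hr (normA_le hA x)
    positivity
  have h1 := th_le_one (QQ A x)
  nlinarith [mul_pos h0 hW]

lemma KK_eq_Wsq {x : E n} (h1 : 1 / 8 ≤ QQ A x) (h2 : QQ A x ≤ 1 / 2) :
    KK A M x = Wsq A M x := by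
  rw [KK_of_mem (by linarith), th_eq_one h1 h2]
  ring

lemma Wsq_le_KK (hA : IsRot A) {x : E n} (h1 : 1 / 8 ≤ QQ A x) : Wsq A M x ≤ KK A M x := by
  rcases le_or_gt (QQ A x) (1 / 2) with h | h
  · rw [KK_eq_Wsq h1 h]
  have hW := Wsq_le_one (M := M) hA h.le
  rcases le_or_gt (3 / 4) (QQ A x) with h3 | h3
  · rw [KK_of_ge h3]
    exact hW
  · rw [KK_of_mem h3.le]
    have h4 := th_le_one (QQ A x)
    have h5 := th_nonneg (QQ A x)
    nlinarith

/-- The scalar factor of the calibrating field. -/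
noncomputable def Lam (A : E n →L[ℝ] E n) (M : ℕ) (x : E n) : ℝ :=
  QQ A x ^ (-(((M : ℝ) + 3) / 2)) * PF A x ^ ((M : ℝ) / 2)

/-- The constant of the calibrating field. -/
noncomputable def cc (M : ℕ) : ℝ := √(c₁ M) / 4

lemma cc_pos (M : ℕ) : 0 < cc M := by
  unfold cc
  have := sqrt_pos.2 (c₁_pos M)
  positivity

lemma Lam_pos (hA : IsRot A) {x : E n} (hx : 0 < QQ A x) : 0 < Lam A M x :=
  mul_pos (rpow_pos_of_pos hx _) (rpow_pos_of_pos (PF_pos hA hx) _)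

lemma Lam_sq (hA : IsRot A) {x : E n} (hx : 0 < QQ A x) :
    (cc M * Lam A M x) ^ 2 * ‖gQ A x‖ ^ 2 = Wsq A M x := by
  have h1 : (QQ A x ^ (-(((M : ℝ) + 3) / 2))) ^ 2 = (QQ A x ^ (M + 3))⁻¹ := by
    rw [← rpow_natCast (QQ A x ^ (-(((M : ℝ) + 3) / 2))) 2, ← rpow_mul hx.le,
      ← rpow_natCast (QQ A x) (M + 3), ← rpow_neg hx.le]
    congr 1
    push_cast
    ring
  have h2 : (PF A x ^ ((M : ℝ) / 2)) ^ 2 = PF A x ^ M := by
    rw [← rpow_natCast (PF A x ^ ((M : ℝ) / 2)) 2, ← rpow_mul (PF_nonneg hA x),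
      ← rpow_natCast (PF A x) M]
    congr 1
    push_cast
    ring
  have h3 : cc M ^ 2 = c₁ M / 16 := by
    rw [cc, div_pow, sq_sqrt (c₁_pos M).le]
    norm_num
  rw [norm_gQ hA, mul_pow, Lam, mul_pow, h1, h2, h3, Wsq]
  have hQ3 : QQ A x ^ (M + 3) = QQ A x ^ (M + 2) * QQ A x := pow_succ _ _
  rw [hQ3]
  field_simp

/-- The divergence of the calibrating field. -/
lemma Lam_div (hA : IsRot A) (hn : n = M + 4) {x : E n} (hx : 0 < QQ A x) :
    ∃ L : E n →L[ℝ] ℝ, HasFDerivAt (Lam A M) L x ∧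
      L (gQ A x) + Lam A M x * (4 * n * (‖x‖ ^ 2 + 1) + 8 * ‖x‖ ^ 2 - 16) =
      Lam A M x * (M / (2 * PF A x) * (16 * ‖x‖ ^ 2 * QQ A x ^ 2 * deriv hh (QQ A x) +
        8 * hh (QQ A x) * QQ A x * (‖x‖ ^ 2 + 1))) := by
  have hP := PF_pos hA hx
  have e1 : HasDerivAt (fun q => hh q * q) (deriv hh (QQ A x) * QQ A x + hh (QQ A x)) (QQ A x) := by
    have := (hasDerivAt_hh (QQ A x)).fun_mul (hasDerivAt_id' (QQ A x))
    refine this.congr_deriv ?_
    ring
  have e2 : HasFDerivAt (PF A) (((2 : ℝ) • (innerSL ℝ (A x)) ∘L A) +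
      (deriv hh (QQ A x) * QQ A x + hh (QQ A x)) • innerSL ℝ (gQ A x)) x := by
    have h := (hasF_r (A := A) x).fun_add (e1.comp_hasFDerivAt x (hasF_Q hA.skew x))
    exact h
  have e3 : HasDerivAt (fun q : ℝ => q ^ (-(((M : ℝ) + 3) / 2)))
      (-(((M : ℝ) + 3) / 2) * QQ A x ^ (-(((M : ℝ) + 3) / 2) - 1)) (QQ A x) :=
    Real.hasDerivAt_rpow_const (Or.inl hx.ne')
  have e4 : HasDerivAt (fun q : ℝ => q ^ ((M : ℝ) / 2))
      (((M : ℝ) / 2) * PF A x ^ ((M : ℝ) / 2 - 1)) (PF A x) :=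
    Real.hasDerivAt_rpow_const (Or.inl hP.ne')
  have e5 := (e3.comp_hasFDerivAt x (hasF_Q hA.skew x)).mul (e4.comp_hasFDerivAt x e2)
  refine ⟨_, e5, ?_⟩
  simp only [_root_.add_apply, _root_.smul_apply, smul_eq_mul, Function.comp_apply]
  have d1 := Dr_gQ hA x
  have d2 := DQ_gQ hA x
  simp only [_root_.smul_apply, smul_eq_mul] at d1 d2
  rw [d1, d2]
  rw [rpow_sub_one hx.ne', rpow_sub_one hP.ne', Lam]
  have hPF : ‖A x‖ ^ 2 = PF A x - hh (QQ A x) * QQ A x := by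
    unfold PF
    ring
  have hn' : (n : ℝ) = M + 4 := by exact_mod_cast hn
  rw [hPF, hn']
  generalize PF A x = P at *
  generalize QQ A x = Q at *
  generalize P ^ ((M : ℝ) / 2) = u at *
  generalize Q ^ (-(((M : ℝ) + 3) / 2)) = v at *
  field_simp
  ring

end Pool.Agent.GBC
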