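import Pool.Agent.GBC.Prof

/-!
# The area density of the spheres is nondecreasing
-/

namespace Pool.Agent.GBC

open Set Filter Topology Real
open scoped ContDiff

variable {n : ℕ}

/-- at the horizon -/
lemma horizon_eq (hn : 2 ≤ n) :
    ((n : ℝ) - 1) + n * ((n : ℝ) - 1) * prof n ((n : ℝ) - 1) +
      ((n : ℝ) - 1) ^ 2 * prof1 n ((n : ℝ) - 1) = 0 := by
  have h0 : (2 : ℝ) ≤ n := by exact_mod_cast hn
  rw [prof1_of_lt (by linarith), prof_of_lt (by linarith)]
  have h1 : (n : ℝ) - (n - 1) = 1 := by ring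
  have h2 : (3 * n - 4 : ℝ) ≠ 0 := by linarith
  have e : exp (4 - 4 * (1 : ℝ)⁻¹) = 1 := by norm_num
  have h3 : (3 * (n : ℝ) - 4)⁻¹ * (3 * (n : ℝ) - 4) = 1 := inv_mul_cancel₀ h2
  rw [h1, e]
  linear_combination (1 - (n : ℝ)) * h3

lemma slope_nonneg (hn : 4 ≤ n) {z : ℝ} (hz : (n : ℝ) - 1 ≤ z) :
    0 ≤ ((n : ℝ) - 1) + n * z * prof n z + z ^ 2 * prof1 n z := by
  have h0 : (4 : ℝ) ≤ n := by exact_mod_cast hn
  rcases lt_or_ge z n with hzn | hzn
  · rw [prof1_of_lt hzn, prof_of_lt hzn]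
    set y := ((n : ℝ) - z)⁻¹ with hy
    have hw : 0 < (n : ℝ) - z := by linarith
    have hy0 : 0 < y := inv_pos.2 hw
    have hy1 : 1 ≤ y := by
      rw [hy]
      exact (one_le_inv₀ hw).2 (by linarith)
    have hzy : z * y = n * y - 1 := by
      have : ((n : ℝ) - z) * y = 1 := mul_inv_cancel₀ hw.ne'
      linarith
    set s := y - 1 with hs
    have hs0 : 0 ≤ s := by linarith
    have hexp : 1 + 4 * s + 8 * s ^ 2 + 32 / 3 * s ^ 3 ≤ exp (4 * s) := by
      have := Real.sum_le_exp_of_nonneg (by linarith : 0 ≤ 4 * s) 4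
      simp [Finset.sum_range_succ, Nat.factorial] at this
      linarith
    have hE : exp (4 - 4 * y) = (exp (4 * s))⁻¹ := by
      rw [← exp_neg]
      congr 1
      rw [hs]
      ring
    rw [hE]
    have hzs : z ≤ n - 1 + s := by
      have h3 : z * y ≤ (n - 1 + s) * y := by
        rw [hzy, hs]
        nlinarith [sq_nonneg (y - 1)]
      exact le_of_mul_le_mul_right h3 hy0
    have h4 : 4 * z * y ^ 2 - n = 4 * n * y ^ 2 - 4 * y - n := by
      have : 4 * z * y ^ 2 = 4 * y * (z * y) := by ring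
      rw [this, hzy]
      ring
    have h5 : 0 ≤ 4 * n * y ^ 2 - 4 * y - n := by nlinarith
    have h6 : z * (4 * z * y ^ 2 - n) ≤ ((n : ℝ) - 1) * (3 * n - 4) * exp (4 * s) := by
      calc z * (4 * z * y ^ 2 - n) ≤ (n - 1 + s) * (4 * n * y ^ 2 - 4 * y - n) := by
            rw [h4]
            exact mul_le_mul_of_nonneg_right hzs h5
        _ ≤ ((n : ℝ) - 1) * (3 * n - 4) * (1 + 4 * s + 8 * s ^ 2 + 32 / 3 * s ^ 3) := by
            have e1 : ((n : ℝ) - 1) * (3 * n - 4) * (1 + 4 * s + 8 * s ^ 2 + 32 / 3 * s ^ 3) -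
                (n - 1 + s) * (4 * n * y ^ 2 - 4 * y - n) =
                s * (4 * n ^ 2 - 19 * n + 16) + s ^ 2 * (20 * n ^ 2 - 60 * n + 36) +
                s ^ 3 * (32 / 3 * (n - 1) * (3 * n - 4) - 4 * n) := by
              have : y = 1 + s := by rw [hs]; ring
              rw [this]
              ring
            have e2 : 0 ≤ (4 : ℝ) * n ^ 2 - 19 * n + 16 := by nlinarith
            have e3 : 0 ≤ (20 : ℝ) * n ^ 2 - 60 * n + 36 := by nlinarith
            have e4 : 0 ≤ 32 / 3 * ((n : ℝ) - 1) * (3 * n - 4) - 4 * n := by nlinarith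
            have e5 : 0 ≤ s * (4 * n ^ 2 - 19 * n + 16) + s ^ 2 * (20 * n ^ 2 - 60 * n + 36) +
                s ^ 3 * (32 / 3 * (n - 1) * (3 * n - 4) - 4 * n) := by positivity
            linarith
        _ ≤ _ := by
            refine mul_le_mul_of_nonneg_left hexp ?_
            nlinarith
    have h7 : (0 : ℝ) < 3 * n - 4 := by linarith
    have h8 : z * (4 * z * y ^ 2 - n) * ((3 * (n : ℝ) - 4)⁻¹ * (exp (4 * s))⁻¹) ≤ n - 1 := by
      have h9 : (0 : ℝ) < (3 * n - 4) * exp (4 * s) := mul_pos h7 (exp_pos _)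
      rw [← mul_inv, ← div_eq_mul_inv, div_le_iff₀ h9]
      linarith
    nlinarith [h8]
  · rw [prof1_of_ge (by omega) hzn, prof_of_ge hzn]
    linarith

lemma hasDerivAt_dens (n : ℕ) (z : ℝ) :
    HasDerivAt (fun z => z ^ (n + 1) * (1 + z * prof (n + 2) z))
      (z ^ n * (((n : ℝ) + 1) + (n + 2) * z * prof (n + 2) z + z ^ 2 * prof1 (n + 2) z)) z := by
  have h := (hasDerivAt_pow (n + 1) z).fun_mul
    (((hasDerivAt_id' z).fun_mul (hasDerivAt_prof (n + 2) z)).const_add 1)
  refine h.congr_deriv ?_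
  push_cast
  ring

/-- `z^{n-1} (1 + z C(z))`, the square of the area density, is nondecreasing. -/
lemma dens_mono (hn : 4 ≤ n + 2) :
    MonotoneOn (fun z => z ^ (n + 1) * (1 + z * prof (n + 2) z)) (Ici ((n : ℝ) + 1)) := by
  refine monotoneOn_of_deriv_nonneg (convex_Ici _) ?_ ?_ ?_
  · exact fun z _ => (hasDerivAt_dens n z).continuousAt.continuousWithinAt
  · exact fun z _ => (hasDerivAt_dens n z).differentiableAt.differentiableWithinAt
  · intro z hz
    rw [interior_Ici, mem_Ioi] at hz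
    rw [(hasDerivAt_dens n z).deriv]
    have h0 : (0 : ℝ) ≤ n := Nat.cast_nonneg n
    have hz0 : 0 ≤ z := by linarith
    refine mul_nonneg (pow_nonneg hz0 _) ?_
    have h := slope_nonneg (n := n + 2) hn (z := z) (by push_cast; linarith)
    push_cast at h
    linarith

end Pool.Agent.GBC
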