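import Pool.Agent.GBC.Lower
import Pool.Agent.GBC.Mono

/-!
# Mean curvature of the round spheres
-/

namespace Pool.Agent.GBC

open MeasureTheory Metric Set Filter Topology Real
open scoped ContDiff

variable {n : ℕ} {J : E n →L[ℝ] E n} {C : ℝ → ℝ}

lemma pd_norm_sq (j : Fin n) (y : E n) : pd j (fun y : E n => ‖y‖ ^ 2) y = 2 * y j := by
  have h := hasF_sq (fun z => z) 1 y (hasDerivAt_id' _)
  rw [pd_of h j]
  simp [innerSL_apply_apply, inner_ev]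

lemma inv_gJ_grad (hJ : IsCx J) (hC0 : ∀ z, 0 ≤ C z) (y : E n) (i : Fin n) :
    ∑ j, (gJ J C y)⁻¹ i j * (2 * y j) = 2 * y i := by
  have hK := (K_pos hC0 y).ne'
  have h1 : ∀ j, (gJ J C y)⁻¹ i j * (2 * y j) =
      (1 : Matrix (Fin n) (Fin n) ℝ) i j * (2 * y j) -
      2 * (C (‖y‖ ^ 2) / (1 + ‖y‖ ^ 2 * C (‖y‖ ^ 2))) * (J y) i * ((J y) j * y j) := by
    intro j
    rw [inv_gJ hJ C y hK]
    ring
  simp only [h1, Finset.sum_sub_distrib, ← Finset.mul_sum, sum_mul_eq_inner, inner_J_self hJ]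
  simp [Matrix.one_apply]

lemma inv_gJ_grad2 (hJ : IsCx J) (hC0 : ∀ z, 0 ≤ C z) (y : E n) :
    ∑ j, ∑ k, (gJ J C y)⁻¹ j k * (2 * y j) * (2 * y k) = (2 * ‖y‖) ^ 2 := by
  have h1 : ∀ j, ∑ k, (gJ J C y)⁻¹ j k * (2 * y j) * (2 * y k) = (2 * y j) * (2 * y j) := by
    intro j
    rw [← inv_gJ_grad hJ hC0 y j, Finset.mul_sum]
    refine Finset.sum_congr rfl fun k _ => ?_
    rw [inv_gJ_grad hJ hC0 y j]
    ring
  simp only [h1]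
  have h2 : ∀ j, (2 * y j) * (2 * y j) = 4 * (y j * y j) := fun j => by ring
  simp only [h2, ← Finset.mul_sum, sum_mul_eq_inner, real_inner_self_eq_norm_sq]
  ring

lemma meanCurv_gJ (hJ : IsCx J) (hC0 : ∀ z, 0 ≤ C z) {C1 : ℝ → ℝ}
    (hC1 : ∀ z, HasDerivAt C (C1 z) z) (x : E n) (hx : x ≠ 0) :
    meanCurv (gJ J C) (fun y => ‖y‖ ^ 2) x =
      (dens (gJ J C) x)⁻¹ * ((((n : ℝ) - 1) + n * ‖x‖ ^ 2 * C (‖x‖ ^ 2) +
        (‖x‖ ^ 2) ^ 2 * C1 (‖x‖ ^ 2)) / (√(1 + ‖x‖ ^ 2 * C (‖x‖ ^ 2)) * √(‖x‖ ^ 2))) := by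
  unfold meanCurv
  congr 1
  have h1 : ∀ i, (fun y : E n => dens (gJ J C) y * ((∑ j, (gJ J C y)⁻¹ i j *
      pd j (fun y => ‖y‖ ^ 2) y) /
      √(∑ j, ∑ k, (gJ J C y)⁻¹ j k * pd j (fun y => ‖y‖ ^ 2) y * pd k (fun y => ‖y‖ ^ 2) y))) =
      fun y => (fun z => √(1 + z * C z) / √z) (‖y‖ ^ 2) * y i := by
    intro i
    funext y
    simp only [pd_norm_sq]
    rw [inv_gJ_grad hJ hC0, inv_gJ_grad2 hJ hC0, dens_gJ hJ, sqrt_sq (by positivity),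
      sqrt_sq (norm_nonneg y)]
    rw [mul_div_mul_left _ _ (two_ne_zero)]
    ring
  simp only [h1]
  have hz : 0 < ‖x‖ ^ 2 := by
    have := norm_pos_iff.2 hx
    positivity
  have hK := K_pos hC0 x
  have h2 : HasDerivAt (fun z => √(1 + z * C z) / √z)
      ((((C (‖x‖ ^ 2) + ‖x‖ ^ 2 * C1 (‖x‖ ^ 2)) / (2 * √(1 + ‖x‖ ^ 2 * C (‖x‖ ^ 2)))) *
        √(‖x‖ ^ 2) - √(1 + ‖x‖ ^ 2 * C (‖x‖ ^ 2)) * (1 / (2 * √(‖x‖ ^ 2)))) / √(‖x‖ ^ 2) ^ 2)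
      (‖x‖ ^ 2) := by
    have e1 : HasDerivAt (fun z => 1 + z * C z) (C (‖x‖ ^ 2) + ‖x‖ ^ 2 * C1 (‖x‖ ^ 2))
        (‖x‖ ^ 2) := by
      have := ((hasDerivAt_id' (‖x‖ ^ 2)).fun_mul (hC1 (‖x‖ ^ 2))).const_add 1
      refine this.congr_deriv ?_
      ring
    exact (e1.sqrt hK.ne').fun_div (hasDerivAt_sqrt hz.ne') (sqrt_pos.2 hz).ne'
  have h3 : ∀ i : Fin n, pd i (fun y : E n => (fun z => √(1 + z * C z) / √z) (‖y‖ ^ 2) * y i) x =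
      2 * ((((C (‖x‖ ^ 2) + ‖x‖ ^ 2 * C1 (‖x‖ ^ 2)) / (2 * √(1 + ‖x‖ ^ 2 * C (‖x‖ ^ 2)))) *
        √(‖x‖ ^ 2) - √(1 + ‖x‖ ^ 2 * C (‖x‖ ^ 2)) * (1 / (2 * √(‖x‖ ^ 2)))) /
        √(‖x‖ ^ 2) ^ 2) * (x i * x i) +
      √(1 + ‖x‖ ^ 2 * C (‖x‖ ^ 2)) / √(‖x‖ ^ 2) := by
    intro i
    have h := (hasF_sq _ _ x h2).fun_mul (hasF_coord i x)
    rw [pd_of h i]
    simp [innerSL_apply_apply, inner_ev]
    ring
  simp only [h3]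
  rw [Finset.sum_add_distrib, ← Finset.mul_sum, sum_mul_eq_inner, real_inner_self_eq_norm_sq]
  simp only [Finset.sum_const, Finset.card_univ, Fintype.card_fin, nsmul_eq_mul]
  set z := ‖x‖ ^ 2 with hzd
  have hs1 : √(1 + z * C z) ^ 2 = 1 + z * C z := sq_sqrt hK.le
  have hs2 : √z ^ 2 = z := sq_sqrt hz.le
  have hp1 : 0 < √(1 + z * C z) := sqrt_pos.2 hK
  have hp2 : 0 < √z := sqrt_pos.2 hz
  generalize √(1 + z * C z) = a at *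
  rw [hs2]
  generalize √z = b at *
  have hz' : z ≠ 0 := hz.ne'
  field_simp
  linear_combination (C z + z * C1 z) * hs2 + ((n : ℝ) - 1) * hs1

end Pool.Agent.GBC
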