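import Pool.Agent.GBC.Sums
import Pool.Agent.GBC.Horizon
import Pool.Agent.GBC.Cx

/-!
# The counterexample
-/

namespace Pool.Agent.GBC

open MeasureTheory Metric Set Filter Topology Real
open scoped ContDiff

section general

variable {n : ℕ} {J : E n →L[ℝ] E n} {C : ℝ → ℝ}

lemma isMetric_gJ (hC : ContDiff ℝ ∞ C) (hC0 : ∀ z, 0 ≤ C z) : IsMetric (gJ J C) := by
  refine ⟨fun i j => ?_, fun x => posDef_gJ x (hC0 _)⟩
  have h1 : ContDiff ℝ ∞ fun x : E n => C (‖x‖ ^ 2) := hC.comp (contDiff_norm_sq ℝ)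
  have h2 : ∀ i, ContDiff ℝ ∞ fun x : E n => (J x) i := fun i => by
    exact ((EuclideanSpace.proj i : E n →L[ℝ] ℝ) ∘L J).contDiff
  exact contDiff_const.add (h1.mul ((h2 i).mul (h2 j)))

lemma gJ_eq_one (hCz : ∀ z, (n : ℝ) ≤ z → C z = 0) {x : E n} (hx : (n : ℝ) ≤ ‖x‖ ^ 2) :
    gJ J C x = 1 := by
  ext i j
  rw [gJ_apply, hCz _ hx, zero_mul, add_zero]

lemma pd_gJ_eq_zero {C1 : ℝ → ℝ} (hC1 : ∀ z, HasDerivAt C (C1 z) z)
    (hCz : ∀ z, (n : ℝ) ≤ z → C z = 0) (hC1z : ∀ z, (n : ℝ) ≤ z → C1 z = 0)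
    {x : E n} (hx : (n : ℝ) ≤ ‖x‖ ^ 2) (p i j : Fin n) :
    pd p (fun y => gJ J C y i j) x = 0 := by
  rw [pd_gJ x (hC1 _), hCz _ hx, hC1z _ hx]
  ring

lemma isAF_gJ {C1 : ℝ → ℝ} (hC1 : ∀ z, HasDerivAt C (C1 z) z)
    (hCz : ∀ z, (n : ℝ) ≤ z → C z = 0) (hC1z : ∀ z, (n : ℝ) ≤ z → C1 z = 0) (τ : ℝ) :
    IsAF (gJ J C) τ := by
  refine ⟨n + 1, 0, by positivity, fun x hx i j => ?_⟩
  have hn0 : (0 : ℝ) ≤ n := Nat.cast_nonneg n
  have hx2 : (n : ℝ) < ‖x‖ ^ 2 := by nlinarith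
  have h1 : ∀ k, (pd k fun y => gJ J C y i j) =ᶠ[𝓝 x] fun _ => 0 := by
    intro k
    have : {y : E n | (n : ℝ) < ‖y‖ ^ 2} ∈ 𝓝 x :=
      (isOpen_lt continuous_const (by fun_prop)).mem_nhds hx2
    filter_upwards [this] with y hy
    exact pd_gJ_eq_zero hC1 hCz hC1z (le_of_lt hy) k i j
  refine ⟨?_, fun k => ?_, fun k l => ?_⟩
  · rw [gJ_eq_one hCz hx2.le]
    simp
  · rw [pd_gJ_eq_zero hC1 hCz hC1z hx2.le]
    simp
  · have : pd l (pd k fun y => gJ J C y i j) x = 0 := by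
      unfold pd at h1 ⊢
      rw [(h1 k).fderiv_eq]
      simp
    rw [this]
    simp

lemma massIntegral_gJ {C1 : ℝ → ℝ} (hC1 : ∀ z, HasDerivAt C (C1 z) z)
    (hCz : ∀ z, (n : ℝ) ≤ z → C z = 0) (hC1z : ∀ z, (n : ℝ) ≤ z → C1 z = 0)
    {r : ℝ} (hr : (n : ℝ) + 1 ≤ r) : massIntegral (gJ J C) r = 0 := by
  have hn0 : (0 : ℝ) ≤ n := Nat.cast_nonneg n
  have h1 : ∀ θ : sphere (0 : E n) 1, ∑ i, ∑ j, ∑ k, ∑ l,
      tensorP (gJ J C) (r • (θ : E n)) i j k l *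
        pd l (fun y => gJ J C y j k) (r • (θ : E n)) * (θ : E n) i = 0 := by
    intro θ
    have h2 : (n : ℝ) ≤ ‖r • (θ : E n)‖ ^ 2 := by
      rw [norm_smul, norm_eq_of_mem_sphere θ, mul_one, Real.norm_eq_abs, sq_abs]
      nlinarith
    simp only [pd_gJ_eq_zero hC1 hCz hC1z h2, mul_zero, zero_mul, Finset.sum_const_zero]
  unfold massIntegral
  simp only [h1, integral_zero, mul_zero]

lemma isGBCMass_gJ {C1 : ℝ → ℝ} (hC1 : ∀ z, HasDerivAt C (C1 z) z)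
    (hCz : ∀ z, (n : ℝ) ≤ z → C z = 0) (hC1z : ∀ z, (n : ℝ) ≤ z → C1 z = 0) :
    IsGBCMass (gJ J C) 0 := by
  refine tendsto_const_nhds.congr' ?_
  filter_upwards [eventually_ge_atTop ((n : ℝ) + 1)] with r hr
  rw [massIntegral_gJ hC1 hCz hC1z hr]

end general

variable {N : ℕ} {J : E (N + 2) →L[ℝ] E (N + 2)}

lemma gaussBonnet_nonneg (hJ : IsCx J) (hN : 2 ≤ N) {x : E (N + 2)}
    (hx : (N : ℝ) + 1 ≤ ‖x‖ ^ 2) : 0 ≤ gaussBonnet (gJ J (prof (N + 2))) x := by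
  have hN2 : (2 : ℝ) ≤ N := by exact_mod_cast hN
  have hx0 : x ≠ 0 := by
    rintro rfl
    rw [norm_zero] at hx
    linarith
  rw [gaussBonnet_gJ hJ (hasDerivAt_prof (N + 2)) (hasDerivAt_prof1 (N + 2))
    (fun z hz => (prof_one_add_pos (by omega) hz).ne') hx0]
  set z := ‖x‖ ^ 2 with hz
  have hK := prof_one_add_pos (n := N + 2) (by omega) (by linarith : 0 ≤ z)
  refine mul_nonneg (div_nonneg (by positivity) hK.le) ?_
  rcases lt_or_ge z ((N + 2 : ℕ) : ℝ) with h | h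
  · rw [prof1_of_lt h, prof2_of_lt h]
    refine bracket_nonneg (prof_nonneg (by omega) z) hN2 ?_ hx
    have hw : 0 < ((N + 2 : ℕ) : ℝ) - z := by linarith
    refine (one_le_inv₀ hw).2 ?_
    push_cast
    linarith
  · rw [prof_of_ge h, prof1_of_ge (by omega) h, prof2_of_ge (by omega) h]
    simp

lemma gaussBonnet_integrable (hJ : IsCx J) {r₀ : ℝ} (hr : 0 < r₀) :
    IntegrableOn (fun x => gaussBonnet (gJ J (prof (N + 2))) x * dens (gJ J (prof (N + 2))) x)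
      {x | r₀ ≤ ‖x‖} := by
  have hKp : ∀ x : E (N + 2), 0 < 1 + ‖x‖ ^ 2 * prof (N + 2) (‖x‖ ^ 2) := fun x =>
    prof_one_add_pos (by omega) (sq_nonneg _)
  let Φ : E (N + 2) → ℝ := fun x => (12 * N / (1 + ‖x‖ ^ 2 * prof (N + 2) (‖x‖ ^ 2)) *
      (2 * (‖x‖ ^ 2 * prof (N + 2) (‖x‖ ^ 2)) *
        (2 * prof1 (N + 2) (‖x‖ ^ 2) + ‖x‖ ^ 2 * prof2 (N + 2) (‖x‖ ^ 2)) +
      (N + 1) * prof (N + 2) (‖x‖ ^ 2) *
        (prof (N + 2) (‖x‖ ^ 2) + ‖x‖ ^ 2 * prof1 (N + 2) (‖x‖ ^ 2)) +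
      (prof (N + 2) (‖x‖ ^ 2) + ‖x‖ ^ 2 * prof1 (N + 2) (‖x‖ ^ 2)) ^ 2 *
        (2 + ‖x‖ ^ 2 * prof (N + 2) (‖x‖ ^ 2)) /
        (1 + ‖x‖ ^ 2 * prof (N + 2) (‖x‖ ^ 2)) +
      (N - 2) * (1 + ‖x‖ ^ 2 * prof (N + 2) (‖x‖ ^ 2)) * prof (N + 2) (‖x‖ ^ 2) ^ 2 / 4)) *
      √(1 + ‖x‖ ^ 2 * prof (N + 2) (‖x‖ ^ 2))
  have hn2 : Continuous fun x : E (N + 2) => ‖x‖ ^ 2 := by fun_prop
  have c0 : Continuous fun x : E (N + 2) => prof (N + 2) (‖x‖ ^ 2) :=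
    (prof_contDiff _).continuous.comp hn2
  have c1 : Continuous fun x : E (N + 2) => prof1 (N + 2) (‖x‖ ^ 2) :=
    (prof1_contDiff _).continuous.comp hn2
  have c2 : Continuous fun x : E (N + 2) => prof2 (N + 2) (‖x‖ ^ 2) :=
    (prof2_contDiff _).continuous.comp hn2
  have cK : Continuous fun x : E (N + 2) => 1 + ‖x‖ ^ 2 * prof (N + 2) (‖x‖ ^ 2) :=
    continuous_const.add (hn2.mul c0)
  have hΦc : Continuous Φ := by
    refine Continuous.mul (Continuous.mul (continuous_const.div cK fun x => (hKp x).ne') ?_)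
      (continuous_sqrt.comp cK)
    refine Continuous.add (Continuous.add (Continuous.add ?_ ?_) ?_) ?_
    · exact (continuous_const.mul (hn2.mul c0)).mul ((continuous_const.mul c1).add (hn2.mul c2))
    · exact (continuous_const.mul c0).mul (c0.add (hn2.mul c1))
    · exact (((c0.add (hn2.mul c1)).pow 2).mul (continuous_const.add (hn2.mul c0))).div cK
        fun x => (hKp x).ne'
    · exact ((continuous_const.mul cK).mul (c0.pow 2)).div_const 4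
  have hΦs : HasCompactSupport Φ := by
    refine HasCompactSupport.intro (isCompact_closedBall (0 : E (N + 2)) (N + 3)) fun x hx => ?_
    rw [mem_closedBall_zero_iff, not_le] at hx
    have hN0 : (0 : ℝ) ≤ N := Nat.cast_nonneg N
    have h : ((N + 2 : ℕ) : ℝ) ≤ ‖x‖ ^ 2 := by
      push_cast
      nlinarith
    simp only [Φ, prof_of_ge h, prof1_of_ge (by omega) h, prof2_of_ge (by omega) h]
    simp
  have hΦ : Integrable Φ := hΦc.integrable_of_hasCompactSupport hΦs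
  refine (hΦ.integrableOn).congr_fun (fun x hx => ?_) ?_
  · have hx' : r₀ ≤ ‖x‖ := hx
    have hx0 : x ≠ 0 := by
      rintro rfl
      rw [norm_zero] at hx'
      linarith
    simp only [Φ]
    rw [gaussBonnet_gJ hJ (hasDerivAt_prof (N + 2)) (hasDerivAt_prof1 (N + 2))
      (fun z hz => (prof_one_add_pos (by omega) hz).ne') hx0, dens_gJ hJ]
  · exact measurableSet_le measurable_const measurable_norm

/-- **The counterexample** to the area Penrose inequality for the Gauss-Bonnet-Chern mass. -/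
theorem counterexample (n : ℕ) (hn : Even n) (h6 : 6 ≤ n) :
    ∃ (g : MetricField n) (r₀ : ℝ), 0 < r₀ ∧ IsMetric g ∧
      (∃ R : ℝ, ∀ x, R ≤ ‖x‖ → g x = 1) ∧
      (∀ τ, IsAF g τ) ∧
      (∀ x, r₀ ≤ ‖x‖ → 0 ≤ gaussBonnet g x) ∧
      IntegrableOn (fun x => gaussBonnet g x * dens g x) {x | r₀ ≤ ‖x‖} ∧
      IsOuterMinimizingHorizon g r₀ ∧
      IsGBCMass g 0 ∧
      area g (ball 0 r₀) ≠ ⊤ ∧
      0 < 1 / 4 * ((area g (ball 0 r₀)).toReal / omega n) ^ (((n : ℝ) - 4) / ((n : ℝ) - 1)) := by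
  obtain ⟨J, hJ⟩ := exists_cx hn
  obtain ⟨N, rfl⟩ : ∃ N, n = N + 2 := ⟨n - 2, by omega⟩
  have hN : 4 ≤ N := by omega
  have hN0 : (4 : ℝ) ≤ N := by exact_mod_cast hN
  have hC := prof_contDiff (N + 2)
  have hC0 : ∀ z, 0 ≤ prof (N + 2) z := prof_nonneg (by omega)
  have hC1 := hasDerivAt_prof (N + 2)
  have hCz : ∀ z, ((N + 2 : ℕ) : ℝ) ≤ z → prof (N + 2) z = 0 := fun z hz => prof_of_ge hz
  have hC1z : ∀ z, ((N + 2 : ℕ) : ℝ) ≤ z → prof1 (N + 2) z = 0 :=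
    fun z hz => prof1_of_ge (by omega) hz
  have hz0 : (0 : ℝ) < (N : ℝ) + 1 := by linarith
  have hr : 0 < √((N : ℝ) + 1) := sqrt_pos.2 hz0
  have hr2 : √((N : ℝ) + 1) ^ 2 = (N : ℝ) + 1 := sq_sqrt hz0.le
  have hF : ∀ z, FF (N + 2) (prof (N + 2)) z = z ^ (N + 1) * (1 + z * prof (N + 2) z) :=
    fun z => rfl
  have hmono : ∀ z, √((N : ℝ) + 1) ^ 2 ≤ z →
      FF (N + 2) (prof (N + 2)) (√((N : ℝ) + 1) ^ 2) ≤ FF (N + 2) (prof (N + 2)) z := by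
    intro z hz
    rw [hr2] at hz ⊢
    rw [hF, hF]
    exact dens_mono (n := N) (by omega) (mem_Ici.2 le_rfl) (mem_Ici.2 hz) hz
  have hA := area_ball hJ (by omega) hC hC0 hr hmono
  have hω := omega_pos (n := N + 2) (by omega)
  have hFp : 0 < FF (N + 2) (prof (N + 2)) (√((N : ℝ) + 1) ^ 2) := by
    rw [hr2, hF]
    have := prof_one_add_pos (n := N + 2) (by omega) hz0.le
    positivity
  refine ⟨gJ J (prof (N + 2)), √((N : ℝ) + 1), hr, isMetric_gJ hC hC0, ⟨N + 3, fun x hx => ?_⟩,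
    isAF_gJ hC1 hCz hC1z, fun x hx => ?_, gaussBonnet_integrable hJ hr, ⟨fun x hx => ?_, ?_⟩,
    isGBCMass_gJ hC1 hCz hC1z, ?_, ?_⟩
  · refine gJ_eq_one hCz ?_
    push_cast
    nlinarith
  · refine gaussBonnet_nonneg hJ (by omega) ?_
    rw [← hr2]
    exact pow_le_pow_left₀ hr.le hx 2
  · have hx0 : x ≠ 0 := by
      rintro rfl
      rw [norm_zero] at hx
      linarith
    rw [meanCurv_gJ hJ hC0 hC1 x hx0, hx, hr2]
    have h := horizon_eq (n := N + 2) (by omega)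
    have e1 : ((N + 2 : ℕ) : ℝ) - 1 = (N : ℝ) + 1 := by
      push_cast
      ring
    rw [e1] at h ⊢
    rw [h, zero_div, mul_zero]
  · intro Ω hb hm hΩ
    rw [hA]
    exact le_area hJ (by omega) hC hC0 hr hmono hb hm hΩ
  · rw [hA]
    exact ENNReal.ofReal_ne_top
  · rw [hA, ENNReal.toReal_ofReal (by positivity)]
    have : 0 < √(FF (N + 2) (prof (N + 2)) (√((N : ℝ) + 1) ^ 2)) * omega (N + 2) / omega (N + 2) :=
      div_pos (mul_pos (sqrt_pos.2 hFp) hω) hω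
    have h2 := rpow_pos_of_pos this ((((N + 2 : ℕ) : ℝ) - 4) / (((N + 2 : ℕ) : ℝ) - 1))
    linarith

end Pool.Agent.GBC
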