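import Pool.Agent.GBC.Chris

/-!
# The curvature tensor through Christoffel symbols of the first kind
-/

namespace Pool.Agent.GBC

open MeasureTheory Metric Set Filter Topology Real
open scoped ContDiff

variable {n : ℕ}

/-- Christoffel symbols of the first kind. -/
noncomputable def gamL (g : MetricField n) (k i j : Fin n) (x : E n) : ℝ :=
  1 / 2 * (pd i (fun y => g y j k) x + pd j (fun y => g y i k) x - pd k (fun y => g y i j) x)

lemma christoffel_eq (g : MetricField n) (k i j : Fin n) (x : E n) :
    christoffel g k i j x = ∑ l, (g x)⁻¹ k l * gamL g l i j x := by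
  unfold christoffel gamL
  rw [Finset.mul_sum]
  refine Finset.sum_congr rfl fun l _ => ?_
  ring

lemma lower_christoffel (g : MetricField n) (x : E n) (hinv : g x * (g x)⁻¹ = 1)
    (k i j : Fin n) : ∑ m, g x k m * christoffel g m i j x = gamL g k i j x := by
  simp only [christoffel_eq, Finset.mul_sum]
  rw [Finset.sum_comm]
  have h1 : ∀ l, ∑ m, g x k m * ((g x)⁻¹ m l * gamL g l i j x) =
      (1 : Matrix (Fin n) (Fin n) ℝ) k l * gamL g l i j x := by
    intro l
    rw [← hinv, Matrix.mul_apply, Finset.sum_mul]
    refine Finset.sum_congr rfl fun m _ => ?_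
    ring
  simp only [h1, Matrix.one_apply, ite_mul, one_mul, zero_mul, Finset.sum_ite_eq,
    Finset.mem_univ, if_true]

lemma pd_metric (g : MetricField n) (hs : ∀ y i j, g y i j = g y j i) (x : E n)
    (i k m : Fin n) : pd i (fun y => g y k m) x = gamL g k i m x + gamL g m i k x := by
  unfold gamL
  have h1 : (fun y => g y m k) = fun y => g y k m := by
    funext y
    exact hs y m k
  rw [h1]
  ring

lemma pd_sum {f : Fin n → E n → ℝ} {x : E n} (h : ∀ m, DifferentiableAt ℝ (f m) x) (i : Fin n) :
    pd i (fun y => ∑ m, f m y) x = ∑ m, pd i (f m) x := by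
  unfold pd
  rw [fderiv_fun_sum fun m _ => h m]
  simp

lemma pd_mul {f g : E n → ℝ} {x : E n} (hf : DifferentiableAt ℝ f x)
    (hg : DifferentiableAt ℝ g x) (i : Fin n) :
    pd i (fun y => f y * g y) x = pd i f x * g x + f x * pd i g x := by
  unfold pd
  rw [fderiv_fun_mul hf hg]
  simp
  ring

theorem riem_gen (g : MetricField n) (hs : ∀ y i j, g y i j = g y j i)
    (hinv : ∀ y, g y * (g y)⁻¹ = 1) (x : E n)
    (hg : ∀ i j, DifferentiableAt ℝ (fun y => g y i j) x)
    (hd : ∀ m j l, DifferentiableAt ℝ (christoffel g m j l) x) (i j k l : Fin n) :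
    riem g x i j k l = pd i (gamL g k j l) x - pd j (gamL g k i l) x -
      ∑ m, (gamL g m i k x * christoffel g m j l x - gamL g m j k x * christoffel g m i l x) := by
  have h1 : ∀ a b, pd a (gamL g k b l) x = ∑ m, (pd a (fun y => g y k m) x *
      christoffel g m b l x + g x k m * pd a (christoffel g m b l) x) := by
    intro a b
    have e : gamL g k b l = fun y => ∑ m, g y k m * christoffel g m b l y := by
      funext y
      exact (lower_christoffel g y (hinv y) k b l).symm
    rw [e, pd_sum fun m => (hg k m).fun_mul (hd m b l)]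
    refine Finset.sum_congr rfl fun m _ => ?_
    rw [pd_mul (hg k m) (hd m b l)]
  have h2 : ∀ a b, ∑ m, g x k m * ∑ p, christoffel g m a p x * christoffel g p b l x =
      ∑ m, gamL g k a m x * christoffel g m b l x := by
    intro a b
    simp only [Finset.mul_sum]
    rw [Finset.sum_comm]
    refine Finset.sum_congr rfl fun p _ => ?_
    rw [← lower_christoffel g x (hinv x) k a p, Finset.sum_mul]
    refine Finset.sum_congr rfl fun m _ => ?_
    ring
  unfold riem
  rw [h1, h1]
  simp only [pd_metric g hs]
  have h3 : ∀ m, g x k m * (pd i (christoffel g m j l) x - pd j (christoffel g m i l) x +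
      ∑ p, (christoffel g m i p x * christoffel g p j l x -
        christoffel g m j p x * christoffel g p i l x)) =
      g x k m * pd i (christoffel g m j l) x - g x k m * pd j (christoffel g m i l) x +
      (g x k m * ∑ p, christoffel g m i p x * christoffel g p j l x -
      g x k m * ∑ p, christoffel g m j p x * christoffel g p i l x) := by
    intro m
    rw [Finset.sum_sub_distrib]
    ring
  rw [Finset.sum_congr rfl fun m _ => h3 m, Finset.sum_add_distrib, Finset.sum_sub_distrib,
    Finset.sum_sub_distrib, h2, h2]
  simp only [Finset.sum_add_distrib, Finset.sum_sub_distrib, add_mul]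
  ring

end Pool.Agent.GBC
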