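import Pool.Agent.GBC.Upper

/-!
# The perimeter of sets containing a round ball: lower bound
-/

namespace Pool.Agent.GBC

open MeasureTheory Metric Set Filter Topology Real
open scoped ContDiff

variable {n : ℕ} {J : E n →L[ℝ] E n} {C : ℝ → ℝ}

/-- The radial profile of the calibrating field. -/
noncomputable def uu (n : ℕ) (k z₀ R₁ z : ℝ) : ℝ :=
  chi k z₀ z * z ^ (-((n : ℝ) / 2)) * (1 - smoothTransition (z - R₁))

lemma uu_of_le {k z₀ R₁ z : ℝ} (hk : 0 < k) (hz : z ≤ z₀ - 1 / k) : uu n k z₀ R₁ z = 0 := by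
  rw [uu, chi_of_le hk hz, zero_mul, zero_mul]

lemma uu_contDiff {k z₀ R₁ : ℝ} (hk : 0 < k) (hkz : 1 / k < z₀) :
    ContDiff ℝ ∞ (uu n k z₀ R₁) := by
  rw [contDiff_iff_contDiffAt]
  intro z
  rcases lt_or_ge 0 z with hz | hz
  · unfold uu
    refine ((chi_contDiff k z₀).contDiffAt.mul ?_).mul ?_
    · exact Real.contDiffAt_rpow_const_of_ne hz.ne'
    · refine ContDiff.contDiffAt (contDiff_const.sub (smoothTransition.contDiff.comp ?_))
      fun_prop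
  · refine (contDiffAt_const (c := (0 : ℝ))).congr_of_eventuallyEq ?_
    filter_upwards [Iio_mem_nhds (show z < z₀ - 1 / k by linarith)] with w hw
    exact uu_of_le hk (le_of_lt hw)

lemma hasDerivAt_uu {k z₀ R₁ z : ℝ} (hz : 0 < z) (hzR : z < R₁) :
    HasDerivAt (uu n k z₀ R₁) (chi' k z₀ z * z ^ (-((n : ℝ) / 2)) +
      chi k z₀ z * (-((n : ℝ) / 2) * z ^ (-((n : ℝ) / 2) - 1))) z := by
  have h1 := (hasDerivAt_chi k z₀ z).fun_mul
    (Real.hasDerivAt_rpow_const (x := z) (p := -((n : ℝ) / 2)) (Or.inl hz.ne'))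
  refine h1.congr_of_eventuallyEq ?_
  filter_upwards [Iio_mem_nhds hzR] with w hw
  rw [uu, smoothTransition.zero_of_nonpos (by
    have : w < R₁ := hw
    linarith), sub_zero, mul_one]

lemma div_uu {k z₀ R₁ z : ℝ} (hk : 0 < k) (hkz : 1 / k < z₀) (hz : 0 ≤ z) (hzR : z < R₁) :
    2 * z * deriv (uu n k z₀ R₁) z + n * uu n k z₀ R₁ z =
      2 * chi' k z₀ z * z ^ (1 - (n : ℝ) / 2) := by
  rcases hz.eq_or_lt with rfl | hz0
  · rw [uu_of_le hk (by linarith), chi'_of_le hk (by linarith)]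
    ring
  · rw [(hasDerivAt_uu hz0 hzR).deriv]
    rw [uu, smoothTransition.zero_of_nonpos (by linarith), sub_zero, mul_one]
    have e1 : z ^ (-((n : ℝ) / 2) - 1) * z = z ^ (-((n : ℝ) / 2)) := by
      rw [rpow_sub_one hz0.ne', div_mul_cancel₀ _ hz0.ne']
    have e2 : z ^ (1 - (n : ℝ) / 2) = z ^ (-((n : ℝ) / 2)) * z := by
      rw [← rpow_add_one hz0.ne']
      congr 1
      ring
    rw [e2]
    linear_combination (-(n : ℝ) * chi k z₀ z) * e1

/-- The calibrating field. -/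
noncomputable def calib (n : ℕ) (C : ℝ → ℝ) (k z₀ R₁ s : ℝ) (x : E n) : E n :=
  (s * uu n k z₀ R₁ (‖x‖ ^ 2) / √(1 + ‖x‖ ^ 2 * C (‖x‖ ^ 2))) • x

lemma calib_smooth (hC : ContDiff ℝ ∞ C) (hC0 : ∀ z, 0 ≤ C z) {k z₀ R₁ s : ℝ} (hk : 0 < k)
    (hkz : 1 / k < z₀) : ContDiff ℝ ∞ (calib n C k z₀ R₁ s) := by
  unfold calib
  have h3 : ContDiff ℝ ∞ fun x : E n => x := contDiff_id
  have h1 : ContDiff ℝ ∞ fun x : E n => s * uu n k z₀ R₁ (‖x‖ ^ 2) :=
    contDiff_const.mul ((uu_contDiff hk hkz).comp (contDiff_norm_sq ℝ))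
  have h2 : ContDiff ℝ ∞ fun x : E n => √(1 + ‖x‖ ^ 2 * C (‖x‖ ^ 2)) :=
    (contDiff_K hC).sqrt fun x => (K_pos hC0 x).ne'
  exact (h1.div h2 fun x => (sqrt_pos.2 (K_pos hC0 x)).ne').smul h3

lemma calib_compact {k z₀ R₁ s : ℝ} (hR : 0 ≤ R₁) :
    HasCompactSupport (calib n C k z₀ R₁ s) := by
  refine HasCompactSupport.intro (isCompact_closedBall (0 : E n) (R₁ + 1)) fun x hx => ?_
  rw [mem_closedBall_zero_iff, not_le] at hx
  have : R₁ + 1 ≤ ‖x‖ ^ 2 := by nlinarith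
  rw [calib, uu, smoothTransition.one_of_one_le (by linarith)]
  simp

lemma calib_test (hJ : IsCx J) (hn : 1 ≤ n) (hC : ContDiff ℝ ∞ C) (hC0 : ∀ z, 0 ≤ C z)
    {k z₀ R₁ s : ℝ} (hk : 0 < k) (hkz : 1 / k < z₀) (hR : 0 ≤ R₁)
    (hs : ∀ z, z₀ - 1 / k < z → s ^ 2 ≤ FF n C z) :
    IsTestField (gJ J C) (calib n C k z₀ R₁ s) := by
  refine ⟨calib_smooth hC hC0 hk hkz, calib_compact hR, fun x => ?_⟩
  rw [quad_gJ]
  have h1 : inner ℝ (J x) (calib n C k z₀ R₁ s x) = 0 := by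
    rw [calib, inner_smul_right, inner_J_self hJ, mul_zero]
  rw [h1, calib, norm_smul, mul_pow, Real.norm_eq_abs, sq_abs]
  have hK := K_pos hC0 x
  rcases le_or_gt (‖x‖ ^ 2) (z₀ - 1 / k) with hx | hx
  · rw [uu_of_le hk hx]
    simp
  · have hz : 0 < ‖x‖ ^ 2 := by linarith
    have h2 := hs _ hx
    set z := ‖x‖ ^ 2 with hzd
    have h3 : uu n k z₀ R₁ z ^ 2 ≤ (z ^ n)⁻¹ := by
      have e1 : uu n k z₀ R₁ z = (chi k z₀ z * (1 - smoothTransition (z - R₁))) *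
          z ^ (-((n : ℝ) / 2)) := by
        rw [uu]
        ring
      have e2 : (z ^ (-((n : ℝ) / 2))) ^ 2 = (z ^ n)⁻¹ := by
        rw [← rpow_natCast (z ^ (-((n : ℝ) / 2))) 2, ← rpow_mul hz.le, ← rpow_natCast z n,
          ← rpow_neg hz.le]
        congr 1
        push_cast
        ring
      rw [e1, mul_pow, e2]
      have e3 : 0 ≤ chi k z₀ z * (1 - smoothTransition (z - R₁)) :=
        mul_nonneg (chi_nonneg _ _ _) (by linarith [smoothTransition.le_one (z - R₁)])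
      have e4 : chi k z₀ z * (1 - smoothTransition (z - R₁)) ≤ 1 := by
        calc _ ≤ 1 * 1 := mul_le_mul (chi_le_one _ _ _)
              (by linarith [smoothTransition.nonneg (z - R₁)])
              (by linarith [smoothTransition.le_one (z - R₁)]) zero_le_one
          _ = 1 := one_mul _
      have e5 : (chi k z₀ z * (1 - smoothTransition (z - R₁))) ^ 2 ≤ 1 := pow_le_one₀ e3 e4
      calc _ ≤ 1 * (z ^ n)⁻¹ := mul_le_mul_of_nonneg_right e5 (by positivity)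
        _ = _ := one_mul _
    have h4 : (s * uu n k z₀ R₁ z / √(1 + z * C z)) ^ 2 * z =
        s ^ 2 * (uu n k z₀ R₁ z ^ 2 * z) / (1 + z * C z) := by
      rw [div_pow, sq_sqrt hK.le]
      ring
    rw [h4]
    have h5 : uu n k z₀ R₁ z ^ 2 * z ≤ (z ^ (n - 1))⁻¹ := by
      calc _ ≤ (z ^ n)⁻¹ * z := mul_le_mul_of_nonneg_right h3 hz.le
        _ = (z ^ (n - 1))⁻¹ := by
          have : z ^ n = z ^ (n - 1) * z := by
            rw [← pow_succ]
            congr 1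
            omega
          rw [this]
          field_simp
    have h6 : s ^ 2 * (uu n k z₀ R₁ z ^ 2 * z) ≤ 1 + z * C z := by
      calc s ^ 2 * (uu n k z₀ R₁ z ^ 2 * z) ≤ FF n C z * (z ^ (n - 1))⁻¹ :=
            mul_le_mul h2 h5 (by positivity) ((sq_nonneg s).trans h2)
        _ = 1 + z * C z := by
          rw [FF]
          field_simp
    have h7 : s ^ 2 * (uu n k z₀ R₁ z ^ 2 * z) / (1 + z * C z) ≤ 1 := (div_le_one hK).2 h6
    linarith

lemma calib_div (hJ : IsCx J) (hC0 : ∀ z, 0 ≤ C z)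
    {k z₀ R₁ s : ℝ} (hk : 0 < k) (hkz : 1 / k < z₀) {x : E n} (hx : ‖x‖ ^ 2 < R₁) :
    divDens (gJ J C) (calib n C k z₀ R₁ s) x =
      s * (2 * chi' k z₀ (‖x‖ ^ 2) * (‖x‖ ^ 2) ^ (1 - (n : ℝ) / 2)) := by
  have h1 : ∀ i : Fin n, (fun y : E n => (dens (gJ J C) y • calib n C k z₀ R₁ s y) i) =
      fun y => s * (uu n k z₀ R₁ (‖y‖ ^ 2) * y i) := by
    intro i
    funext y
    have hK := sqrt_pos.2 (K_pos hC0 y)
    rw [dens_gJ hJ, calib, smul_smul, PiLp.smul_apply, smul_eq_mul]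
    field_simp
  have h2 : ∀ i : Fin n, pd i (fun y : E n => s * (uu n k z₀ R₁ (‖y‖ ^ 2) * y i)) x =
      s * (2 * deriv (uu n k z₀ R₁) (‖x‖ ^ 2) * (x i * x i) + uu n k z₀ R₁ (‖x‖ ^ 2)) := by
    intro i
    have hu : HasDerivAt (uu n k z₀ R₁) (deriv (uu n k z₀ R₁) (‖x‖ ^ 2)) (‖x‖ ^ 2) :=
      ((uu_contDiff hk hkz).differentiable (by simp) _).hasDerivAt
    have h := ((hasF_sq _ _ x hu).fun_mul (hasF_coord i x)).const_mul s
    rw [pd_of h i]
    simp [innerSL_apply_apply, inner_ev]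
    ring
  rw [divDens_eq]
  simp only [h1, h2]
  rw [← div_uu hk hkz (sq_nonneg _) hx, ← Finset.mul_sum, Finset.sum_add_distrib,
    ← Finset.mul_sum, sum_mul_eq_inner, real_inner_self_eq_norm_sq]
  simp only [Finset.sum_const, Finset.card_univ, Fintype.card_fin, nsmul_eq_mul]
  ring

lemma exists_calib (hJ : IsCx J) (hn : 1 ≤ n) (hC : ContDiff ℝ ∞ C) (hC0 : ∀ z, 0 ≤ C z)
    {r₀ : ℝ} (hr : 0 < r₀) (hmono : ∀ z, r₀ ^ 2 ≤ z → FF n C (r₀ ^ 2) ≤ FF n C z)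
    {Ω : Set (E n)} (hb : Bornology.IsBounded Ω) (hm : MeasurableSet Ω) (hΩ : ball 0 r₀ ⊆ Ω)
    {t : ℝ} (ht0 : 0 < t) (ht1 : t < 1) : ∃ X, IsTestField (gJ J C) X ∧
      ∫ x in Ω, divDens (gJ J C) X x = t * (√(FF n C (r₀ ^ 2)) * omega n) := by
  have hF0 : 0 < FF n C (r₀ ^ 2) := by
    have := mul_nonneg (sq_nonneg r₀) (hC0 (r₀ ^ 2))
    unfold FF
    positivity
  have hcont : ContinuousAt (FF n C) (r₀ ^ 2) := (continuous_FF n hC.continuous).continuousAt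
  have hlt : t ^ 2 * FF n C (r₀ ^ 2) < FF n C (r₀ ^ 2) := by
    have : t ^ 2 < 1 := by nlinarith
    nlinarith
  obtain ⟨d, hd, hdd⟩ := Metric.continuousAt_iff.1 hcont
    (FF n C (r₀ ^ 2) - t ^ 2 * FF n C (r₀ ^ 2)) (by linarith)
  obtain ⟨k, hk⟩ := exists_gt (max (1 / d) (1 / r₀ ^ 2))
  have h1 : 1 / d < k := lt_of_le_of_lt (le_max_left _ _) hk
  have h2 : 1 / r₀ ^ 2 < k := lt_of_le_of_lt (le_max_right _ _) hk
  have hk0 : 0 < k := lt_trans (by positivity) h1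
  have h3 : 1 / k < d := (one_div_lt hk0 hd).2 h1
  have h4 : 1 / k < r₀ ^ 2 := (one_div_lt hk0 (by positivity)).2 h2
  obtain ⟨R, hR⟩ := isBounded_iff_forall_norm_le.1 hb
  refine ⟨calib n C k (r₀ ^ 2) (R ^ 2 + 1) (t * √(FF n C (r₀ ^ 2))),
    calib_test hJ hn hC hC0 hk0 h4 (by positivity) ?_, ?_⟩
  · intro z hz
    rw [mul_pow, sq_sqrt hF0.le]
    rcases le_or_gt (r₀ ^ 2) z with hz1 | hz1
    · exact hlt.le.trans (hmono z hz1)
    · have h6 : dist z (r₀ ^ 2) < d := by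
        rw [Real.dist_eq, abs_lt]
        constructor <;> linarith
      have h7 := hdd h6
      rw [Real.dist_eq, abs_lt] at h7
      linarith [h7.1]
  · have h5 : ∀ x ∈ Ω, ‖x‖ ^ 2 < R ^ 2 + 1 := by
      intro x hx
      have := hR x hx
      have := norm_nonneg x
      nlinarith
    have h6 : ∫ x in Ω, divDens (gJ J C) (calib n C k (r₀ ^ 2) (R ^ 2 + 1)
        (t * √(FF n C (r₀ ^ 2)))) x = ∫ x in Ω, t * √(FF n C (r₀ ^ 2)) *
          (2 * chi' k (r₀ ^ 2) (‖x‖ ^ 2) * (‖x‖ ^ 2) ^ (1 - (n : ℝ) / 2)) := by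
      refine setIntegral_congr_fun hm fun x hx => ?_
      exact calib_div hJ hC0 hk0 h4 (h5 x hx)
    rw [h6, setIntegral_eq_integral_of_forall_compl_eq_zero, integral_const_mul,
      flux_chi hn hk0 h4]
    · ring
    · intro x hx
      have : x ∉ ball (0 : E n) r₀ := fun h => hx (hΩ h)
      rw [mem_ball_zero_iff, not_lt] at this
      rw [chi'_of_ge hk0 (pow_le_pow_left₀ hr.le this 2)]
      ring

/-- The area of any hypersurface enclosing the round sphere. -/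
theorem le_area (hJ : IsCx J) (hn : 1 ≤ n) (hC : ContDiff ℝ ∞ C) (hC0 : ∀ z, 0 ≤ C z)
    {r₀ : ℝ} (hr : 0 < r₀) (hmono : ∀ z, r₀ ^ 2 ≤ z → FF n C (r₀ ^ 2) ≤ FF n C z)
    {Ω : Set (E n)} (hb : Bornology.IsBounded Ω) (hm : MeasurableSet Ω) (hΩ : ball 0 r₀ ⊆ Ω) :
    ENNReal.ofReal (√(FF n C (r₀ ^ 2)) * omega n) ≤ area (gJ J C) Ω := by
  rcases eq_or_ne (area (gJ J C) Ω) ⊤ with h | h
  · rw [h]
    exact le_top
  refine ENNReal.ofReal_le_of_le_toReal ?_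
  have hA0 : 0 ≤ (area (gJ J C) Ω).toReal := ENNReal.toReal_nonneg
  by_contra hlt
  rw [not_le] at hlt
  set A := (area (gJ J C) Ω).toReal with hA
  set v := √(FF n C (r₀ ^ 2)) * omega n with hv
  have hv0 : 0 < v := lt_of_le_of_lt hA0 hlt
  have h1 : A / v < 1 := (div_lt_one hv0).2 hlt
  have h2 : 0 ≤ A / v := div_nonneg hA0 hv0.le
  obtain ⟨X, hX, hXi⟩ := exists_calib hJ hn hC hC0 hr hmono hb hm hΩ
    (t := (1 + A / v) / 2) (by linarith) (by linarith)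
  have h3 : ENNReal.ofReal (∫ x in Ω, divDens (gJ J C) X x) ≤ area (gJ J C) Ω := by
    unfold area
    exact le_iSup₂_of_le X hX le_rfl
  have h4 : ∫ x in Ω, divDens (gJ J C) X x ≤ A := by
    rw [hA, ← ENNReal.ofReal_le_iff_le_toReal h]
    exact h3
  rw [hXi, ← hv] at h4
  have h5 : (1 + A / v) / 2 * v = (v + A) / 2 := by
    field_simp
  rw [h5] at h4
  linarith

/-- The area of the round sphere. -/
theorem area_ball (hJ : IsCx J) (hn : 1 ≤ n) (hC : ContDiff ℝ ∞ C) (hC0 : ∀ z, 0 ≤ C z)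
    {r₀ : ℝ} (hr : 0 < r₀) (hmono : ∀ z, r₀ ^ 2 ≤ z → FF n C (r₀ ^ 2) ≤ FF n C z) :
    area (gJ J C) (ball 0 r₀) = ENNReal.ofReal (√(FF n C (r₀ ^ 2)) * omega n) := by
  refine le_antisymm ?_ (le_area hJ hn hC hC0 hr hmono isBounded_ball measurableSet_ball
    Subset.rfl)
  unfold area
  refine iSup₂_le fun X hX => ?_
  exact ENNReal.ofReal_le_ofReal (flux_le hJ hn hC hC0 hX hr)

end Pool.Agent.GBC
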