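import Mathlib

/-!
# The profile function
-/

namespace Pool.Agent.GBC

open Set Filter Topology Real
open scoped ContDiff

/-- The profile: `exp (4 - 4 / (n - z)) / (3 n - 4)` for `z < n` and `0` for `z ≥ n`. -/
noncomputable def prof (n : ℕ) (z : ℝ) : ℝ :=
  exp 4 / (3 * n - 4) * expNegInvGlue (((n : ℝ) - z) / 4)

/-- The first derivative of the profile. -/
noncomputable def prof1 (n : ℕ) : ℝ → ℝ := deriv (prof n)

/-- The second derivative of the profile. -/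
noncomputable def prof2 (n : ℕ) : ℝ → ℝ := deriv (prof1 n)

variable {n : ℕ}

lemma prof_contDiff (n : ℕ) : ContDiff ℝ ∞ (prof n) := by
  unfold prof
  refine contDiff_const.mul (expNegInvGlue.contDiff.comp ?_)
  fun_prop

lemma prof1_contDiff (n : ℕ) : ContDiff ℝ ∞ (prof1 n) :=
  ((contDiff_infty_iff_deriv.1 (prof_contDiff n))).2

lemma prof2_contDiff (n : ℕ) : ContDiff ℝ ∞ (prof2 n) :=
  ((contDiff_infty_iff_deriv.1 (prof1_contDiff n))).2

lemma hasDerivAt_prof (n : ℕ) (z : ℝ) : HasDerivAt (prof n) (prof1 n z) z :=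
  ((prof_contDiff n).differentiable (by simp) z).hasDerivAt

lemma hasDerivAt_prof1 (n : ℕ) (z : ℝ) : HasDerivAt (prof1 n) (prof2 n z) z :=
  ((prof1_contDiff n).differentiable (by simp) z).hasDerivAt

lemma prof_nonneg (hn : 2 ≤ n) (z : ℝ) : 0 ≤ prof n z := by
  unfold prof
  have h : (2 : ℝ) ≤ n := by exact_mod_cast hn
  refine mul_nonneg (div_nonneg (exp_pos _).le (by linarith)) (expNegInvGlue.nonneg _)

lemma prof_of_ge {z : ℝ} (hz : (n : ℝ) ≤ z) : prof n z = 0 := by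
  unfold prof
  rw [expNegInvGlue.zero_of_nonpos (by linarith), mul_zero]

lemma prof_of_lt {z : ℝ} (hz : z < n) :
    prof n z = (3 * n - 4 : ℝ)⁻¹ * exp (4 - 4 * ((n : ℝ) - z)⁻¹) := by
  unfold prof expNegInvGlue
  rw [if_neg (by linarith), sub_eq_add_neg (4 : ℝ), exp_add]
  have : -(((n : ℝ) - z) / 4)⁻¹ = -(4 * ((n : ℝ) - z)⁻¹) := by
    rw [inv_div]
    ring
  rw [this]
  ring

lemma prof1_of_lt {z : ℝ} (hz : z < n) :
    prof1 n z = -4 * (((n : ℝ) - z)⁻¹) ^ 2 * prof n z := by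
  have h0 : (n : ℝ) - z ≠ 0 := by linarith
  have h1 : HasDerivAt (fun z : ℝ => (3 * n - 4 : ℝ)⁻¹ * exp (4 - 4 * ((n : ℝ) - z)⁻¹))
      (-4 * (((n : ℝ) - z)⁻¹) ^ 2 * prof n z) z := by
    have h2 := ((((hasDerivAt_id' z).const_sub (n : ℝ)).fun_inv h0).const_mul (4 : ℝ)).const_sub
      (4 : ℝ)
    refine (h2.exp.const_mul ((3 * n - 4 : ℝ)⁻¹)).congr_deriv ?_
    rw [prof_of_lt hz]
    field_simp
  have h3 : prof n =ᶠ[𝓝 z] fun z : ℝ => (3 * n - 4 : ℝ)⁻¹ * exp (4 - 4 * ((n : ℝ) - z)⁻¹) := by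
    filter_upwards [Iio_mem_nhds hz] with w hw
    exact prof_of_lt hw
  unfold prof1
  rw [h3.deriv_eq, h1.deriv]

lemma prof2_of_lt {z : ℝ} (hz : z < n) :
    prof2 n z = (16 * (((n : ℝ) - z)⁻¹) ^ 4 - 8 * (((n : ℝ) - z)⁻¹) ^ 3) * prof n z := by
  have h0 : (n : ℝ) - z ≠ 0 := by linarith
  have h1 : HasDerivAt (fun z : ℝ => -4 * (((n : ℝ) - z)⁻¹) ^ 2 * prof n z)
      ((16 * (((n : ℝ) - z)⁻¹) ^ 4 - 8 * (((n : ℝ) - z)⁻¹) ^ 3) * prof n z) z := by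
    have h2 := (((hasDerivAt_id' z).const_sub (n : ℝ)).fun_inv h0).fun_pow 2
    refine ((h2.const_mul (-4 : ℝ)).fun_mul (hasDerivAt_prof n z)).congr_deriv ?_
    rw [prof1_of_lt hz]
    generalize (n : ℝ) - z = w at *
    simp only [div_eq_mul_inv, inv_pow]
    push_cast
    ring
  have h3 : prof1 n =ᶠ[𝓝 z] fun z : ℝ => -4 * (((n : ℝ) - z)⁻¹) ^ 2 * prof n z := by
    filter_upwards [Iio_mem_nhds hz] with w hw
    exact prof1_of_lt hw
  unfold prof2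
  rw [h3.deriv_eq, h1.deriv]

lemma prof1_of_ge (hn : 2 ≤ n) {z : ℝ} (hz : (n : ℝ) ≤ z) : prof1 n z = 0 := by
  have : IsLocalMin (prof n) z := by
    refine Filter.Eventually.of_forall fun w => ?_
    rw [prof_of_ge hz]
    exact prof_nonneg hn w
  exact this.deriv_eq_zero

lemma prof1_nonpos (hn : 2 ≤ n) (z : ℝ) : prof1 n z ≤ 0 := by
  rcases lt_or_ge z n with hz | hz
  · rw [prof1_of_lt hz]
    have := prof_nonneg hn z
    nlinarith [sq_nonneg (((n : ℝ) - z)⁻¹), mul_nonneg (sq_nonneg (((n : ℝ) - z)⁻¹)) this]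
  · rw [prof1_of_ge hn hz]

lemma prof2_of_ge (hn : 2 ≤ n) {z : ℝ} (hz : (n : ℝ) ≤ z) : prof2 n z = 0 := by
  have : IsLocalMax (prof1 n) z := by
    refine Filter.Eventually.of_forall fun w => ?_
    rw [prof1_of_ge hn hz]
    exact prof1_nonpos hn w
  exact this.deriv_eq_zero

lemma prof_one_add_pos (hn : 2 ≤ n) {z : ℝ} (hz : 0 ≤ z) : 0 < 1 + z * prof n z := by
  have := mul_nonneg hz (prof_nonneg hn z)
  linarith

/-- positivity of the bracket in the formula for the Gauss-Bonnet curvature -/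
lemma bracket_nonneg {z c y N : ℝ} (hc : 0 ≤ c) (hN : 2 ≤ N) (hy : 1 ≤ y) (hz : N + 1 ≤ z) :
    0 ≤ 2 * (z * c) * (2 * (-4 * y ^ 2 * c) + z * ((16 * y ^ 4 - 8 * y ^ 3) * c)) +
      (N + 1) * c * (c + z * (-4 * y ^ 2 * c)) +
      (c + z * (-4 * y ^ 2 * c)) ^ 2 * (2 + z * c) / (1 + z * c) +
      (N - 2) * (1 + z * c) * c ^ 2 / 4 := by
  have hz0 : 0 ≤ z := by linarith
  have hzc : 0 ≤ z * c := mul_nonneg hz0 hc
  set q := 4 * z * y ^ 2 with hq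
  have h1 : (c + z * (-4 * y ^ 2 * c)) ^ 2 ≤
      (c + z * (-4 * y ^ 2 * c)) ^ 2 * (2 + z * c) / (1 + z * c) := by
    rw [le_div_iff₀ (by linarith)]
    nlinarith [sq_nonneg (c + z * (-4 * y ^ 2 * c))]
  have h2 : 0 ≤ (N - 2) * (1 + z * c) * c ^ 2 / 4 := by
    have : 0 ≤ (N - 2) := by linarith
    positivity
  have h3 : z * y ≤ q / 4 := by
    rw [hq]
    nlinarith [mul_nonneg hz0 (by nlinarith : (0:ℝ) ≤ y * (y - 1))]
  have h4 : 4 * (N + 1) ≤ q := by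
    have : (1 : ℝ) ≤ y ^ 2 := by nlinarith
    rw [hq]
    nlinarith
  have h5 : 0 ≤ 3 * q ^ 2 - 4 * q * (z * y) - (N + 7) * q + (N + 2) := by
    have hq0 : 0 ≤ q := by linarith
    nlinarith [mul_le_mul_of_nonneg_left h3 hq0, mul_nonneg hq0 (by linarith : 0 ≤ q - 4 * (N + 1)),
      mul_nonneg hq0 (by linarith : 0 ≤ N - 2)]
  have h6 : 2 * (z * c) * (2 * (-4 * y ^ 2 * c) + z * ((16 * y ^ 4 - 8 * y ^ 3) * c)) +
      (N + 1) * c * (c + z * (-4 * y ^ 2 * c)) + (c + z * (-4 * y ^ 2 * c)) ^ 2 =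
      c ^ 2 * (3 * q ^ 2 - 4 * q * (z * y) - (N + 7) * q + (N + 2)) := by
    rw [hq]
    ring
  have h7 : 0 ≤ c ^ 2 * (3 * q ^ 2 - 4 * q * (z * y) - (N + 7) * q + (N + 2)) :=
    mul_nonneg (sq_nonneg _) h5
  linarith

end Pool.Agent.GBC
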