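import Pool.Agent.GBC.Field
import Pool.Agent.GBC.Cut
import Pool.Agent.GBC.Area

/-!
# Areas for the ring metric: upper bounds
-/

namespace Pool.Agent.GBC

open MeasureTheory Metric Set Filter Topology Real
open scoped ContDiff

variable {n : ℕ} {A : E n →L[ℝ] E n} {M : ℕ}

lemma dens_G (x : E n) : dens (gA A (CC A M)) x = √(KK A M x) := by
  rw [dens, det_gA, KK]

lemma KK_contDiff (A : E n →L[ℝ] E n) (M : ℕ) : ContDiff ℝ ∞ (KK A M) := by
  unfold KK
  exact contDiff_const.add ((contDiff_rN A).mul (CC_contDiff A M))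

lemma sqrtKK_contDiff (hA : IsRot A) (M : ℕ) : ContDiff ℝ ∞ fun x => √(KK A M x) :=
  (KK_contDiff A M).sqrt fun x => (KK_pos hA x).ne'

lemma dens_G_contDiff (hA : IsRot A) (M : ℕ) : ContDiff ℝ ∞ (dens (gA A (CC A M))) := by
  have : dens (gA A (CC A M)) = fun x => √(KK A M x) := by
    funext x
    exact dens_G x
  rw [this]
  exact sqrtKK_contDiff hA M

/-- Integration by parts against a cutoff. -/
lemma parts_cut (φ : E n → ℝ) (hφ : ContDiff ℝ ∞ φ) (Z : E n → E n) (hZ : ContDiff ℝ ∞ Z)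
    (hZc : HasCompactSupport Z) :
    ∫ x, (1 - φ x) * ∑ i, pd i (fun y => Z y i) x = ∫ x, fderiv ℝ φ x (Z x) := by
  have hZi : ∀ i, ContDiff ℝ ∞ fun y => Z y i := fun i => by
    exact (EuclideanSpace.proj i : E n →L[ℝ] ℝ).contDiff.comp hZ
  have hZic : ∀ i, HasCompactSupport fun y => Z y i := fun i => by
    exact hZc.comp_left (g := fun v : E n => v i) rfl
  have hcut : ContDiff ℝ ∞ fun x : E n => 1 - φ x := contDiff_const.sub hφ
  have hpd : ∀ i (x : E n), fderiv ℝ (fun x : E n => 1 - φ x) x (ev i) =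
      -(fderiv ℝ φ x (ev i)) := by
    intro i x
    have h := (hφ.differentiable (by simp) x).hasFDerivAt.const_sub 1
    rw [h.fderiv]
    simp
  have hcont : ∀ i, Continuous fun x => fderiv ℝ (fun y => Z y i) x (ev i) := fun i =>
    ((hZi i).continuous_fderiv (by simp)).clm_apply continuous_const
  have hint1 : ∀ i, Integrable fun x => (1 - φ x) * fderiv ℝ (fun y => Z y i) x (ev i) := by
    intro i
    refine (hcut.continuous.mul (hcont i)).integrable_of_hasCompactSupport ?_
    refine HasCompactSupport.mul_left ?_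
    exact (hZic i).fderiv_apply ℝ _
  have hint2 : ∀ i, Integrable fun x => fderiv ℝ (fun x : E n => 1 - φ x) x (ev i) * Z x i := by
    intro i
    refine Continuous.integrable_of_hasCompactSupport ?_ (HasCompactSupport.mul_left (hZic i))
    exact ((hcut.continuous_fderiv (by simp)).clm_apply continuous_const).mul (hZi i).continuous
  have hint3 : ∀ i, Integrable fun x => (1 - φ x) * Z x i := by
    intro i
    exact (hcut.continuous.mul (hZi i).continuous).integrable_of_hasCompactSupport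
      (HasCompactSupport.mul_left (hZic i))
  have key : ∀ i, ∫ x, (1 - φ x) * fderiv ℝ (fun y => Z y i) x (ev i) =
      ∫ x, Z x i * fderiv ℝ φ x (ev i) := by
    intro i
    rw [integral_mul_fderiv_eq_neg_fderiv_mul_of_integrable (hint2 i) (hint1 i) (hint3 i)
      (fun x _ => (hcut.differentiable (by simp)) x)
      (fun x _ => ((hZi i).differentiable (by simp)) x), ← integral_neg]
    refine integral_congr_ae (Eventually.of_forall fun x => ?_)
    simp only [hpd]
    ring
  calc ∫ x, (1 - φ x) * ∑ i, pd i (fun y => Z y i) x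
      = ∫ x, ∑ i, (1 - φ x) * fderiv ℝ (fun y => Z y i) x (ev i) := by
        refine integral_congr_ae (Eventually.of_forall fun x => ?_)
        simp only [Finset.mul_sum]
        rfl
    _ = ∑ i, ∫ x, (1 - φ x) * fderiv ℝ (fun y => Z y i) x (ev i) :=
        integral_finsetSum _ fun i _ => hint1 i
    _ = ∑ i, ∫ x, Z x i * fderiv ℝ φ x (ev i) :=
        Finset.sum_congr rfl fun i _ => key i
    _ = ∫ x, ∑ i, Z x i * fderiv ℝ φ x (ev i) := by
        rw [integral_finsetSum]
        intro i _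
        have := (hint2 i).neg
        refine this.congr (Eventually.of_forall fun x => ?_)
        simp only [Pi.neg_apply, hpd]
        ring
    _ = _ := by
        refine integral_congr_ae (Eventually.of_forall fun x => ?_)
        exact sum_slot (fun v => fderiv ℝ φ x v)
          ⟨fun a b => map_add (fderiv ℝ φ x) a b, fun a b => map_smul (fderiv ℝ φ x) a b⟩ (Z x)

/-- The cutoff of the Cassini function. -/
noncomputable def chQ (A : E n →L[ℝ] E n) (k q₀ : ℝ) (x : E n) : ℝ := chi k q₀ (QQ A x)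

lemma chQ_contDiff (A : E n →L[ℝ] E n) (k q₀ : ℝ) : ContDiff ℝ ∞ (chQ A k q₀) :=
  (chi_contDiff k q₀).comp (contDiff_Q A)

lemma hasF_chQ (hA : IsSkew A) (k q₀ : ℝ) (x : E n) :
    HasFDerivAt (chQ A k q₀) (chi' k q₀ (QQ A x) • innerSL ℝ (gQ A x)) x :=
  (hasDerivAt_chi k q₀ (QQ A x)).comp_hasFDerivAt x (hasF_Q hA x)

/-- The flux integrals. -/
noncomputable def Fk (A : E n →L[ℝ] E n) (M : ℕ) (k : ℝ) : ℝ :=
  ∫ x, chi' k (1 / 4) (QQ A x) * (√(KK A M x) * ‖gQ A x‖)

lemma norm_lt_two (hA : IsRot A) {x : E n} (hx : QQ A x < 1 / 4) : ‖x‖ < 2 := by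
  have h := Q_ge hA x
  have h2 := norm_nonneg x
  by_contra hc
  rw [not_lt] at hc
  have h3 : 4 ≤ ‖x‖ ^ 2 := by nlinarith
  nlinarith

lemma chi'_zero_of_norm (hA : IsRot A) {k : ℝ} (hk : 0 < k) {x : E n} (hx : 2 ≤ ‖x‖) :
    chi' k (1 / 4) (QQ A x) = 0 := by
  refine chi'_of_ge hk ?_
  by_contra hc
  rw [not_le] at hc
  exact absurd (norm_lt_two hA hc) (not_lt.2 hx)

lemma Fk_integrand_continuous (hA : IsRot A) (k : ℝ) :
    Continuous fun x => chi' k (1 / 4) (QQ A x) * (√(KK A M x) * ‖gQ A x‖) := by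
  have h1 := (chi'_contDiff k (1 / 4)).continuous.comp (contDiff_Q A).continuous
  exact h1.mul ((sqrtKK_contDiff hA M).continuous.mul (contDiff_gQ A).continuous.norm)

lemma Fk_integrand_compact (hA : IsRot A) {k : ℝ} (hk : 0 < k) :
    HasCompactSupport fun x => chi' k (1 / 4) (QQ A x) * (√(KK A M x) * ‖gQ A x‖) := by
  refine HasCompactSupport.intro (isCompact_closedBall (0 : E n) 2) fun x hx => ?_
  rw [mem_closedBall_zero_iff, not_le] at hx
  rw [chi'_zero_of_norm hA hk hx.le, zero_mul]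

lemma Fk_integrable (hA : IsRot A) {k : ℝ} (hk : 0 < k) :
    Integrable fun x => chi' k (1 / 4) (QQ A x) * (√(KK A M x) * ‖gQ A x‖) :=
  (Fk_integrand_continuous hA k).integrable_of_hasCompactSupport (Fk_integrand_compact hA hk)

lemma inner_gQ_le (hA : IsRot A) {X : E n → E n} (hX : IsTestField (gA A (CC A M)) X) (x : E n) :
    inner ℝ (gQ A x) (X x) ≤ ‖gQ A x‖ := by
  have h := hX.length x
  rw [quad_gA] at h
  have hK := KK_pos (M := M) hA x
  unfold KK at hK
  have hperp : inner ℝ (gQ A x) (A x) = 0 := by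
    rw [real_inner_comm]
    exact inner_A_gQ hA x
  rcases eq_or_ne (A x) 0 with h0 | h0
  · rw [h0, inner_zero_left] at h
    have h1 : ‖X x‖ ≤ 1 := by
      have : ‖X x‖ ^ 2 ≤ 1 := by linarith
      nlinarith [norm_nonneg (X x)]
    calc inner ℝ (gQ A x) (X x) ≤ ‖gQ A x‖ * ‖X x‖ := real_inner_le_norm _ _
      _ ≤ ‖gQ A x‖ * 1 := mul_le_mul_of_nonneg_left h1 (norm_nonneg _)
      _ = ‖gQ A x‖ := mul_one _
  · have hY : 0 < ‖A x‖ ^ 2 := by
      have := norm_pos_iff.2 h0
      positivity
    set w := inner ℝ (A x) (X x) with hw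
    set X' := X x - (w / ‖A x‖ ^ 2) • A x with hX'
    have e1 : inner ℝ (gQ A x) (X x) = inner ℝ (gQ A x) X' := by
      rw [hX', inner_sub_right, inner_smul_right, hperp]
      ring
    have e2 : ‖X'‖ ^ 2 = ‖X x‖ ^ 2 - w ^ 2 / ‖A x‖ ^ 2 := by
      rw [hX', norm_sub_sq_real, inner_smul_right, real_inner_comm, ← hw, norm_smul, mul_pow,
        Real.norm_eq_abs, sq_abs]
      field_simp
      ring
    have e3 : ‖X'‖ ^ 2 ≤ 1 := by
      have e4 : -(w ^ 2 / ‖A x‖ ^ 2) ≤ CC A M x * w ^ 2 := by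
        have e6 : 0 ≤ w ^ 2 / ‖A x‖ ^ 2 * (1 + ‖A x‖ ^ 2 * CC A M x) := by positivity
        have e7 : w ^ 2 / ‖A x‖ ^ 2 * (1 + ‖A x‖ ^ 2 * CC A M x) =
            w ^ 2 / ‖A x‖ ^ 2 + CC A M x * w ^ 2 := by
          field_simp
        linarith
      linarith
    have e5 : ‖X'‖ ≤ 1 := by nlinarith [norm_nonneg X']
    rw [e1]
    calc inner ℝ (gQ A x) X' ≤ ‖gQ A x‖ * ‖X'‖ := real_inner_le_norm _ _
      _ ≤ ‖gQ A x‖ * 1 := mul_le_mul_of_nonneg_left e5 (norm_nonneg _)
      _ = ‖gQ A x‖ := mul_one _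

lemma div_smooth_integrable {Z : E n → E n} (hZ : ContDiff ℝ ∞ Z) (hZc : HasCompactSupport Z) :
    Integrable fun x => ∑ i, pd i (fun y => Z y i) x := by
  have hZi : ∀ i, ContDiff ℝ ∞ fun y => Z y i := fun i => by
    exact (EuclideanSpace.proj i : E n →L[ℝ] ℝ).contDiff.comp hZ
  have hZic : ∀ i, HasCompactSupport fun y => Z y i := fun i => by
    exact hZc.comp_left (g := fun v : E n => v i) rfl
  refine integrable_finsetSum _ fun i _ => ?_
  refine (((hZi i).continuous_fderiv (by simp)).clm_apply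
    continuous_const).integrable_of_hasCompactSupport ?_
  exact (hZic i).fderiv_apply ℝ _

/-- The area is bounded by the flux integrals. -/
lemma upper_ring (hA : IsRot A) {X : E n → E n} (hX : IsTestField (gA A (CC A M)) X) {k : ℝ}
    (hk : 8 ≤ k) : ∫ x, (1 - chQ A k (1 / 4) x) * divDens (gA A (CC A M)) X x ≤ Fk A M k := by
  have hk0 : 0 < k := by linarith
  have hk1 : 1 / k ≤ 1 / 8 := one_div_le_one_div_of_le (by norm_num) hk
  have hZ : ContDiff ℝ ∞ fun x => dens (gA A (CC A M)) x • X x :=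
    (dens_G_contDiff hA M).smul hX.smooth
  have hZc : HasCompactSupport fun x => dens (gA A (CC A M)) x • X x :=
    hasCompactSupport_smul' _ hX.compact
  have h1 := parts_cut (chQ A k (1 / 4)) (chQ_contDiff A k (1 / 4)) _ hZ hZc
  simp only [divDens_eq]
  rw [h1]
  have h2 : ∀ x, fderiv ℝ (chQ A k (1 / 4)) x (dens (gA A (CC A M)) x • X x) =
      chi' k (1 / 4) (QQ A x) * (√(KK A M x) * inner ℝ (gQ A x) (X x)) := by
    intro x
    rw [(hasF_chQ hA.skew k (1 / 4) x).fderiv, dens_G, _root_.smul_apply, innerSL_apply_apply,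
      inner_smul_right, smul_eq_mul]
  simp only [h2]
  refine integral_mono ?_ (Fk_integrable hA hk0) ?_
  · refine Continuous.integrable_of_hasCompactSupport ?_ ?_
    · have h3 := (chi'_contDiff k (1 / 4)).continuous.comp (contDiff_Q A).continuous
      exact h3.mul ((sqrtKK_contDiff hA M).continuous.mul
        ((contDiff_gQ A).continuous.inner hX.smooth.continuous))
    · refine HasCompactSupport.intro (isCompact_closedBall (0 : E n) 2) fun x hx => ?_
      rw [mem_closedBall_zero_iff, not_le] at hx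
      rw [chi'_zero_of_norm hA hk0 hx.le, zero_mul]
  · intro x
    exact mul_le_mul_of_nonneg_left (mul_le_mul_of_nonneg_left (inner_gQ_le hA hX x)
      (sqrt_nonneg _)) (chi'_nonneg hk0 _)

lemma tendsto_cutQ (hA : IsRot A) {X : E n → E n} (hX : IsTestField (gA A (CC A M)) X) :
    Tendsto (fun k : ℕ => ∫ x, (1 - chQ A (k + 1) (1 / 4) x) * divDens (gA A (CC A M)) X x) atTop
      (𝓝 (∫ x in {x | QQ A x < 1 / 4}, divDens (gA A (CC A M)) X x)) := by
  have hZ : ContDiff ℝ ∞ fun x => dens (gA A (CC A M)) x • X x :=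
    (dens_G_contDiff hA M).smul hX.smooth
  have hZc : HasCompactSupport fun x => dens (gA A (CC A M)) x • X x :=
    hasCompactSupport_smul' _ hX.compact
  have hD : Integrable (divDens (gA A (CC A M)) X) := by
    have h2 : divDens (gA A (CC A M)) X =
        fun x => ∑ i, pd i (fun y => (dens (gA A (CC A M)) y • X y) i) x := by
      funext x
      exact divDens_eq _ _ _
    rw [h2]
    exact div_smooth_integrable hZ hZc
  have hQc : Continuous (QQ A) := (contDiff_Q A).continuous
  have hmeas : MeasurableSet {x | QQ A x < 1 / 4} := (isOpen_lt hQc continuous_const).measurableSet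
  rw [← integral_indicator hmeas]
  refine tendsto_integral_of_dominated_convergence (fun x => ‖divDens (gA A (CC A M)) X x‖) ?_
    hD.norm ?_ ?_
  · intro k
    refine AEStronglyMeasurable.mul ?_ hD.aestronglyMeasurable
    refine Continuous.aestronglyMeasurable ?_
    exact continuous_const.sub (chQ_contDiff A _ _).continuous
  · intro k
    refine Eventually.of_forall fun x => ?_
    rw [norm_mul]
    have h1 := chi_nonneg (k + 1) (1 / 4) (QQ A x)
    have h2 := chi_le_one (k + 1) (1 / 4) (QQ A x)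
    have h3 : ‖1 - chQ A (k + 1) (1 / 4) x‖ ≤ 1 := by
      rw [Real.norm_eq_abs, abs_le, chQ]
      constructor <;> linarith
    calc _ ≤ 1 * ‖divDens (gA A (CC A M)) X x‖ := mul_le_mul_of_nonneg_right h3 (norm_nonneg _)
      _ = _ := one_mul _
  · refine Eventually.of_forall fun x => ?_
    by_cases hx : x ∈ {x | QQ A x < 1 / 4}
    · rw [indicator_of_mem hx]
      have hx' : QQ A x < 1 / 4 := hx
      have h0 : 0 < 1 / 4 - QQ A x := by linarith
      refine tendsto_const_nhds.congr' ?_
      obtain ⟨N, hN⟩ := exists_nat_gt (1 / (1 / 4 - QQ A x))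
      filter_upwards [eventually_ge_atTop N] with k hk
      have hk1 : (0 : ℝ) < k + 1 := by positivity
      rw [chQ, chi_of_le hk1, sub_zero, one_mul]
      have h5 : 1 / ((k : ℝ) + 1) ≤ 1 / 4 - QQ A x := by
        rw [div_le_iff₀ hk1]
        have h6 : (N : ℝ) ≤ k := by exact_mod_cast hk
        rw [div_lt_iff₀ h0] at hN
        nlinarith
      linarith
    · rw [indicator_of_notMem hx]
      have hx' : 1 / 4 ≤ QQ A x := by
        rw [mem_ofPred_eq, not_lt] at hx
        exact hx
      refine tendsto_const_nhds.congr fun k => ?_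
      have hk1 : (0 : ℝ) < k + 1 := by positivity
      rw [chQ, chi_of_ge hk1 hx', sub_self, zero_mul]

end Pool.Agent.GBC
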