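import Pool.Agent.GBC.RTop

/-!
# The counterexample in all dimensions
-/

namespace Pool.Agent.GBC

open MeasureTheory Metric Set Filter Topology Real
open scoped ContDiff

/-- **The counterexample** to the area Penrose inequality for the Gauss-Bonnet-Chern mass, in every
dimension and with vanishing Gauss-Bonnet curvature. -/
theorem counterexample_all (n : ℕ) (h5 : 5 ≤ n) :
    ∃ (g : MetricField n) (ρ : E n → ℝ) (c : ℝ), IsMetric g ∧ IsExteriorRegion ρ c ∧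
      (∃ R : ℝ, ∀ x, R ≤ ‖x‖ → g x = 1) ∧
      (∀ τ, IsAF g τ) ∧
      (∀ x, gaussBonnet g x = 0) ∧
      IsOuterMinHorizon g ρ c ∧
      IsGBCMass g 0 ∧
      area g {x | ρ x < c} ≠ ⊤ ∧
      0 < 1 / 4 * ((area g {x | ρ x < c}).toReal / omega n) ^
        (((n : ℝ) - 4) / ((n : ℝ) - 1)) := by
  obtain ⟨m, rfl⟩ : ∃ m, n = m + 2 := ⟨n - 2, by omega⟩
  obtain ⟨M, hM⟩ : ∃ M, m + 2 = M + 4 := ⟨m - 2, by omega⟩
  have hA := isRot_rot m
  have hone : ∀ x : E (m + 2), 2 < ‖x‖ → gA (rot m) (CC (rot m) M) x = 1 := fun x hx =>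
    ring_eq_one hA hx.le
  refine ⟨gA (rot m) (CC (rot m) M), QQ (rot m), 1 / 4, isMetric_ring hA M,
    isExteriorRegion_ring (by omega), ⟨2, fun x hx => ring_eq_one hA hx⟩, isAF_of_one hone,
    gaussBonnet_ring m M, ⟨fun x hx => meanCurv_ring hA hM hx, fun Ω hb hm hΩ =>
      area_ring_le hA hM hb hm hΩ⟩, isGBCMass_of_one hone, area_ring_ne_top hA M, ?_⟩
  have h1 : 0 < (area (gA (rot m) (CC (rot m) M)) {x | QQ (rot m) x < 1 / 4}).toReal :=
    ENNReal.toReal_pos (area_ring_pos m M hM).ne' (area_ring_ne_top hA M)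
  have h2 := omega_pos (n := m + 2) (by omega)
  have h3 := rpow_pos_of_pos (div_pos h1 h2) ((((m + 2 : ℕ) : ℝ) - 4) / (((m + 2 : ℕ) : ℝ) - 1))
  linarith

end Pool.Agent.GBC
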