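import Pool.Agent.GBC.Defs

/-!
# Exterior regions and horizons with a general boundary
-/

namespace Pool.Agent.GBC

open MeasureTheory Metric Set Filter Topology Real
open scoped ContDiff

variable {n : ℕ}

/-- `M = {x | c ≤ ρ x}` is a connected exterior region of `ℝⁿ` whose boundary `Σ = {x | ρ x = c}`
is a nonempty compact smooth hypersurface: `ρ` is smooth, `c` is a regular value and
`{x | ρ x ≤ c}` is bounded. -/
structure IsExteriorRegion (ρ : E n → ℝ) (c : ℝ) : Prop where
  smooth : ContDiff ℝ ∞ ρ
  regular : ∀ x, ρ x = c → fderiv ℝ ρ x ≠ 0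
  nonempty : {x | ρ x = c}.Nonempty
  bounded : Bornology.IsBounded {x | ρ x ≤ c}
  connected : IsConnected {x | c ≤ ρ x}

/-- The boundary `Σ = {x | ρ x = c}` of the exterior region `M = {x | c ≤ ρ x}` is an area outer
minimizing horizon: it is minimal, and no hypersurface enclosing it has smaller area. -/
structure IsOuterMinHorizon (g : MetricField n) (ρ : E n → ℝ) (c : ℝ) : Prop where
  minimal : ∀ x : E n, ρ x = c → meanCurv g ρ x = 0
  outer : ∀ Ω : Set (E n), Bornology.IsBounded Ω → MeasurableSet Ω → {x | ρ x < c} ⊆ Ω →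
    area g {x | ρ x < c} ≤ area g Ω

end Pool.Agent.GBC
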