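import Pool.Agent.GBC.RHor
import Pool.Agent.GBC.RDefs

/-!
# The counterexample in all dimensions
-/

namespace Pool.Agent.GBC

open MeasureTheory Metric Set Filter Topology Real
open scoped ContDiff

section general

variable {n : ℕ} {g : MetricField n}

lemma pd_zero_of_eventually {x : E n} (h : ∀ᶠ y in 𝓝 x, g y = 1) (p i j : Fin n) :
    pd p (fun y => g y i j) x = 0 := by
  have h1 : (fun y => g y i j) =ᶠ[𝓝 x] fun _ => (1 : Matrix (Fin n) (Fin n) ℝ) i j := by
    filter_upwards [h] with y hy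
    rw [hy]
  rw [pd, h1.fderiv_eq]
  simp

lemma eventually_one {R : ℝ} (hg : ∀ x, R < ‖x‖ → g x = 1) {x : E n} (hx : R < ‖x‖) :
    ∀ᶠ y in 𝓝 x, g y = 1 := by
  filter_upwards [(isOpen_lt continuous_const continuous_norm).mem_nhds hx] with y hy
  exact hg y hy

lemma isAF_of_one {R : ℝ} (hg : ∀ x, R < ‖x‖ → g x = 1) (τ : ℝ) : IsAF g τ := by
  refine ⟨|R| + 1, 0, by positivity, fun x hx i j => ?_⟩
  have hx2 : R < ‖x‖ := by
    have := le_abs_self R
    linarith
  have h1 : ∀ k, (pd k fun y => g y i j) =ᶠ[𝓝 x] fun _ => 0 := by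
    intro k
    filter_upwards [(isOpen_lt continuous_const continuous_norm).mem_nhds hx2] with y hy
    exact pd_zero_of_eventually (eventually_one hg hy) k i j
  refine ⟨?_, fun k => ?_, fun k l => ?_⟩
  · rw [hg x hx2]
    simp
  · rw [(h1 k).eq_of_nhds]
    simp
  · have : pd l (pd k fun y => g y i j) x = 0 := by
      unfold pd at h1 ⊢
      rw [(h1 k).fderiv_eq]
      simp
    rw [this]
    simp

lemma massIntegral_of_one {R : ℝ} (hg : ∀ x, R < ‖x‖ → g x = 1) {r : ℝ} (hr0 : 0 ≤ r)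
    (hr : R < r) : massIntegral g r = 0 := by
  have h1 : ∀ θ : sphere (0 : E n) 1, ∑ i, ∑ j, ∑ k, ∑ l,
      tensorP g (r • (θ : E n)) i j k l *
        pd l (fun y => g y j k) (r • (θ : E n)) * (θ : E n) i = 0 := by
    intro θ
    have h2 : R < ‖r • (θ : E n)‖ := by
      rw [norm_smul, norm_eq_of_mem_sphere θ, mul_one, Real.norm_eq_abs, abs_of_nonneg hr0]
      exact hr
    simp only [pd_zero_of_eventually (eventually_one hg h2), mul_zero, zero_mul,
      Finset.sum_const_zero]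
  unfold massIntegral
  simp only [h1, integral_zero, mul_zero]

lemma isGBCMass_of_one {R : ℝ} (hg : ∀ x, R < ‖x‖ → g x = 1) : IsGBCMass g 0 := by
  refine tendsto_const_nhds.congr' ?_
  filter_upwards [eventually_gt_atTop R, eventually_ge_atTop 0] with r hr hr0
  rw [massIntegral_of_one hg hr0 hr]

end general

section metric

variable {n : ℕ} {A : E n →L[ℝ] E n} {M : ℕ}

lemma isMetric_ring (hA : IsRot A) (M : ℕ) : IsMetric (gA A (CC A M)) := by
  refine ⟨fun i j => ?_, fun x => posDef_gA x (KK_pos hA x)⟩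
  have h2 : ∀ i, ContDiff ℝ ∞ fun x : E n => (A x) i := fun i => by
    exact ((EuclideanSpace.proj i : E n →L[ℝ] ℝ) ∘L A).contDiff
  exact contDiff_const.add ((CC_contDiff A M).mul ((h2 i).mul (h2 j)))

lemma Q_of_norm (hA : IsRot A) {x : E n} (hx : 2 ≤ ‖x‖) : 9 ≤ QQ A x := by
  have h := Q_ge hA x
  have h2 : 4 ≤ ‖x‖ ^ 2 := by nlinarith
  nlinarith

lemma ring_eq_one (hA : IsRot A) {x : E n} (hx : 2 ≤ ‖x‖) : gA A (CC A M) x = 1 := by
  ext i j
  rw [gA_apply, CC_of_ge (by linarith [Q_of_norm hA hx]), zero_mul, add_zero]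

lemma area_ring_ne_top (hA : IsRot A) (M : ℕ) :
    area (gA A (CC A M)) {x | QQ A x < 1 / 4} ≠ ⊤ := by
  obtain ⟨B, hB⟩ := Fk_bounded hA M
  have h : area (gA A (CC A M)) {x | QQ A x < 1 / 4} ≤ ENNReal.ofReal B := by
    unfold area
    refine iSup₂_le fun X hX => ENNReal.ofReal_le_ofReal ?_
    refine le_of_tendsto (tendsto_cutQ hA hX) ?_
    filter_upwards [eventually_ge_atTop 8] with k hk
    have hk8 : (8 : ℝ) ≤ (k : ℝ) + 1 := by
      have : (8 : ℝ) ≤ k := by exact_mod_cast hk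
      linarith
    exact (upper_ring hA hX hk8).trans (hB _ hk8)
  exact ne_top_of_le_ne_top ENNReal.ofReal_ne_top h

lemma exists_chi'_ne : ∃ q : ℝ, 1 / 8 < q ∧ q < 1 / 4 ∧ chi' 8 (1 / 4) q ≠ 0 := by
  by_contra hc
  push Not at hc
  have h0 : ∀ q, deriv (chi 8 (1 / 4)) q = 0 := by
    intro q
    change chi' 8 (1 / 4) q = 0
    rcases le_or_gt q (1 / 8) with h1 | h1
    · exact chi'_of_le (by norm_num) (by linarith)
    rcases le_or_gt (1 / 4) q with h2 | h2
    · exact chi'_of_ge (by norm_num) h2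
    exact hc q h1 h2
  have h1 := is_const_of_deriv_eq_zero ((chi_contDiff 8 (1 / 4)).differentiable (by simp)) h0
    0 1
  rw [chi_of_le (by norm_num) (by norm_num), chi_of_ge (by norm_num) (by norm_num)] at h1
  norm_num at h1

end metric

section rotation

variable {m M : ℕ}

lemma norm_ev {n : ℕ} (i : Fin n) : ‖(ev i : E n)‖ = 1 := by simp [ev]

lemma QQ_smul_ev_zero (t : ℝ) : QQ (rot m) (t • (ev 0 : E (m + 2))) = (t ^ 2 - 1) ^ 2 := by
  have h1 : ‖t • (ev 0 : E (m + 2))‖ ^ 2 = t ^ 2 := by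
    rw [norm_smul, norm_ev, mul_one, Real.norm_eq_abs, sq_abs]
  have h2 : ‖rot m (t • (ev 0 : E (m + 2)))‖ ^ 2 = t ^ 2 := by
    rw [norm_rot_sq]
    simp [ev]
  rw [QQ, h1, h2]
  ring

lemma QQ_of_A_zero {n : ℕ} {A : E n →L[ℝ] E n} {x : E n} (hx : A x = 0) : 1 ≤ QQ A x := by
  rw [QQ, hx, norm_zero]
  nlinarith [sq_nonneg ‖x‖, sq_nonneg (‖x‖ ^ 2)]

lemma gaussBonnet_ring (m M : ℕ) (x : E (m + 2)) :
    gaussBonnet (gA (rot m) (CC (rot m) M)) x = 0 := by
  have hA := isRot_rot m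
  have hK : ∀ x, 1 + ‖rot m x‖ ^ 2 * CC (rot m) M x ≠ 0 := fun x => (KK_pos (M := M) hA x).ne'
  rcases eq_or_ne (rot m x) 0 with h | h
  · refine gaussBonnet_gA_of_zero hA.skew (CC_contDiff _ _) hK x ?_
    have h1 := QQ_of_A_zero h
    have h2 : 3 / 4 < QQ (rot m) x := by linarith
    filter_upwards [(isOpen_lt continuous_const (contDiff_Q (rot m)).continuous).mem_nhds h2]
      with y hy
    exact CC_of_ge (le_of_lt hy)
  · exact gaussBonnet_gA_of_ne (N := m + 1) hA.skew hA.rank (CC_contDiff _ _) hK x h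

lemma Fk_pos (m M : ℕ) : 0 < Fk (rot m) M 8 := by
  have hA := isRot_rot m
  obtain ⟨q, h1, h2, h3⟩ := exists_chi'_ne
  have hq : (1 + √q) = √(1 + √q) ^ 2 := by
    rw [sq_sqrt]
    positivity
  have hQ : QQ (rot m) (√(1 + √q) • (ev 0 : E (m + 2))) = q := by
    rw [QQ_smul_ev_zero, ← hq, add_sub_cancel_left, sq_sqrt (by linarith)]
  unfold Fk
  refine Continuous.integral_pos_of_hasCompactSupport_nonneg_nonzero
    (x := √(1 + √q) • (ev 0 : E (m + 2))) (Fk_integrand_continuous hA 8)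
    (Fk_integrand_compact hA (by norm_num)) (fun x => ?_) ?_
  · exact mul_nonneg (chi'_nonneg (by norm_num) _) (mul_nonneg (sqrt_nonneg _) (norm_nonneg _))
  · refine mul_ne_zero (by rw [hQ]; exact h3) (mul_ne_zero ?_ ?_)
    · exact (sqrt_pos.2 (KK_pos hA _)).ne'
    · refine (norm_gQ_pos hA ?_ ?_).ne'
      · rw [hQ]
        linarith
      · rw [hQ]
        linarith

lemma area_ring_pos (m M : ℕ) (hn : m + 2 = M + 4) :
    0 < area (gA (rot m) (CC (rot m) M)) {x | QQ (rot m) x < 1 / 4} := by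
  have hA := isRot_rot m
  refine lt_of_lt_of_le (ENNReal.ofReal_pos.2 (Fk_pos m M)) ?_
  refine lower_ring hA hn le_rfl ?_ ?_ le_rfl
  · refine (isBounded_iff_forall_norm_le.2 ⟨2, fun x hx => ?_⟩)
    exact (norm_lt_two hA hx).le
  · exact (isOpen_lt (contDiff_Q (rot m)).continuous continuous_const).measurableSet

end rotation

end Pool.Agent.GBC
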