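import Pool.Agent.GBC.RLower

/-!
# The mean curvature of the horizon of the ring metric
-/

namespace Pool.Agent.GBC

open MeasureTheory Metric Set Filter Topology Real
open scoped ContDiff

variable {n : ℕ} {A : E n →L[ℝ] E n} {M : ℕ}

lemma pd_Q (hA : IsSkew A) (j : Fin n) (y : E n) : pd j (QQ A) y = (gQ A y) j := by
  rw [pd_of (hasF_Q hA y) j, innerSL_apply_apply, inner_ev]

lemma inv_gA_gQ (hA : IsRot A) (y : E n) (i : Fin n) :
    ∑ j, (gA A (CC A M) y)⁻¹ i j * (gQ A y) j = (gQ A y) i := by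
  have hK := (KK_pos (M := M) hA y).ne'
  have h1 : ∀ j, (gA A (CC A M) y)⁻¹ i j * (gQ A y) j =
      (1 : Matrix (Fin n) (Fin n) ℝ) i j * (gQ A y) j -
      (CC A M y / (1 + ‖A y‖ ^ 2 * CC A M y) * (A y) i) * ((A y) j * (gQ A y) j) := by
    intro j
    rw [inv_gA (CC A M) y hK, gAi]
    ring
  simp only [h1, Finset.sum_sub_distrib, ← Finset.mul_sum, sum_mul_eq_inner, inner_A_gQ hA]
  simp [Matrix.one_apply]

lemma inv_gA_gQ2 (hA : IsRot A) (y : E n) :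
    ∑ j, ∑ k, (gA A (CC A M) y)⁻¹ j k * (gQ A y) j * (gQ A y) k = ‖gQ A y‖ ^ 2 := by
  have h1 : ∀ j, ∑ k, (gA A (CC A M) y)⁻¹ j k * (gQ A y) j * (gQ A y) k =
      (gQ A y) j * (gQ A y) j := by
    intro j
    have h2 : ∀ k, (gA A (CC A M) y)⁻¹ j k * (gQ A y) j * (gQ A y) k =
        (gQ A y) j * ((gA A (CC A M) y)⁻¹ j k * (gQ A y) k) := fun k => by ring
    simp only [h2, ← Finset.mul_sum]
    rw [inv_gA_gQ hA y j]
  simp only [h1, sum_mul_eq_inner, real_inner_self_eq_norm_sq]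

lemma sqrtKK_near (hA : IsRot A) {y : E n} (h1 : 1 / 8 ≤ QQ A y) (h2 : QQ A y ≤ 1 / 2) :
    √(KK A M y) = cc M * Lam A M y * ‖gQ A y‖ := by
  have hQ0 : 0 < QQ A y := by linarith
  have h3 := Lam_sq (M := M) hA hQ0
  rw [KK_eq_Wsq h1 h2, ← h3, ← mul_pow, sqrt_sq]
  have := cc_pos M
  have := Lam_pos (M := M) hA hQ0
  positivity

lemma norm_gQ_pos (hA : IsRot A) {y : E n} (h1 : 0 < QQ A y) (h2 : QQ A y < 1) :
    0 < ‖gQ A y‖ := by
  have h3 := r_pos y h2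
  have h4 : 0 < ‖y‖ ^ 2 := lt_of_lt_of_le h3 (normA_le hA y)
  have h5 := norm_gQ hA y
  have h6 : 0 < ‖gQ A y‖ ^ 2 := by
    rw [h5]
    positivity
  by_contra hc
  have h7 : ‖gQ A y‖ = 0 := le_antisymm (not_lt.1 hc) (norm_nonneg _)
  rw [h7] at h6
  norm_num at h6

/-- The level set `Q = 1/4` is minimal. -/
theorem meanCurv_ring (hA : IsRot A) (hn : n = M + 4) {x : E n} (hx : QQ A x = 1 / 4) :
    meanCurv (gA A (CC A M)) (QQ A) x = 0 := by
  unfold meanCurv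
  have hQ0 : 0 < QQ A x := by
    rw [hx]
    norm_num
  have h1 : ∀ i, (fun y : E n => dens (gA A (CC A M)) y * ((∑ j, (gA A (CC A M) y)⁻¹ i j *
      pd j (QQ A) y) / √(∑ j, ∑ k, (gA A (CC A M) y)⁻¹ j k * pd j (QQ A) y * pd k (QQ A) y)))
      =ᶠ[𝓝 x] fun y => ((cc M * Lam A M y) • gQ A y) i := by
    intro i
    have hQc : Continuous (QQ A) := (contDiff_Q A).continuous
    have a1 : {y : E n | 1 / 8 < QQ A y} ∈ 𝓝 x :=
      (isOpen_lt continuous_const hQc).mem_nhds (by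
        change 1 / 8 < QQ A x
        rw [hx]
        norm_num)
    have a2 : {y : E n | QQ A y < 1 / 2} ∈ 𝓝 x :=
      (isOpen_lt hQc continuous_const).mem_nhds (by
        change QQ A x < 1 / 2
        rw [hx]
        norm_num)
    filter_upwards [a1, a2] with y hy1 hy2
    have hy1' : 1 / 8 < QQ A y := hy1
    have hy2' : QQ A y < 1 / 2 := hy2
    have hg := norm_gQ_pos hA (y := y) (by linarith) (by linarith)
    simp only [pd_Q hA.skew, inv_gA_gQ hA, inv_gA_gQ2 hA, dens_G, sqrt_sq (norm_nonneg _),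
      sqrtKK_near hA hy1'.le hy2'.le]
    change _ = (cc M * Lam A M y) * (gQ A y) i
    field_simp
  have h2 : ∀ i, pd i (fun y : E n => dens (gA A (CC A M)) y * ((∑ j, (gA A (CC A M) y)⁻¹ i j *
      pd j (QQ A) y) / √(∑ j, ∑ k, (gA A (CC A M) y)⁻¹ j k * pd j (QQ A) y * pd k (QQ A) y))) x =
      pd i (fun y => ((cc M * Lam A M y) • gQ A y) i) x := by
    intro i
    unfold pd at h1 ⊢
    rw [(h1 i).fderiv_eq]
  simp only [h2]
  obtain ⟨L, hL, hdiv⟩ := Lam_div (M := M) hA hn hQ0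
  have h0 : hh (QQ A x) = 0 := hh_of_le (by rw [hx]; norm_num)
  have h0' : deriv hh (QQ A x) = 0 := by
    have e1 : hh =ᶠ[𝓝 (QQ A x)] fun _ => 0 := by
      have : Iio (3 / 4 : ℝ) ∈ 𝓝 (QQ A x) := Iio_mem_nhds (by rw [hx]; norm_num)
      filter_upwards [this] with q hq
      exact hh_of_le (le_of_lt hq)
    rw [e1.deriv_eq]
    simp
  rw [h0, h0'] at hdiv
  rw [div_mul_gQ hA (hL.const_mul (cc M))]
  simp only [_root_.smul_apply, smul_eq_mul]
  have h3 : cc M * L (gQ A x) + cc M * Lam A M x * (4 * n * (‖x‖ ^ 2 + 1) + 8 * ‖x‖ ^ 2 - 16) =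
      cc M * (L (gQ A x) + Lam A M x * (4 * n * (‖x‖ ^ 2 + 1) + 8 * ‖x‖ ^ 2 - 16)) := by ring
  rw [h3, hdiv]
  ring

end Pool.Agent.GBC
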