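import Pool.Agent.GBC.RArea

/-!
# Areas for the ring metric: lower bounds
-/

namespace Pool.Agent.GBC

open MeasureTheory Metric Set Filter Topology Real
open scoped ContDiff

variable {n : ℕ} {A : E n →L[ℝ] E n} {M : ℕ}

/-- The scalar factor with cutoffs. -/
noncomputable def lam (A : E n →L[ℝ] E n) (M : ℕ) (k q₀ R₁ : ℝ) (x : E n) : ℝ :=
  chQ A k q₀ x * (1 - smoothTransition (‖x‖ ^ 2 - R₁)) * (cc M * Lam A M x)

lemma lam_of_le {k q₀ R₁ : ℝ} (hk : 0 < k) {x : E n} (hx : QQ A x ≤ q₀ - 1 / k) :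
    lam A M k q₀ R₁ x = 0 := by
  rw [lam, chQ, chi_of_le hk hx, zero_mul, zero_mul]

lemma Lam_contDiffAt (hA : IsRot A) {x : E n} (hx : 0 < QQ A x) :
    ContDiffAt ℝ ∞ (Lam A M) x := by
  have cQ : ContDiffAt ℝ ∞ (QQ A) x := (contDiff_Q A).contDiffAt
  have cP : ContDiffAt ℝ ∞ (PF A) x := by
    unfold PF
    exact ((contDiff_rN A).add ((hh_contDiff.comp (contDiff_Q A)).mul (contDiff_Q A))).contDiffAt
  unfold Lam
  exact (cQ.rpow_const_of_ne hx.ne').mul (cP.rpow_const_of_ne (PF_pos hA hx).ne')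

lemma lam_contDiff (hA : IsRot A) {k q₀ R₁ : ℝ} (hk : 0 < k) (hkq : 1 / k < q₀) :
    ContDiff ℝ ∞ (lam A M k q₀ R₁) := by
  rw [contDiff_iff_contDiffAt]
  intro x
  rcases lt_or_ge 0 (QQ A x) with hx | hx
  · unfold lam
    have h1 : ContDiff ℝ ∞ fun x : E n => 1 - smoothTransition (‖x‖ ^ 2 - R₁) :=
      contDiff_const.sub (smoothTransition.contDiff.comp (contDiff_sN.sub contDiff_const))
    exact ((chQ_contDiff A k q₀).contDiffAt.mul h1.contDiffAt).mul
      (contDiffAt_const.mul (Lam_contDiffAt hA hx))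
  · refine (contDiffAt_const (c := (0 : ℝ))).congr_of_eventuallyEq ?_
    have h1 : QQ A x < q₀ - 1 / k := by linarith
    filter_upwards [(isOpen_lt (contDiff_Q A).continuous continuous_const).mem_nhds h1] with y hy
    exact lam_of_le hk (le_of_lt hy)

lemma lam_compact {k q₀ R₁ : ℝ} (hR : 0 ≤ R₁) : HasCompactSupport (lam A M k q₀ R₁) := by
  refine HasCompactSupport.intro (isCompact_closedBall (0 : E n) (R₁ + 1)) fun x hx => ?_
  rw [mem_closedBall_zero_iff, not_le] at hx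
  have : R₁ + 1 ≤ ‖x‖ ^ 2 := by nlinarith
  rw [lam, smoothTransition.one_of_one_le (by linarith)]
  ring

lemma lamg_contDiff (hA : IsRot A) {k q₀ R₁ : ℝ} (hk : 0 < k) (hkq : 1 / k < q₀) :
    ContDiff ℝ ∞ fun x => lam A M k q₀ R₁ x • gQ A x :=
  (lam_contDiff hA hk hkq).smul (contDiff_gQ A)

lemma lamg_compact {k q₀ R₁ : ℝ} (hR : 0 ≤ R₁) :
    HasCompactSupport fun x => lam A M k q₀ R₁ x • gQ A x := by
  refine (lam_compact (A := A) (M := M) (k := k) (q₀ := q₀) hR).mono fun x hx => ?_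
  rw [Function.mem_support] at hx ⊢
  intro h0
  exact hx (by rw [h0, zero_smul])

lemma lam_sq_le (hA : IsRot A) {k R₁ : ℝ} (hk : 8 ≤ k) (x : E n) :
    lam A M k (1 / 4) R₁ x ^ 2 * ‖gQ A x‖ ^ 2 ≤ KK A M x := by
  have hk0 : 0 < k := by linarith
  have hk1 : 1 / k ≤ 1 / 8 := one_div_le_one_div_of_le (by norm_num) hk
  rcases le_or_gt (QQ A x) (1 / 4 - 1 / k) with hx | hx
  · rw [lam_of_le hk0 hx]
    have := KK_pos (M := M) hA x
    nlinarith
  · have hQ : 1 / 8 ≤ QQ A x := by linarith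
    have hQ0 : 0 < QQ A x := by linarith
    have h1 := Lam_sq (M := M) hA hQ0
    have h2 := Wsq_le_KK (M := M) hA hQ
    have e3 : 0 ≤ chQ A k (1 / 4) x * (1 - smoothTransition (‖x‖ ^ 2 - R₁)) :=
      mul_nonneg (chi_nonneg _ _ _) (by linarith [smoothTransition.le_one (‖x‖ ^ 2 - R₁)])
    have e4 : chQ A k (1 / 4) x * (1 - smoothTransition (‖x‖ ^ 2 - R₁)) ≤ 1 := by
      calc _ ≤ (1 : ℝ) * 1 := mul_le_mul (chi_le_one _ _ _)
            (by linarith [smoothTransition.nonneg (‖x‖ ^ 2 - R₁)])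
            (by linarith [smoothTransition.le_one (‖x‖ ^ 2 - R₁)]) zero_le_one
        _ = 1 := one_mul _
    have e5 : (chQ A k (1 / 4) x * (1 - smoothTransition (‖x‖ ^ 2 - R₁))) ^ 2 ≤ 1 :=
      pow_le_one₀ e3 e4
    rw [lam, mul_pow, mul_assoc, h1]
    calc _ ≤ 1 * Wsq A M x := mul_le_mul_of_nonneg_right e5 (Wsq_nonneg hA x)
      _ ≤ KK A M x := by rw [one_mul]; exact h2

/-- The calibrating field. -/
noncomputable def cal (A : E n →L[ℝ] E n) (M : ℕ) (k R₁ : ℝ) (x : E n) : E n :=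
  (lam A M k (1 / 4) R₁ x / √(KK A M x)) • gQ A x

lemma cal_test (hA : IsRot A) {k R₁ : ℝ} (hk : 8 ≤ k) (hR : 0 ≤ R₁) :
    IsTestField (gA A (CC A M)) (cal A M k R₁) := by
  have hk0 : 0 < k := by linarith
  have hk1 : 1 / k ≤ 1 / 8 := one_div_le_one_div_of_le (by norm_num) hk
  refine ⟨?_, ?_, fun x => ?_⟩
  · have h1 : ContDiff ℝ ∞ fun x => lam A M k (1 / 4) R₁ x / √(KK A M x) :=
      (lam_contDiff hA hk0 (by linarith)).div (sqrtKK_contDiff hA M)
        fun x => (sqrt_pos.2 (KK_pos hA x)).ne'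
    exact h1.smul (contDiff_gQ A)
  · refine (lam_compact (A := A) (M := M) (k := k) (q₀ := 1 / 4) hR).mono fun x hx => ?_
    rw [Function.mem_support] at hx ⊢
    intro h0
    exact hx (by rw [cal, h0, zero_div, zero_smul])
  · rw [quad_gA]
    have h1 : inner ℝ (A x) (cal A M k R₁ x) = 0 := by
      rw [cal, inner_smul_right, inner_A_gQ hA, mul_zero]
    rw [h1, cal, norm_smul, mul_pow, Real.norm_eq_abs, sq_abs, div_pow,
      sq_sqrt (KK_pos hA x).le]
    have h2 := lam_sq_le (M := M) (R₁ := R₁) hA hk x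
    have h3 := KK_pos (M := M) hA x
    have h4 : lam A M k (1 / 4) R₁ x ^ 2 / KK A M x * ‖gQ A x‖ ^ 2 ≤ 1 := by
      rw [div_mul_eq_mul_div, div_le_one h3]
      exact h2
    linarith

lemma dens_cal (hA : IsRot A) {k R₁ : ℝ} (y : E n) :
    dens (gA A (CC A M)) y • cal A M k R₁ y = lam A M k (1 / 4) R₁ y • gQ A y := by
  have hK := sqrt_pos.2 (KK_pos (M := M) hA y)
  rw [dens_G, cal, smul_smul, mul_div_cancel₀ _ hK.ne']

lemma div_extra_nonneg (hA : IsRot A) {x : E n} (hx : 0 < QQ A x) :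
    0 ≤ Lam A M x * (M / (2 * PF A x) * (16 * ‖x‖ ^ 2 * QQ A x ^ 2 * deriv hh (QQ A x) +
        8 * hh (QQ A x) * QQ A x * (‖x‖ ^ 2 + 1))) := by
  have h1 := (Lam_pos (M := M) hA hx).le
  have h2 := PF_pos hA hx
  have h3 := hh_deriv_nonneg (QQ A x)
  have h4 := hh_nonneg (QQ A x)
  positivity

lemma flux_identity (hA : IsRot A) {k : ℝ} (hk : 8 ≤ k) (x : E n) :
    chi' k (1 / 4) (QQ A x) * (√(KK A M x) * ‖gQ A x‖) =
      chi' k (1 / 4) (QQ A x) * (cc M * Lam A M x * ‖gQ A x‖ ^ 2) := by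
  have hk0 : 0 < k := by linarith
  have hk1 : 1 / k ≤ 1 / 8 := one_div_le_one_div_of_le (by norm_num) hk
  rcases le_or_gt (QQ A x) (1 / 4 - 1 / k) with hx | hx
  · rw [chi'_of_le hk0 hx]
    ring
  rcases le_or_gt (1 / 4) (QQ A x) with hx2 | hx2
  · rw [chi'_of_ge hk0 hx2]
    ring
  have hQ0 : 0 < QQ A x := by linarith
  have h1 := Lam_sq (M := M) hA hQ0
  have h2 : √(KK A M x) = cc M * Lam A M x * ‖gQ A x‖ := by
    rw [KK_eq_Wsq (by linarith) (by linarith), ← h1, ← mul_pow, sqrt_sq]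
    have := cc_pos M
    have := Lam_pos (M := M) hA hQ0
    positivity
  rw [h2]
  ring

lemma le_divDens_cal (hA : IsRot A) (hn : n = M + 4) {k R₁ : ℝ} (hk : 8 ≤ k) {x : E n}
    (hx : ‖x‖ ^ 2 < R₁) :
    chi' k (1 / 4) (QQ A x) * (√(KK A M x) * ‖gQ A x‖) ≤
      divDens (gA A (CC A M)) (cal A M k R₁) x := by
  have hk0 : 0 < k := by linarith
  have hk1 : 1 / k ≤ 1 / 8 := one_div_le_one_div_of_le (by norm_num) hk
  rw [divDens_eq]
  simp only [dens_cal hA]
  rcases le_or_gt (QQ A x) 0 with hq | hq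
  · rw [chi'_of_le hk0 (by linarith), zero_mul]
    have h1 : lam A M k (1 / 4) R₁ =ᶠ[𝓝 x] fun _ => 0 := by
      have h1 : QQ A x < 1 / 4 - 1 / k := by linarith
      filter_upwards [(isOpen_lt (contDiff_Q A).continuous continuous_const).mem_nhds h1] with y hy
      exact lam_of_le hk0 (le_of_lt hy)
    have h2 : HasFDerivAt (lam A M k (1 / 4) R₁) (0 : E n →L[ℝ] ℝ) x :=
      (hasFDerivAt_const (0 : ℝ) x).congr_of_eventuallyEq h1
    rw [div_mul_gQ hA h2, h1.eq_of_nhds]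
    simp
  · obtain ⟨L, hL, hdiv⟩ := Lam_div (M := M) hA hn hq
    have h1 : HasFDerivAt (fun y => chQ A k (1 / 4) y * (cc M * Lam A M y)) _ x :=
      (hasF_chQ hA.skew k (1 / 4) x).fun_mul (hL.const_mul (cc M))
    have h2 : lam A M k (1 / 4) R₁ =ᶠ[𝓝 x] fun y => chQ A k (1 / 4) y * (cc M * Lam A M y) := by
      filter_upwards [(isOpen_lt (contDiff_sN (n := n)).continuous continuous_const).mem_nhds hx]
        with y hy
      have hy' : ‖y‖ ^ 2 < R₁ := hy
      rw [lam, smoothTransition.zero_of_nonpos (by linarith), sub_zero, mul_one]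
    have h3 := h1.congr_of_eventuallyEq h2
    rw [div_mul_gQ hA h3, h2.eq_of_nhds, flux_identity hA hk]
    simp only [_root_.add_apply, _root_.smul_apply, smul_eq_mul, innerSL_apply_apply,
      real_inner_self_eq_norm_sq]
    have h4 := div_extra_nonneg (M := M) hA hq
    rw [← hdiv] at h4
    have h5 : 0 ≤ chQ A k (1 / 4) x * cc M *
        (L (gQ A x) + Lam A M x * (4 * n * (‖x‖ ^ 2 + 1) + 8 * ‖x‖ ^ 2 - 16)) :=
      mul_nonneg (mul_nonneg (chi_nonneg _ _ _) (cc_pos M).le) h4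
    nlinarith [h5]

/-- The area of every enclosing hypersurface is bounded below by the flux integrals. -/
lemma lower_ring (hA : IsRot A) (hn : n = M + 4) {k : ℝ} (hk : 8 ≤ k) {Ω : Set (E n)}
    (hb : Bornology.IsBounded Ω) (hm : MeasurableSet Ω) (hΩ : {x | QQ A x < 1 / 4} ⊆ Ω) :
    ENNReal.ofReal (Fk A M k) ≤ area (gA A (CC A M)) Ω := by
  have hk0 : 0 < k := by linarith
  obtain ⟨R, hR⟩ := isBounded_iff_forall_norm_le.1 hb
  have hX := cal_test (M := M) (R₁ := R ^ 2 + 1) hA hk (by positivity)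
  have h5 : ∀ x ∈ Ω, ‖x‖ ^ 2 < R ^ 2 + 1 := by
    intro x hx
    have := hR x hx
    have := norm_nonneg x
    nlinarith
  have h6 : Fk A M k ≤ ∫ x in Ω, divDens (gA A (CC A M)) (cal A M k (R ^ 2 + 1)) x := by
    have e1 : Fk A M k = ∫ x in Ω, chi' k (1 / 4) (QQ A x) * (√(KK A M x) * ‖gQ A x‖) := by
      rw [Fk, setIntegral_eq_integral_of_forall_compl_eq_zero]
      intro x hx
      have : ¬ QQ A x < 1 / 4 := fun h => hx (hΩ h)
      rw [not_lt] at this
      rw [chi'_of_ge hk0 this, zero_mul]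
    rw [e1]
    refine setIntegral_mono_on (Fk_integrable hA hk0).integrableOn ?_ hm
      fun x hx => le_divDens_cal hA hn hk (h5 x hx)
    have e2 : divDens (gA A (CC A M)) (cal A M k (R ^ 2 + 1)) =
        fun x => ∑ i, pd i (fun y => (lam A M k (1 / 4) (R ^ 2 + 1) y • gQ A y) i) x := by
      funext x
      rw [divDens_eq]
      simp only [dens_cal hA]
    rw [e2]
    have hk1 : 1 / k ≤ 1 / 8 := one_div_le_one_div_of_le (by norm_num) hk
    exact (div_smooth_integrable (lamg_contDiff hA hk0 (by linarith))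
      (lamg_compact (by positivity))).integrableOn
  refine (ENNReal.ofReal_le_ofReal h6).trans ?_
  unfold area
  exact le_iSup₂_of_le _ hX le_rfl

/-- The horizon is outer minimizing. -/
theorem area_ring_le (hA : IsRot A) (hn : n = M + 4) {Ω : Set (E n)}
    (hb : Bornology.IsBounded Ω) (hm : MeasurableSet Ω) (hΩ : {x | QQ A x < 1 / 4} ⊆ Ω) :
    area (gA A (CC A M)) {x | QQ A x < 1 / 4} ≤ area (gA A (CC A M)) Ω := by
  rcases eq_or_ne (area (gA A (CC A M)) Ω) ⊤ with h | h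
  · rw [h]
    exact le_top
  conv_lhs => rw [area]
  refine iSup₂_le fun X hX => ?_
  rw [ENNReal.ofReal_le_iff_le_toReal h]
  refine le_of_tendsto (tendsto_cutQ hA hX) ?_
  filter_upwards [eventually_ge_atTop 8] with k hk
  have hk8 : (8 : ℝ) ≤ (k : ℝ) + 1 := by
    have : (8 : ℝ) ≤ k := by exact_mod_cast hk
    linarith
  refine (upper_ring hA hX hk8).trans ?_
  rw [← ENNReal.ofReal_le_iff_le_toReal h]
  exact lower_ring hA hn hk8 hb hm hΩ

/-- The flux integrals are bounded. -/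
lemma Fk_bounded (hA : IsRot A) (M : ℕ) : ∃ B : ℝ, ∀ k : ℝ, 8 ≤ k → Fk A M k ≤ B := by
  have hZ : ContDiff ℝ ∞ fun x => lam A M 16 (1 / 8) 4 x • gQ A x :=
    lamg_contDiff hA (by norm_num) (by norm_num)
  have hZc : HasCompactSupport fun x => lam A M 16 (1 / 8) 4 x • gQ A x :=
    lamg_compact (by norm_num)
  have hI := div_smooth_integrable hZ hZc
  refine ⟨∫ x, ‖∑ i, pd i (fun y => (lam A M 16 (1 / 8) 4 y • gQ A y) i) x‖, fun k hk => ?_⟩
  have hk0 : 0 < k := by linarith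
  have hk1 : 1 / k ≤ 1 / 8 := one_div_le_one_div_of_le (by norm_num) hk
  have h1 := parts_cut (chQ A k (1 / 4)) (chQ_contDiff A k (1 / 4)) _ hZ hZc
  have h2 : ∀ x, fderiv ℝ (chQ A k (1 / 4)) x (lam A M 16 (1 / 8) 4 x • gQ A x) =
      chi' k (1 / 4) (QQ A x) * (√(KK A M x) * ‖gQ A x‖) := by
    intro x
    rw [flux_identity hA hk, (hasF_chQ hA.skew k (1 / 4) x).fderiv, _root_.smul_apply,
      innerSL_apply_apply, inner_smul_right, real_inner_self_eq_norm_sq, smul_eq_mul]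
    rcases le_or_gt (QQ A x) (1 / 4 - 1 / k) with hx | hx
    · rw [chi'_of_le hk0 hx]
      ring
    rcases le_or_gt (1 / 4) (QQ A x) with hx2 | hx2
    · rw [chi'_of_ge hk0 hx2]
      ring
    have hx3 : ‖x‖ ^ 2 < 4 := by
      have := norm_lt_two hA hx2
      have := norm_nonneg x
      nlinarith
    rw [lam, chQ, chi_of_ge (by norm_num) (by linarith),
      smoothTransition.zero_of_nonpos (by linarith)]
    ring
  simp only [h2] at h1
  rw [Fk, ← h1]
  have h01 : ∀ x, ‖1 - chQ A k (1 / 4) x‖ ≤ 1 := by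
    intro x
    have h3 := chi_nonneg k (1 / 4) (QQ A x)
    have h4 := chi_le_one k (1 / 4) (QQ A x)
    rw [Real.norm_eq_abs, abs_le, chQ]
    constructor <;> linarith
  refine integral_mono (hI.bdd_mul (c := 1) ?_ (Eventually.of_forall h01)) hI.norm fun x => ?_
  · exact (continuous_const.sub (chQ_contDiff A k (1 / 4)).continuous).aestronglyMeasurable
  · refine (le_abs_self _).trans ?_
    rw [abs_mul, ← Real.norm_eq_abs, ← Real.norm_eq_abs]
    calc _ ≤ 1 * ‖∑ i, pd i (fun y => (lam A M 16 (1 / 8) 4 y • gQ A y) i) x‖ :=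
          mul_le_mul_of_nonneg_right (h01 x) (norm_nonneg _)
      _ = _ := one_mul _

end Pool.Agent.GBC
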