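import Pool.Agent.GBC.RFinal

/-!
# The exterior region of the ring metric
-/

namespace Pool.Agent.GBC

open MeasureTheory Metric Set Filter Topology Real
open scoped ContDiff

variable {n : ℕ} {A : E n →L[ℝ] E n}

lemma QQ_smul (t : ℝ) (x : E n) :
    QQ A (t • x) = (t ^ 2 * ‖x‖ ^ 2 + 1) ^ 2 - 4 * (t ^ 2 * ‖A x‖ ^ 2) := by
  rw [QQ, map_smul, norm_smul, norm_smul, mul_pow, mul_pow, Real.norm_eq_abs, sq_abs]

lemma QQ_smul_of_ker {x : E n} (hx : A x = 0) (t : ℝ) : 1 ≤ QQ A (t • x) := by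
  rw [QQ_smul, hx, norm_zero]
  have h : 0 ≤ t ^ 2 * ‖x‖ ^ 2 := by positivity
  nlinarith

/-- Every point of the region can be moved radially inside the region either to the origin or to
infinity. -/
lemma radial {x : E n} (hx : 1 / 4 ≤ QQ A x) :
    (∀ t : ℝ, 0 ≤ t → t ≤ 1 → 1 / 4 ≤ QQ A (t • x)) ∨ (∀ t : ℝ, 1 ≤ t → 1 / 4 ≤ QQ A (t • x)) := by
  by_contra hc
  push Not at hc
  obtain ⟨⟨a, ha0, ha1, ha⟩, b, hb1, hb⟩ := hc
  have h1 : QQ A x = (1 ^ 2 * ‖x‖ ^ 2 + 1) ^ 2 - 4 * (1 ^ 2 * ‖A x‖ ^ 2) := by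
    rw [QQ]
    ring
  rw [QQ_smul] at ha hb
  rw [h1] at hx
  have ha2 : a ^ 2 ≤ 1 := pow_le_one₀ ha0 ha1
  have hb2 : 1 ≤ b ^ 2 := one_le_pow₀ hb1
  generalize ‖x‖ ^ 2 = s at *
  generalize ‖A x‖ ^ 2 = r at *
  generalize a ^ 2 = μ at *
  generalize b ^ 2 = ν at *
  rcases hb2.eq_or_lt with h | h
  · rw [← h] at hb
    linarith
  have h2 : (ν - μ) * ((1 ^ 2 * s + 1) ^ 2 - 4 * (1 ^ 2 * r)) =
      (ν - 1) * ((μ * s + 1) ^ 2 - 4 * (μ * r)) + (1 - μ) * ((ν * s + 1) ^ 2 - 4 * (ν * r)) -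
      s ^ 2 * ((ν - 1) * (1 - μ) * (ν - μ)) := by ring
  have h3 : 0 ≤ s ^ 2 * ((ν - 1) * (1 - μ) * (ν - μ)) := by
    have e1 : 0 ≤ ν - 1 := by linarith
    have e2 : 0 ≤ 1 - μ := by linarith
    have e3 : 0 ≤ ν - μ := by linarith
    positivity
  have h4 : (ν - 1) * ((μ * s + 1) ^ 2 - 4 * (μ * r)) < (ν - 1) * (1 / 4) :=
    mul_lt_mul_of_pos_left ha (by linarith)
  have h5 : (1 - μ) * ((ν * s + 1) ^ 2 - 4 * (ν * r)) ≤ (1 - μ) * (1 / 4) :=
    mul_le_mul_of_nonneg_left hb.le (by linarith)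
  have h6 : (ν - μ) * (1 / 4) ≤ (ν - μ) * ((1 ^ 2 * s + 1) ^ 2 - 4 * (1 ^ 2 * r)) :=
    mul_le_mul_of_nonneg_left hx (by linarith)
  linarith

lemma isPreconnected_outside (hn : 2 ≤ n) : IsPreconnected {x : E n | 2 ≤ ‖x‖} := by
  have h1 : {x : E n | 2 ≤ ‖x‖} =
      (fun p : E n × ℝ => p.2 • p.1) '' (sphere (0 : E n) 1 ×ˢ Ici (2 : ℝ)) := by
    ext x
    constructor
    · intro hx
      have hx' : 2 ≤ ‖x‖ := hx
      have h0 : ‖x‖ ≠ 0 := by linarith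
      refine ⟨(‖x‖⁻¹ • x, ‖x‖), ⟨?_, hx'⟩, ?_⟩
      · rw [mem_sphere_zero_iff_norm, norm_smul, norm_inv, norm_norm, inv_mul_cancel₀ h0]
      · simp only
        rw [smul_smul, mul_inv_cancel₀ h0, one_smul]
    · rintro ⟨⟨y, t⟩, ⟨hy, ht⟩, rfl⟩
      have hy' : ‖y‖ = 1 := mem_sphere_zero_iff_norm.1 hy
      have ht' : 2 ≤ t := ht
      change 2 ≤ ‖t • y‖
      rw [norm_smul, hy', mul_one, Real.norm_eq_abs, abs_of_nonneg (by linarith)]
      exact ht'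
  rw [h1]
  refine IsPreconnected.image (IsPreconnected.prod ?_ isPreconnected_Ici) _ ?_
  · refine isPreconnected_sphere ?_ _ _
    have : ((1 : ℕ) : Cardinal) < Module.rank ℝ (E n) := by
      refine Module.lt_rank_of_lt_finrank ?_
      rw [finrank_euclideanSpace, Fintype.card_fin]
      omega
    simpa using this
  · exact (continuous_snd.smul continuous_fst).continuousOn

lemma isPreconnected_ray (x : E n) (a b : ℝ) : IsPreconnected ((fun t : ℝ => t • x) '' Icc a b) :=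
  isPreconnected_Icc.image _ (continuous_id.smul continuous_const).continuousOn

/-- The exterior region is connected. -/
lemma isConnected_region (hA : IsRot A) (hn : 2 ≤ n) {z : E n} (hz : A z = 0) (hz2 : ‖z‖ = 2) :
    IsConnected {x | 1 / 4 ≤ QQ A x} := by
  have hzM : (1 / 4 : ℝ) ≤ QQ A z := by linarith [Q_of_norm hA hz2.ge]
  refine ⟨⟨z, hzM⟩, isPreconnected_of_forall z fun y hy => ?_⟩
  have hy' : 1 / 4 ≤ QQ A y := hy
  have hSsub : {x : E n | 2 ≤ ‖x‖} ⊆ {x | 1 / 4 ≤ QQ A x} := fun x hx => by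
    change 1 / 4 ≤ QQ A x
    linarith [Q_of_norm hA hx]
  have hzS : z ∈ {x : E n | 2 ≤ ‖x‖} := hz2.ge
  have inner_case : (∀ t : ℝ, 0 ≤ t → t ≤ 1 → 1 / 4 ≤ QQ A (t • y)) →
      ∃ t ⊆ {x | 1 / 4 ≤ QQ A x}, z ∈ t ∧ y ∈ t ∧ IsPreconnected t := by
    intro h
    refine ⟨((fun t : ℝ => t • z) '' Icc 0 1) ∪ ((fun t : ℝ => t • y) '' Icc 0 1), ?_, ?_, ?_, ?_⟩
    · rintro x (⟨t, ht, rfl⟩ | ⟨t, ht, rfl⟩)
      · change 1 / 4 ≤ QQ A (t • z)
        linarith [QQ_smul_of_ker hz t]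
      · exact h t ht.1 ht.2
    · exact Or.inl ⟨1, ⟨zero_le_one, le_rfl⟩, one_smul _ _⟩
    · exact Or.inr ⟨1, ⟨zero_le_one, le_rfl⟩, one_smul _ _⟩
    · exact IsPreconnected.union (0 : E n) ⟨0, ⟨le_rfl, zero_le_one⟩, zero_smul _ _⟩
        ⟨0, ⟨le_rfl, zero_le_one⟩, zero_smul _ _⟩ (isPreconnected_ray _ _ _)
        (isPreconnected_ray _ _ _)
  rcases eq_or_ne y 0 with h0 | h0
  · refine inner_case fun t _ _ => ?_
    rw [h0, smul_zero, ← h0]
    exact hy'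
  rcases radial hy' with h | h
  · exact inner_case h
  · have hy0 : 0 < ‖y‖ := norm_pos_iff.2 h0
    set T : ℝ := max 1 (2 / ‖y‖) with hT
    have hT1 : 1 ≤ T := le_max_left _ _
    have hT2 : 2 ≤ ‖T • y‖ := by
      rw [norm_smul, Real.norm_eq_abs, abs_of_nonneg (by linarith)]
      have : 2 / ‖y‖ ≤ T := le_max_right _ _
      rw [div_le_iff₀ hy0] at this
      exact this
    refine ⟨{x : E n | 2 ≤ ‖x‖} ∪ ((fun t : ℝ => t • y) '' Icc 1 T), ?_, ?_, ?_, ?_⟩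
    · rintro x (hx | ⟨t, ht, rfl⟩)
      · exact hSsub hx
      · exact h t ht.1
    · exact Or.inl hzS
    · exact Or.inr ⟨1, ⟨le_rfl, hT1⟩, one_smul _ _⟩
    · exact IsPreconnected.union (T • y) hT2 ⟨T, ⟨hT1, le_rfl⟩, rfl⟩
        (isPreconnected_outside hn) (isPreconnected_ray _ _ _)

/-- The region is an exterior region. -/
theorem isExteriorRegion_ring {m : ℕ} (hm : 1 ≤ m) : IsExteriorRegion (QQ (rot m)) (1 / 4) := by
  have hA := isRot_rot m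
  refine ⟨contDiff_Q _, fun x hx h => ?_, ?_, ?_, ?_⟩
  · have h1 := norm_gQ_pos hA (y := x) (by rw [hx]; norm_num) (by rw [hx]; norm_num)
    rw [(hasF_Q hA.skew x).fderiv] at h
    have h2 := congrArg (fun L : E (m + 2) →L[ℝ] ℝ => L (gQ (rot m) x)) h
    simp only [innerSL_apply_apply, real_inner_self_eq_norm_sq, _root_.zero_apply] at h2
    have h3 : 0 < ‖gQ (rot m) x‖ ^ 2 := by positivity
    linarith
  · refine ⟨√(3 / 2) • (ev 0 : E (m + 2)), ?_⟩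
    change QQ (rot m) (√(3 / 2) • (ev 0 : E (m + 2))) = 1 / 4
    rw [QQ_smul_ev_zero, sq_sqrt (by norm_num)]
    norm_num
  · refine isBounded_iff_forall_norm_le.2 ⟨2, fun x hx => ?_⟩
    by_contra hc
    rw [not_le] at hc
    have h1 := Q_of_norm hA hc.le
    have h2 : QQ (rot m) x ≤ 1 / 4 := hx
    linarith
  · have h2 : (2 : ℕ) < m + 2 := by omega
    refine isConnected_region (z := (2 : ℝ) • (ev ⟨2, h2⟩ : E (m + 2))) hA (by omega) ?_ ?_
    · rw [map_smul, rot_apply]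
      have e0 : (ev ⟨2, h2⟩ : E (m + 2)) 0 = 0 := by
        rw [coord_ev, Matrix.one_apply, if_neg]
        intro h
        have := congrArg Fin.val h
        simp at this
      have e1 : (ev ⟨2, h2⟩ : E (m + 2)) 1 = 0 := by
        rw [coord_ev, Matrix.one_apply, if_neg]
        intro h
        have := congrArg Fin.val h
        simp at this
      rw [e0, e1]
      simp
    · rw [norm_smul, norm_ev, mul_one]
      norm_num

end Pool.Agent.GBC
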