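import Pool.Agent.GBC.Chris

/-!
# The curvature tensor of `δ + C(|x|²) Jx ⊗ Jx` in closed form
-/

namespace Pool.Agent.GBC

open MeasureTheory Metric Set Filter Topology Real

variable {n : ℕ} {J : E n →L[ℝ] E n}

/-- The 2-form `ω`. -/
noncomputable def om (J : E n →L[ℝ] E n) (p q : E n) : ℝ := inner ℝ (J p) q

/-- The 2-form `W = X ∧ Y`. -/
noncomputable def WW (J : E n →L[ℝ] E n) (x p q : E n) : ℝ :=
  inner ℝ x p * inner ℝ (J x) q - inner ℝ x q * inner ℝ (J x) p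

/-- The curvature tensor in closed form. -/
noncomputable def Rf (J : E n →L[ℝ] E n) (x : E n) (c c1 d : ℝ) (p q s t : E n) : ℝ :=
  - c * (om J p s * om J q t - om J p t * om J q s + 2 * (om J p q * om J s t)) -
  c1 * (2 * (om J p q * WW J x s t) + 2 * (WW J x p q * om J s t) + om J p s * WW J x q t +
    om J q t * WW J x p s - om J p t * WW J x q s - om J q s * WW J x p t) +
  (c ^ 2 - c1) * (inner ℝ (J x) q * inner ℝ (J x) t * inner ℝ p s -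
    inner ℝ (J x) p * inner ℝ (J x) t * inner ℝ q s +
    inner ℝ (J x) p * inner ℝ (J x) s * inner ℝ q t -
    inner ℝ (J x) q * inner ℝ (J x) s * inner ℝ p t) +
  d * (WW J x p q * WW J x s t)

/-- The coefficient of `W ⊗ W`. -/
noncomputable def dd (C C1 C2 : ℝ → ℝ) (z : ℝ) : ℝ :=
  - 2 * C2 z + (C1 z * (C z + z * C1 z) + C z * (C1 z - C z ^ 2)) / (1 + z * C z)

lemma pd_chris (hJ : IsCx J) {C C1 C2 : ℝ → ℝ} (hC : ∀ z, HasDerivAt C (C1 z) z)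
    (hC1 : ∀ z, HasDerivAt C1 (C2 z) z) (hK : ∀ z, 0 ≤ z → 1 + z * C z ≠ 0)
    (x : E n) (i m j l : Fin n) :
    pd i (christoffel (gJ J C) m j l) x =
      x m * (- (2 * C2 (‖x‖ ^ 2) * x i * ((J x) j * (J x) l)) -
        C1 (‖x‖ ^ 2) * ((J (ev i)) j * (J x) l + (J x) j * (J (ev i)) l)) +
      (J x) m * (2 * beta1 C C1 C2 (‖x‖ ^ 2) * x i * (x j * (J x) l + x l * (J x) j) +
        beta C C1 (‖x‖ ^ 2) * ((ev i : E n) j * (J x) l + x j * (J (ev i)) l +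
          (ev i : E n) l * (J x) j + x l * (J (ev i)) j)) +
      (ev i : E n) m * (- C1 (‖x‖ ^ 2) * ((J x) j * (J x) l)) +
      (J (ev i)) m * (beta C C1 (‖x‖ ^ 2) * (x j * (J x) l + x l * (J x) j)) +
      (J (ev j)) m * (2 * C1 (‖x‖ ^ 2) * x i * (J x) l + C (‖x‖ ^ 2) * (J (ev i)) l) +
      (J (ev l)) m * (2 * C1 (‖x‖ ^ 2) * x i * (J x) j + C (‖x‖ ^ 2) * (J (ev i)) j) := by
  have h1 : christoffel (gJ J C) m j l = fun y =>
      - C1 (‖y‖ ^ 2) * ((J y) j * (J y) l * y m) +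
      beta C C1 (‖y‖ ^ 2) * ((y j * (J y) l + y l * (J y) j) * (J y) m) +
      C (‖y‖ ^ 2) * ((J y) l * (J (ev j)) m + (J y) j * (J (ev l)) m) := by
    funext y
    exact chris_gJ hJ y (hC _) (hK _ (sq_nonneg _)) m j l
  have hF1 := (hasF_sq C1 _ x (hC1 _)).neg
  have hFb := hasF_sq (beta C C1) _ x (hasDerivAt_beta (hC _) (hC1 _) (hK _ (sq_nonneg ‖x‖)))
  have hF0 := hasF_sq C _ x (hC _)
  have hx : ∀ a : Fin n, HasFDerivAt (fun y : E n => y a) _ x := fun a => hasF_coord a x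
  have hY : ∀ a : Fin n, HasFDerivAt (fun y : E n => (J y) a) _ x := fun a => hasF_J (J := J) a x
  have h := ((hF1.fun_mul (((hY j).fun_mul (hY l)).fun_mul (hx m))).fun_add
    (hFb.fun_mul ((((hx j).fun_mul (hY l)).fun_add ((hx l).fun_mul (hY j))).fun_mul (hY m)))).fun_add
    (hF0.fun_mul (((hY l).fun_mul (hasFDerivAt_const ((J (ev j)) m) x)).fun_add
      ((hY j).fun_mul (hasFDerivAt_const ((J (ev l)) m) x))))
  have h2 := pd_of h i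
  rw [h1]
  refine h2.trans ?_
  simp [innerSL_apply_apply, inner_ev]
  split_ifs <;> ring

/-- The quadratic terms. -/
lemma quad_chris (hJ : IsCx J) {C C1 : ℝ → ℝ} (hC : ∀ z, HasDerivAt C (C1 z) z)
    (hK : ∀ z, 0 ≤ z → 1 + z * C z ≠ 0) (x : E n) (i m j l : Fin n) :
    ∑ p, christoffel (gJ J C) m i p x * christoffel (gJ J C) p j l x =
      x m * (- C1 (‖x‖ ^ 2) * (J x) i * ((‖x‖ ^ 2 * beta C C1 (‖x‖ ^ 2) + C (‖x‖ ^ 2)) *
        (x j * (J x) l + x l * (J x) j)) - C (‖x‖ ^ 2) * (J x) i * (beta C C1 (‖x‖ ^ 2) *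
        (x j * (J x) l + x l * (J x) j))) +
      (J x) m * (beta C C1 (‖x‖ ^ 2) * x i * ((‖x‖ ^ 2 * beta C C1 (‖x‖ ^ 2) + C (‖x‖ ^ 2)) *
        (x j * (J x) l + x l * (J x) j)) - beta C C1 (‖x‖ ^ 2) * (J x) i *
        ((‖x‖ ^ 2 * C1 (‖x‖ ^ 2) + 2 * C (‖x‖ ^ 2)) * ((J x) j * (J x) l)) -
        C (‖x‖ ^ 2) * (J x) i * (C1 (‖x‖ ^ 2) * ((J x) j * (J x) l))) +
      (J (ev i)) m * (C (‖x‖ ^ 2) * ((‖x‖ ^ 2 * beta C C1 (‖x‖ ^ 2) + C (‖x‖ ^ 2)) *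
        (x j * (J x) l + x l * (J x) j))) +
      (ev j : E n) m * (- C (‖x‖ ^ 2) ^ 2 * ((J x) i * (J x) l)) +
      (ev l : E n) m * (- C (‖x‖ ^ 2) ^ 2 * ((J x) i * (J x) j)) := by
  have h1 : ∀ p, christoffel (gJ J C) m i p x * christoffel (gJ J C) p j l x =
      (- C1 (‖x‖ ^ 2) * (J x) i * x m + beta C C1 (‖x‖ ^ 2) * x i * (J x) m +
        C (‖x‖ ^ 2) * (J (ev i)) m) * (- C1 (‖x‖ ^ 2) * ((J x) j * (J x) l)) * ((J x) p * x p) +
      (- C1 (‖x‖ ^ 2) * (J x) i * x m + beta C C1 (‖x‖ ^ 2) * x i * (J x) m +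
        C (‖x‖ ^ 2) * (J (ev i)) m) * (beta C C1 (‖x‖ ^ 2) * (x j * (J x) l + x l * (J x) j)) *
          ((J x) p * (J x) p) +
      (- C1 (‖x‖ ^ 2) * (J x) i * x m + beta C C1 (‖x‖ ^ 2) * x i * (J x) m +
        C (‖x‖ ^ 2) * (J (ev i)) m) * (C (‖x‖ ^ 2) * (J x) l) * ((J x) p * (J (ev j)) p) +
      (- C1 (‖x‖ ^ 2) * (J x) i * x m + beta C C1 (‖x‖ ^ 2) * x i * (J x) m +
        C (‖x‖ ^ 2) * (J (ev i)) m) * (C (‖x‖ ^ 2) * (J x) j) * ((J x) p * (J (ev l)) p) +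
      (beta C C1 (‖x‖ ^ 2) * (J x) i * (J x) m) * (- C1 (‖x‖ ^ 2) * ((J x) j * (J x) l)) *
        (x p * x p) +
      (beta C C1 (‖x‖ ^ 2) * (J x) i * (J x) m) *
        (beta C C1 (‖x‖ ^ 2) * (x j * (J x) l + x l * (J x) j)) * (x p * (J x) p) +
      (beta C C1 (‖x‖ ^ 2) * (J x) i * (J x) m) * (C (‖x‖ ^ 2) * (J x) l) *
        (x p * (J (ev j)) p) +
      (beta C C1 (‖x‖ ^ 2) * (J x) i * (J x) m) * (C (‖x‖ ^ 2) * (J x) j) *
        (x p * (J (ev l)) p) +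
      (- C (‖x‖ ^ 2) * (J x) i) * (- C1 (‖x‖ ^ 2) * ((J x) j * (J x) l)) *
        ((J (ev m)) p * x p) +
      (- C (‖x‖ ^ 2) * (J x) i) * (beta C C1 (‖x‖ ^ 2) * (x j * (J x) l + x l * (J x) j)) *
        ((J (ev m)) p * (J x) p) +
      (- C (‖x‖ ^ 2) * (J x) i) * (C (‖x‖ ^ 2) * (J x) l) * ((J (ev m)) p * (J (ev j)) p) +
      (- C (‖x‖ ^ 2) * (J x) i) * (C (‖x‖ ^ 2) * (J x) j) * ((J (ev m)) p * (J (ev l)) p) := by
    intro p
    rw [chris_gJ hJ x (hC _) (hK _ (sq_nonneg _)), chris_gJ hJ x (hC _) (hK _ (sq_nonneg _)),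
      Jev_skew hJ p m]
    ring
  rw [Finset.sum_congr rfl fun p _ => h1 p]
  simp only [Finset.sum_add_distrib, ← Finset.mul_sum, sum_mul_eq_inner, inner_J_J hJ]
  have e1 : inner ℝ (J x) x = 0 := inner_J_self hJ x
  have e2 : inner ℝ x (J x) = 0 := inner_self_J hJ x
  have e3 : inner ℝ x x = ‖x‖ ^ 2 := real_inner_self_eq_norm_sq x
  have e4 : ∀ a : Fin n, inner ℝ x (J (ev a)) = - (J x) a := by
    intro a
    have := hJ.skew x (ev a)
    rw [inner_ev] at this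
    linarith
  have e5 : ∀ a : Fin n, inner ℝ (J (ev a)) x = - (J x) a := by
    intro a
    rw [hJ.skew, ev_inner]
  have e6 : ∀ a b : Fin n, inner ℝ (ev a : E n) (ev b) = (ev b : E n) a := fun a b => ev_inner _ _
  rw [e1, e2, e3, e4, e4, e5, e6, e6, inner_ev, inner_ev, ev_inner]
  ring

lemma ev_comm (i j : Fin n) : (ev i : E n) j = (ev j : E n) i := by
  rw [coord_ev, coord_ev, Matrix.one_apply, Matrix.one_apply]
  simp only [eq_comm]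

lemma contract_gJ (hJ : IsCx J) (C : ℝ → ℝ) (x : E n) (i j k l : Fin n)
    (a b ci cj cl di dj dl : ℝ) :
    ∑ m, gJ J C x k m * (x m * a + (J x) m * b + (ev i : E n) m * ci + (ev j : E n) m * cj +
      (ev l : E n) m * cl +
      (J (ev i)) m * di + (J (ev j)) m * dj + (J (ev l)) m * dl) =
    x k * a + (J x) k * b + (ev i : E n) k * ci + (ev j : E n) k * cj + (ev l : E n) k * cl +
      (J (ev i)) k * di + (J (ev j)) k * dj + (J (ev l)) k * dl +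
      C (‖x‖ ^ 2) * (J x) k * (‖x‖ ^ 2 * b + (J x) i * ci + (J x) j * cj + (J x) l * cl +
        x i * di + x j * dj + x l * dl) := by
  have h1 : ∀ m, gJ J C x k m * (x m * a + (J x) m * b + (ev i : E n) m * ci +
      (ev j : E n) m * cj + (ev l : E n) m * cl +
      (J (ev i)) m * di + (J (ev j)) m * dj + (J (ev l)) m * dl) =
      (1 : Matrix (Fin n) (Fin n) ℝ) k m * (x m * a + (J x) m * b + (ev i : E n) m * ci +
      (ev j : E n) m * cj + (ev l : E n) m * cl +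
      (J (ev i)) m * di + (J (ev j)) m * dj + (J (ev l)) m * dl) +
      C (‖x‖ ^ 2) * (J x) k * a * ((J x) m * x m) +
      C (‖x‖ ^ 2) * (J x) k * b * ((J x) m * (J x) m) +
      C (‖x‖ ^ 2) * (J x) k * ci * ((J x) m * (ev i : E n) m) +
      C (‖x‖ ^ 2) * (J x) k * cj * ((J x) m * (ev j : E n) m) +
      C (‖x‖ ^ 2) * (J x) k * cl * ((J x) m * (ev l : E n) m) +
      C (‖x‖ ^ 2) * (J x) k * di * ((J x) m * (J (ev i)) m) +
      C (‖x‖ ^ 2) * (J x) k * dj * ((J x) m * (J (ev j)) m) +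
      C (‖x‖ ^ 2) * (J x) k * dl * ((J x) m * (J (ev l)) m) := by
    intro m
    rw [gJ_apply]
    ring
  rw [Finset.sum_congr rfl fun m _ => h1 m]
  simp only [Finset.sum_add_distrib, ← Finset.mul_sum, sum_mul_eq_inner, inner_J_J hJ]
  have e1 : inner ℝ (J x) x = 0 := inner_J_self hJ x
  have e3 : inner ℝ x x = ‖x‖ ^ 2 := real_inner_self_eq_norm_sq x
  simp only [e1, e3, inner_ev, Matrix.one_apply, ite_mul, one_mul, zero_mul, Finset.sum_ite_eq,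
    Finset.mem_univ, if_true]
  ring

lemma riem_gJ (hJ : IsCx J) {C C1 C2 : ℝ → ℝ} (hC : ∀ z, HasDerivAt C (C1 z) z)
    (hC1 : ∀ z, HasDerivAt C1 (C2 z) z) (hK : ∀ z, 0 ≤ z → 1 + z * C z ≠ 0)
    (x : E n) (i j k l : Fin n) :
    riem (gJ J C) x i j k l = Rf J x (C (‖x‖ ^ 2)) (C1 (‖x‖ ^ 2)) (dd C C1 C2 (‖x‖ ^ 2))
      (ev i) (ev j) (ev k) (ev l) := by
  unfold riem
  have hK0 := hK (‖x‖ ^ 2) (sq_nonneg _)
  have hβ : beta C C1 (‖x‖ ^ 2) * (1 + ‖x‖ ^ 2 * C (‖x‖ ^ 2)) =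
      C1 (‖x‖ ^ 2) - C (‖x‖ ^ 2) ^ 2 := by
    unfold beta
    rw [div_mul_cancel₀ _ hK0]
  have hd1 : dd C C1 C2 (‖x‖ ^ 2) = - 2 * C2 (‖x‖ ^ 2) + C1 (‖x‖ ^ 2) *
      (beta C C1 (‖x‖ ^ 2) * ‖x‖ ^ 2 + C (‖x‖ ^ 2)) + C (‖x‖ ^ 2) * beta C C1 (‖x‖ ^ 2) := by
    unfold dd beta
    generalize hz : ‖x‖ ^ 2 = z at *
    have h : C1 z / (1 + z * C z) * (1 + z * C z) = C1 z := div_mul_cancel₀ _ hK0
    rw [← sub_eq_zero]
    have h2 : (-2 * C2 z + (C1 z * (C z + z * C1 z) + C z * (C1 z - C z ^ 2)) / (1 + z * C z) -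
        (-2 * C2 z + C1 z * ((C1 z - C z ^ 2) / (1 + z * C z) * z + C z) +
        C z * ((C1 z - C z ^ 2) / (1 + z * C z)))) * (1 + z * C z) = 0 := by
      have e1 := div_mul_cancel₀ (C1 z * (C z + z * C1 z) + C z * (C1 z - C z ^ 2)) hK0
      have e2 := div_mul_cancel₀ (C1 z - C z ^ 2) hK0
      linear_combination e1 - (C1 z * z + C z) * e2
    exact (mul_eq_zero.1 h2).resolve_right hK0
  have hd2 : 2 * beta1 C C1 C2 (‖x‖ ^ 2) * (1 + ‖x‖ ^ 2 * C (‖x‖ ^ 2)) +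
      (C1 (‖x‖ ^ 2) - C (‖x‖ ^ 2) ^ 2) * (beta C C1 (‖x‖ ^ 2) * ‖x‖ ^ 2 + C (‖x‖ ^ 2)) +
      3 * C (‖x‖ ^ 2) * C1 (‖x‖ ^ 2) = - dd C C1 C2 (‖x‖ ^ 2) := by
    unfold dd beta beta1
    generalize hz : ‖x‖ ^ 2 = z at *
    rw [← sub_eq_zero]
    set K := 1 + z * C z with hKd
    have h2 : (2 * (((C2 z - 2 * C z * C1 z) * K - (C1 z - C z ^ 2) * (C z + z * C1 z)) / K ^ 2) *
        K + (C1 z - C z ^ 2) * ((C1 z - C z ^ 2) / K * z + C z) + 3 * C z * C1 z -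
        -(-2 * C2 z + (C1 z * (C z + z * C1 z) + C z * (C1 z - C z ^ 2)) / K)) * K = 0 := by
      have e1 := div_mul_cancel₀ (C1 z * (C z + z * C1 z) + C z * (C1 z - C z ^ 2)) hK0
      have e2 := div_mul_cancel₀ (C1 z - C z ^ 2) hK0
      have e3 := div_mul_cancel₀ ((C2 z - 2 * C z * C1 z) * K - (C1 z - C z ^ 2) *
        (C z + z * C1 z)) (pow_ne_zero 2 hK0)
      linear_combination 2 * e3 + (C1 z - C z ^ 2) * z * e2 + e1 +
        (-(2 * C2 z) + 2 * C2 z + (C1 z - C z ^ 2) * C z - C z * C1 z) * hKd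
    exact (mul_eq_zero.1 h2).resolve_right hK0
  have h1 : ∀ m, gJ J C x k m * (pd i (christoffel (gJ J C) m j l) x -
      pd j (christoffel (gJ J C) m i l) x +
      ∑ p, (christoffel (gJ J C) m i p x * christoffel (gJ J C) p j l x -
      christoffel (gJ J C) m j p x * christoffel (gJ J C) p i l x)) =
      gJ J C x k m * (x m * (- 2 * C2 (‖x‖ ^ 2) * (x i * (J x) j - x j * (J x) i) * (J x) l -
        C1 (‖x‖ ^ 2) * (2 * (J (ev i)) j * (J x) l + (J x) j * (J (ev i)) l -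
          (J x) i * (J (ev j)) l) -
        (C1 (‖x‖ ^ 2) * (‖x‖ ^ 2 * beta C C1 (‖x‖ ^ 2) + C (‖x‖ ^ 2)) +
          C (‖x‖ ^ 2) * beta C C1 (‖x‖ ^ 2)) *
          ((J x) i * (x j * (J x) l + x l * (J x) j) - (J x) j * (x i * (J x) l + x l * (J x) i))) +
      (J x) m * ((2 * beta1 C C1 C2 (‖x‖ ^ 2) + beta C C1 (‖x‖ ^ 2) *
        (‖x‖ ^ 2 * beta C C1 (‖x‖ ^ 2) + C (‖x‖ ^ 2))) *
          (x i * (x j * (J x) l + x l * (J x) j) - x j * (x i * (J x) l + x l * (J x) i)) +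
        beta C C1 (‖x‖ ^ 2) * (x j * (J (ev i)) l + (ev i : E n) l * (J x) j +
          2 * x l * (J (ev i)) j - x i * (J (ev j)) l - (ev j : E n) l * (J x) i)) +
      (ev i : E n) m * ((C (‖x‖ ^ 2) ^ 2 - C1 (‖x‖ ^ 2)) * ((J x) j * (J x) l)) +
      (ev j : E n) m * ((C1 (‖x‖ ^ 2) - C (‖x‖ ^ 2) ^ 2) * ((J x) i * (J x) l)) +
      (ev l : E n) m * 0 +
      (J (ev i)) m * ((beta C C1 (‖x‖ ^ 2) + C (‖x‖ ^ 2) *
        (‖x‖ ^ 2 * beta C C1 (‖x‖ ^ 2) + C (‖x‖ ^ 2))) * (x j * (J x) l + x l * (J x) j) -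
        2 * C1 (‖x‖ ^ 2) * x j * (J x) l - C (‖x‖ ^ 2) * (J (ev j)) l) +
      (J (ev j)) m * (2 * C1 (‖x‖ ^ 2) * x i * (J x) l + C (‖x‖ ^ 2) * (J (ev i)) l -
        (beta C C1 (‖x‖ ^ 2) + C (‖x‖ ^ 2) *
        (‖x‖ ^ 2 * beta C C1 (‖x‖ ^ 2) + C (‖x‖ ^ 2))) * (x i * (J x) l + x l * (J x) i)) +
      (J (ev l)) m * (2 * C1 (‖x‖ ^ 2) * (x i * (J x) j - x j * (J x) i) +
        2 * C (‖x‖ ^ 2) * (J (ev i)) j)) := by
    intro m
    rw [Finset.sum_sub_distrib, quad_chris hJ hC hK, quad_chris hJ hC hK, pd_chris hJ hC hC1 hK,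
      pd_chris hJ hC hC1 hK, Jev_skew hJ j i, ev_comm j i]
    ring
  rw [Finset.sum_congr rfl fun m _ => h1 m, contract_gJ hJ]
  simp only [Rf, om, WW, inner_ev]
  rw [Jev_skew hJ l k]
  generalize ‖x‖ ^ 2 = z at *
  linear_combination ((J x) k * (x j * (J (ev i)) l + (ev i : E n) l * (J x) j +
          2 * x l * (J (ev i)) j - x i * (J (ev j)) l - (ev j : E n) l * (J x) i) +
    (x j * (J x) l + x l * (J x) j) * ((J (ev i)) k + C z * (J x) k * x i) -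
    (x i * (J x) l + x l * (J x) i) * ((J (ev j)) k + C z * (J x) k * x j) +
    (J x) k * (beta C C1 z * z + C z) * x l * (x i * (J x) j - x j * (J x) i)) * hβ -
    (x i * (J x) j - x j * (J x) i) * (J x) l * x k * hd1 +
    (x i * (J x) j - x j * (J x) i) * x l * (J x) k * hd2

end Pool.Agent.GBC
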