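import Pool.Agent.GBC.Closed

/-!
# The curvature of `δ + C(x) Ax ⊗ Ax` equals the closed form
-/

namespace Pool.Agent.GBC

open MeasureTheory Metric Set Filter Topology Real
open scoped ContDiff

variable {n : ℕ} {A : E n →L[ℝ] E n} {C : E n → ℝ}

/-- The gradient of `C`. -/
noncomputable def gC (C : E n → ℝ) (x : E n) : E n := WithLp.toLp 2 fun i => pd i C x

lemma gC_apply (C : E n → ℝ) (x : E n) (i : Fin n) : (gC C x) i = pd i C x := rfl

lemma gamL_eq_gml (hA : IsSkew A) (x : E n) (hC : DifferentiableAt ℝ C x) (k i j : Fin n) :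
    gamL (gA A C) k i j x = (gml A x (C x) (gC C x) (ev i) (ev j)) k := by
  rw [gamL_gA hA x hC]
  unfold gml
  simp only [PiLp.add_apply, PiLp.sub_apply, PiLp.smul_apply, smul_eq_mul, inner_ev, gC_apply]
  ring

lemma christoffel_gA (hA : IsSkew A) (x : E n) (hC : DifferentiableAt ℝ C x)
    (hK : 1 + ‖A x‖ ^ 2 * C x ≠ 0) (m i j : Fin n) :
    christoffel (gA A C) m i j x = (gml A x (C x) (gC C x) (ev i) (ev j)) m -
      C x / (1 + ‖A x‖ ^ 2 * C x) * (A x) m *
        inner ℝ (A x) (gml A x (C x) (gC C x) (ev i) (ev j)) := by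
  rw [christoffel_eq, inv_gA C x hK]
  have h1 : ∀ l, gAi A C x m l * gamL (gA A C) l i j x =
      (1 : Matrix (Fin n) (Fin n) ℝ) m l * (gml A x (C x) (gC C x) (ev i) (ev j)) l -
      C x / (1 + ‖A x‖ ^ 2 * C x) * (A x) m *
        ((A x) l * (gml A x (C x) (gC C x) (ev i) (ev j)) l) := by
    intro l
    rw [gamL_eq_gml hA x hC, gAi]
    ring
  simp only [h1, Finset.sum_sub_distrib, ← Finset.mul_sum, sum_mul_eq_inner]
  simp only [Matrix.one_apply, ite_mul, one_mul, zero_mul, Finset.sum_ite_eq, Finset.mem_univ,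
    if_true]

lemma sum_gamL_chris (hA : IsSkew A) (x : E n) (hC : DifferentiableAt ℝ C x)
    (hK : 1 + ‖A x‖ ^ 2 * C x ≠ 0) (i k j l : Fin n) :
    ∑ m, gamL (gA A C) m i k x * christoffel (gA A C) m j l x =
      GG A x (C x) (gC C x) (ev i) (ev k) (ev j) (ev l) := by
  unfold GG
  have h1 : ∀ m, gamL (gA A C) m i k x * christoffel (gA A C) m j l x =
      (gml A x (C x) (gC C x) (ev i) (ev k)) m * (gml A x (C x) (gC C x) (ev j) (ev l)) m -
      C x / (1 + ‖A x‖ ^ 2 * C x) * inner ℝ (A x) (gml A x (C x) (gC C x) (ev j) (ev l)) *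
        ((A x) m * (gml A x (C x) (gC C x) (ev i) (ev k)) m) := by
    intro m
    rw [gamL_eq_gml hA x hC, christoffel_gA hA x hC hK]
    ring
  rw [Finset.sum_congr rfl fun m _ => h1 m, Finset.sum_sub_distrib, ← Finset.mul_sum,
    sum_mul_eq_inner, sum_mul_eq_inner]
  ring

lemma differentiable_gamL (hA : IsSkew A) (hC : ContDiff ℝ ∞ C) (k i j : Fin n) :
    Differentiable ℝ (gamL (gA A C) k i j) := by
  have h : gamL (gA A C) k i j = fun x => 1 / 2 * (pd i C x * ((A x) j * (A x) k) +
      pd j C x * ((A x) i * (A x) k) - pd k C x * ((A x) i * (A x) j)) +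
      C x * ((A x) j * (A (ev i)) k + (A x) i * (A (ev j)) k) := by
    funext x
    exact gamL_gA hA x (hC.differentiable (by simp) x) k i j
  rw [h]
  have hY : ∀ a, Differentiable ℝ fun y : E n => (A y) a := fun a x =>
    (hasF_A (A := A) a x).differentiableAt
  have hp := fun a => differentiable_pd hC a
  have hC' : Differentiable ℝ C := hC.differentiable (by simp)
  refine Differentiable.fun_add (Differentiable.const_mul (Differentiable.fun_sub
    (Differentiable.fun_add ((hp i).fun_mul ((hY j).fun_mul (hY k)))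
    ((hp j).fun_mul ((hY i).fun_mul (hY k)))) ((hp k).fun_mul ((hY i).fun_mul (hY j)))) _)
    (hC'.fun_mul (Differentiable.fun_add ((hY j).mul_const _) ((hY i).mul_const _)))

lemma differentiable_christoffel (hA : IsSkew A) (hC : ContDiff ℝ ∞ C)
    (hK : ∀ x, 1 + ‖A x‖ ^ 2 * C x ≠ 0) (m j l : Fin n) :
    Differentiable ℝ (christoffel (gA A C) m j l) := by
  have h : christoffel (gA A C) m j l = fun x => ∑ p, gAi A C x m p * gamL (gA A C) p j l x := by
    funext x
    rw [christoffel_eq, inv_gA C x (hK x)]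
  rw [h]
  have hY : ∀ a, Differentiable ℝ fun y : E n => (A y) a := fun a x =>
    (hasF_A (A := A) a x).differentiableAt
  have hC' : Differentiable ℝ C := hC.differentiable (by simp)
  have hn : Differentiable ℝ fun y : E n => ‖A y‖ ^ 2 :=
    ((contDiff_norm_sq ℝ).comp A.contDiff).differentiable (by simp : (∞ : WithTop ℕ∞) ≠ 0)
  refine Differentiable.fun_sum fun p _ => ?_
  refine Differentiable.fun_mul ?_ (differentiable_gamL hA hC p j l)
  unfold gAi
  refine Differentiable.const_sub (Differentiable.fun_mul ?_ ((hY m).fun_mul (hY p))) _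
  have hden : Differentiable ℝ fun x : E n => 1 + ‖A x‖ ^ 2 * C x := (hn.fun_mul hC').const_add 1
  intro x
  simp only [div_eq_mul_inv]
  exact (hC' x).fun_mul ((hden x).fun_inv (hK x))

lemma pd_gamL (hA : IsSkew A) (hC : ContDiff ℝ ∞ C) (x : E n) (i k j l : Fin n) :
    pd i (gamL (gA A C) k j l) x = 1 / 2 * (
      (fderiv ℝ (fderiv ℝ C) x (ev i) (ev j) * ((A x) l * (A x) k) +
        pd j C x * ((A (ev i)) l * (A x) k + (A x) l * (A (ev i)) k)) +
      (fderiv ℝ (fderiv ℝ C) x (ev i) (ev l) * ((A x) j * (A x) k) +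
        pd l C x * ((A (ev i)) j * (A x) k + (A x) j * (A (ev i)) k)) -
      (fderiv ℝ (fderiv ℝ C) x (ev i) (ev k) * ((A x) j * (A x) l) +
        pd k C x * ((A (ev i)) j * (A x) l + (A x) j * (A (ev i)) l))) +
      (pd i C x * ((A x) l * (A (ev j)) k + (A x) j * (A (ev l)) k) +
        C x * ((A (ev i)) l * (A (ev j)) k + (A (ev i)) j * (A (ev l)) k)) := by
  have h : gamL (gA A C) k j l = fun x => 1 / 2 * (pd j C x * ((A x) l * (A x) k) +
      pd l C x * ((A x) j * (A x) k) - pd k C x * ((A x) j * (A x) l)) +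
      C x * ((A x) l * (A (ev j)) k + (A x) j * (A (ev l)) k) := by
    funext x
    exact gamL_gA hA x (hC.differentiable (by simp) x) k j l
  have hp : ∀ a, HasFDerivAt (pd a C) (fderiv ℝ (pd a C) x) x := fun a =>
    (differentiable_pd hC a x).hasFDerivAt
  have hY : ∀ a : Fin n, HasFDerivAt (fun y : E n => (A y) a) _ x := fun a => hasF_A (A := A) a x
  have hC' : HasFDerivAt C (fderiv ℝ C x) x := (hC.differentiable (by simp) x).hasFDerivAt
  have hd := ((((((hp j).fun_mul ((hY l).fun_mul (hY k))).fun_add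
    ((hp l).fun_mul ((hY j).fun_mul (hY k)))).fun_sub
    ((hp k).fun_mul ((hY j).fun_mul (hY l)))).const_mul (1 / 2))).fun_add
    (hC'.fun_mul (((hY l).mul_const ((A (ev j)) k)).fun_add ((hY j).mul_const ((A (ev l)) k))))
  have h2 := pd_of hd i
  rw [h]
  refine h2.trans ?_
  have e1 : ∀ a, fderiv ℝ (pd a C) x (ev i) = fderiv ℝ (fderiv ℝ C) x (ev i) (ev a) :=
    fun a => pd_pd hC x i a
  have e2 : fderiv ℝ C x (ev i) = pd i C x := rfl
  simp only [_root_.add_apply, _root_.sub_apply, _root_.smul_apply, smul_eq_mul, e1, e2,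
    ContinuousLinearMap.comp_apply, PiLp.proj_apply]
  ring

theorem riem_gA (hA : IsSkew A) (hC : ContDiff ℝ ∞ C) (hK : ∀ x, 1 + ‖A x‖ ^ 2 * C x ≠ 0)
    (x : E n) (i j k l : Fin n) :
    riem (gA A C) x i j k l = Rg A x (C x) (gC C x) (fderiv ℝ (fderiv ℝ C) x)
      (ev i) (ev j) (ev k) (ev l) := by
  have hC' : DifferentiableAt ℝ C x := hC.differentiable (by simp) x
  rw [riem_gen (gA A C) (gA_symm C) (fun y => by rw [inv_gA C y (hK y), mul_gAi C y (hK y)]) x
    (fun i j => ?_) (fun m j l => differentiable_christoffel hA hC hK m j l x),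
    Finset.sum_sub_distrib, sum_gamL_chris hA x hC' (hK x), sum_gamL_chris hA x hC' (hK x),
    pd_gamL hA hC, pd_gamL hA hC]
  · unfold Rg sec
    simp only [om, inner_ev, gC_apply]
    rw [snd_symm hC x (ev j) (ev i), Aev_skew hA j i, Aev_skew hA l k, Aev_skew hA l j,
      Aev_skew hA l i, Aev_skew hA k i, Aev_skew hA k j]
    ring
  · have hY : ∀ a, Differentiable ℝ fun y : E n => (A y) a := fun a x =>
      (hasF_A (A := A) a x).differentiableAt
    unfold gA
    exact (hC'.fun_mul ((hY i x).fun_mul (hY j x))).const_add _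

end Pool.Agent.GBC
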