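import Pool.Agent.GBC.Rot2

/-!
# The Cassini function and its gradient
-/

namespace Pool.Agent.GBC

open MeasureTheory Metric Set Filter Topology Real
open scoped ContDiff

variable {n : ℕ} {A : E n →L[ℝ] E n}

/-- The Cassini function `(|x|² + 1)² - 4 |Ax|²`. -/
noncomputable def QQ (A : E n →L[ℝ] E n) (x : E n) : ℝ := (‖x‖ ^ 2 + 1) ^ 2 - 4 * ‖A x‖ ^ 2

/-- Its gradient. -/
noncomputable def gQ (A : E n →L[ℝ] E n) (x : E n) : E n :=
  (4 * (‖x‖ ^ 2 + 1)) • x + (8 : ℝ) • A (A x)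

lemma inner_self_A (hA : IsSkew A) (x : E n) : inner ℝ x (A x) = 0 := by
  have h := hA x x
  have h2 := real_inner_comm x (A x)
  linarith

lemma inner_x_AA (hA : IsSkew A) (x v : E n) : inner ℝ (A (A x)) v = - inner ℝ (A x) (A v) :=
  hA _ _

lemma norm_AA (hA : IsRot A) (x : E n) : ‖A (A x)‖ ^ 2 = ‖A x‖ ^ 2 := by
  rw [← real_inner_self_eq_norm_sq, hA.skew, hA.cube, inner_neg_right, neg_neg,
    real_inner_self_eq_norm_sq]

lemma normA_le (hA : IsRot A) (x : E n) : ‖A x‖ ^ 2 ≤ ‖x‖ ^ 2 := by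
  have h1 : ‖A x‖ ^ 2 = - inner ℝ x (A (A x)) := by
    rw [← real_inner_self_eq_norm_sq, hA.skew]
  have h2 : ‖A (A x)‖ = ‖A x‖ := by
    have := norm_AA hA x
    exact (sq_eq_sq₀ (norm_nonneg _) (norm_nonneg _)).1 this
  have h3 : - inner ℝ x (A (A x)) ≤ ‖x‖ * ‖A x‖ := by
    have := abs_real_inner_le_norm x (A (A x))
    rw [h2] at this
    have h4 := neg_abs_le (inner ℝ x (A (A x)))
    linarith
  rcases (norm_nonneg (A x)).eq_or_lt with h | h
  · rw [← h]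
    nlinarith [sq_nonneg ‖x‖]
  · have h5 : ‖A x‖ ≤ ‖x‖ := by
      have : ‖A x‖ * ‖A x‖ ≤ ‖x‖ * ‖A x‖ := by nlinarith
      exact le_of_mul_le_mul_right this h
    exact pow_le_pow_left₀ h.le h5 2

lemma Q_ge (hA : IsRot A) (x : E n) : (‖x‖ ^ 2 - 1) ^ 2 ≤ QQ A x := by
  unfold QQ
  nlinarith [normA_le hA x]

lemma Q_nonneg (hA : IsRot A) (x : E n) : 0 ≤ QQ A x := (sq_nonneg _).trans (Q_ge hA x)

lemma r_pos (x : E n) (hx : QQ A x < 1) : 0 < ‖A x‖ ^ 2 := by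
  unfold QQ at hx
  have := sq_nonneg ‖x‖
  nlinarith

lemma contDiff_sN : ContDiff ℝ ∞ fun x : E n => ‖x‖ ^ 2 := contDiff_norm_sq ℝ

lemma contDiff_rN (A : E n →L[ℝ] E n) : ContDiff ℝ ∞ fun x : E n => ‖A x‖ ^ 2 :=
  (contDiff_norm_sq ℝ).comp A.contDiff

lemma contDiff_Q (A : E n →L[ℝ] E n) : ContDiff ℝ ∞ (QQ A) := by
  unfold QQ
  exact ((contDiff_sN.add contDiff_const).pow 2).sub (contDiff_const.mul (contDiff_rN A))

lemma contDiff_gQ (A : E n →L[ℝ] E n) : ContDiff ℝ ∞ (gQ A) := by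
  unfold gQ
  have h : ContDiff ℝ ∞ fun x : E n => x := contDiff_id
  have h2 : ContDiff ℝ ∞ fun x : E n => (8 : ℝ) • A (A x) :=
    (A.contDiff.comp A.contDiff).const_smul 8
  exact ((contDiff_const.mul (contDiff_sN.add contDiff_const)).smul h).add h2

lemma hasF_r (x : E n) :
    HasFDerivAt (fun y : E n => ‖A y‖ ^ 2) ((2 : ℝ) • (innerSL ℝ (A x)) ∘L A) x := by
  have h := ((hasStrictFDerivAt_norm_sq (A x)).hasFDerivAt).comp x A.hasFDerivAt
  refine h.congr_fderiv ?_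
  ext v
  simp [two_mul]

lemma hasF_s (x : E n) :
    HasFDerivAt (fun y : E n => ‖y‖ ^ 2) ((2 : ℝ) • (innerSL ℝ x)) x := by
  have h := (hasStrictFDerivAt_norm_sq x).hasFDerivAt
  refine h.congr_fderiv ?_
  ext v
  simp [two_mul]

lemma hasF_Q (hA : IsSkew A) (x : E n) : HasFDerivAt (QQ A) (innerSL ℝ (gQ A x)) x := by
  have h := (((hasF_s x).add_const (1 : ℝ)).fun_mul ((hasF_s x).add_const (1 : ℝ))).fun_sub
    ((hasF_r (A := A) x).const_mul 4)
  have h0 : QQ A = fun y => (‖y‖ ^ 2 + 1) * (‖y‖ ^ 2 + 1) - 4 * ‖A y‖ ^ 2 := by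
    funext y
    unfold QQ
    ring
  rw [h0]
  refine h.congr_fderiv ?_
  ext v
  have e : inner ℝ (A (A x)) v = - inner ℝ (A x) (A v) := inner_x_AA hA x v
  simp only [gQ, _root_.sub_apply, _root_.add_apply, _root_.smul_apply, innerSL_apply_apply,
    ContinuousLinearMap.comp_apply, smul_eq_mul, inner_add_left, real_inner_smul_left, e]
  ring

lemma norm_gQ (hA : IsRot A) (x : E n) : ‖gQ A x‖ ^ 2 = 16 * ‖x‖ ^ 2 * QQ A x := by
  have e1 : inner ℝ x (A (A x)) = - ‖A x‖ ^ 2 := by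
    have := hA.skew x (A x)
    rw [real_inner_self_eq_norm_sq] at this
    linarith
  have e2 : inner ℝ (A (A x)) x = - ‖A x‖ ^ 2 := by
    rw [real_inner_comm, e1]
  rw [← real_inner_self_eq_norm_sq]
  simp only [gQ, inner_add_left, inner_add_right, real_inner_smul_left, inner_smul_right,
    real_inner_self_eq_norm_sq, norm_AA hA, e1, e2]
  unfold QQ
  ring

lemma inner_A_gQ (hA : IsRot A) (x : E n) : inner ℝ (A x) (gQ A x) = 0 := by
  have e1 : inner ℝ (A x) x = 0 := by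
    rw [real_inner_comm]
    exact inner_self_A hA.skew x
  have e2 : inner ℝ (A x) (A (A x)) = 0 := inner_self_A hA.skew (A x)
  rw [gQ, inner_add_right, inner_smul_right, inner_smul_right, e1, e2]
  ring

lemma A_gQ (hA : IsRot A) (x : E n) : A (gQ A x) = (4 * (‖x‖ ^ 2 - 1)) • A x := by
  rw [gQ, map_add, map_smul, map_smul, hA.cube]
  module

lemma Dr_gQ (hA : IsRot A) (x : E n) :
    ((2 : ℝ) • (innerSL ℝ (A x)) ∘L A) (gQ A x) = 8 * (‖x‖ ^ 2 - 1) * ‖A x‖ ^ 2 := by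
  simp only [_root_.smul_apply, ContinuousLinearMap.comp_apply, innerSL_apply_apply, A_gQ hA,
    inner_smul_right, real_inner_self_eq_norm_sq, smul_eq_mul]
  ring

lemma DQ_gQ (hA : IsRot A) (x : E n) :
    innerSL ℝ (gQ A x) (gQ A x) = 16 * ‖x‖ ^ 2 * QQ A x := by
  rw [innerSL_apply_apply, real_inner_self_eq_norm_sq, norm_gQ hA]

/-- The divergence of `Λ grad Q`. -/
lemma div_mul_gQ (hA : IsRot A) {Λ : E n → ℝ} {Λ' : E n →L[ℝ] ℝ} {x : E n}
    (hΛ : HasFDerivAt Λ Λ' x) :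
    ∑ i, pd i (fun y => (Λ y • gQ A y) i) x =
      Λ' (gQ A x) + Λ x * (4 * n * (‖x‖ ^ 2 + 1) + 8 * ‖x‖ ^ 2 - 16) := by
  have h1 : ∀ i, HasFDerivAt (fun y : E n => (gQ A y) i)
      ((4 * (‖x‖ ^ 2 + 1)) • (EuclideanSpace.proj i : E n →L[ℝ] ℝ) +
        x i • ((4 : ℝ) • ((2 : ℝ) • (innerSL ℝ x))) +
        (8 : ℝ) • ((EuclideanSpace.proj i : E n →L[ℝ] ℝ) ∘L A ∘L A)) x := by
    intro i
    have e1 := (((hasF_s x).add_const (1 : ℝ)).const_mul 4).fun_mul (hasF_coord i x)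
    have e2 : HasFDerivAt (fun y : E n => (A (A y)) i)
        ((EuclideanSpace.proj i : E n →L[ℝ] ℝ) ∘L A ∘L A) x :=
      ((EuclideanSpace.proj i : E n →L[ℝ] ℝ) ∘L A ∘L A).hasFDerivAt
    exact e1.fun_add (e2.const_mul 8)
  have h2 : ∀ i, pd i (fun y => (Λ y • gQ A y) i) x =
      Λ' (ev i) * (gQ A x) i + Λ x * (4 * (‖x‖ ^ 2 + 1) + 8 * (x i * x i) +
        8 * (A (A (ev i))) i) := by
    intro i
    have e3 := hΛ.fun_mul (h1 i)
    have e4 := pd_of e3 i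
    refine e4.trans ?_
    simp [inner_ev]
    ring
  have h3 : ∑ i, Λ' (ev i) * (gQ A x) i = Λ' (gQ A x) := by
    have := sum_slot (fun v => Λ' v) ⟨fun a b => map_add Λ' a b, fun a b => map_smul Λ' a b⟩
      (gQ A x)
    rw [← this]
    exact Finset.sum_congr rfl fun i _ => mul_comm _ _
  have h4 : ∑ i, (A (A (ev i : E n))) i = -2 := by
    rw [← hA.trace, ← Finset.sum_neg_distrib]
    refine Finset.sum_congr rfl fun i _ => ?_
    rw [← inner_ev (A (A (ev i))) i, hA.skew, real_inner_self_eq_norm_sq]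
  simp only [h2, Finset.sum_add_distrib, h3, ← Finset.mul_sum, sum_mul_eq_inner,
    real_inner_self_eq_norm_sq, h4, Finset.sum_const, Finset.card_univ, Fintype.card_fin,
    nsmul_eq_mul]
  ring

end Pool.Agent.GBC
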