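import Pool.Agent.GBC.Gen

/-!
# The metric `δ + C(x) Ax ⊗ Ax` for a skew matrix `A` and a general function `C`
-/

namespace Pool.Agent.GBC

open MeasureTheory Metric Set Filter Topology Real
open scoped ContDiff

variable {n : ℕ} {A : E n →L[ℝ] E n} {C : E n → ℝ}

/-- The metric `δ_ij + C(x) (Ax)_i (Ax)_j`. -/
noncomputable def gA (A : E n →L[ℝ] E n) (C : E n → ℝ) : MetricField n :=
  fun x i j => (1 : Matrix (Fin n) (Fin n) ℝ) i j + C x * ((A x) i * (A x) j)

lemma gA_apply (C : E n → ℝ) (x : E n) (i j : Fin n) :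
    gA A C x i j = (1 : Matrix (Fin n) (Fin n) ℝ) i j + C x * ((A x) i * (A x) j) := rfl

lemma gA_eq (C : E n → ℝ) (x : E n) :
    gA A C x = 1 + Matrix.replicateCol Unit (C x • (A x : Fin n → ℝ)) *
      Matrix.replicateRow Unit (A x : Fin n → ℝ) := by
  ext i j
  simp [gA, Matrix.mul_apply]

lemma dot_A (x : E n) : (A x : Fin n → ℝ) ⬝ᵥ (A x : Fin n → ℝ) = ‖A x‖ ^ 2 := by
  have : (A x : Fin n → ℝ) ⬝ᵥ (A x : Fin n → ℝ) = ∑ i, (A x) i * (A x) i := rfl
  rw [this, sum_mul_eq_inner, real_inner_self_eq_norm_sq]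

lemma det_gA (C : E n → ℝ) (x : E n) : (gA A C x).det = 1 + ‖A x‖ ^ 2 * C x := by
  rw [gA_eq, Matrix.det_one_add_replicateCol_mul_replicateRow]
  rw [dotProduct_smul, dot_A, smul_eq_mul]
  ring

/-- the explicit inverse -/
noncomputable def gAi (A : E n →L[ℝ] E n) (C : E n → ℝ) : MetricField n :=
  fun x i j => (1 : Matrix (Fin n) (Fin n) ℝ) i j -
      C x / (1 + ‖A x‖ ^ 2 * C x) * ((A x) i * (A x) j)

lemma mul_gAi (C : E n → ℝ) (x : E n) (hK : 1 + ‖A x‖ ^ 2 * C x ≠ 0) :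
    gA A C x * gAi A C x = 1 := by
  ext i j
  rw [Matrix.mul_apply]
  have h1 : ∀ k, gA A C x i k * gAi A C x k j =
      (1 : Matrix (Fin n) (Fin n) ℝ) i k * (1 : Matrix (Fin n) (Fin n) ℝ) k j -
      C x / (1 + ‖A x‖ ^ 2 * C x) * ((1 : Matrix (Fin n) (Fin n) ℝ) i k * (A x) k) * (A x) j +
      C x * (A x) i * ((A x) k * (1 : Matrix (Fin n) (Fin n) ℝ) k j) -
      C x * (C x / (1 + ‖A x‖ ^ 2 * C x)) * (A x) i * (A x) j * ((A x) k * (A x) k) := by
    intro k
    simp only [gA_apply, gAi]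
    ring
  rw [Finset.sum_congr rfl fun k _ => h1 k, Finset.sum_sub_distrib, Finset.sum_add_distrib,
    Finset.sum_sub_distrib, ← Matrix.mul_apply, one_mul, ← Finset.mul_sum, ← Finset.mul_sum,
    ← Finset.sum_mul, ← Finset.mul_sum, sum_mul_eq_inner, real_inner_self_eq_norm_sq]
  simp only [Matrix.one_apply, ite_mul, one_mul, zero_mul, mul_ite, mul_one, mul_zero,
    Finset.sum_ite_eq, Finset.sum_ite_eq', Finset.mem_univ, if_true]
  have h : C x / (1 + ‖A x‖ ^ 2 * C x) * (1 + ‖A x‖ ^ 2 * C x) = C x := div_mul_cancel₀ _ hK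
  linear_combination (-(A x) i * (A x) j) * h

lemma inv_gA (C : E n → ℝ) (x : E n) (hK : 1 + ‖A x‖ ^ 2 * C x ≠ 0) :
    (gA A C x)⁻¹ = gAi A C x := Matrix.inv_eq_right_inv (mul_gAi C x hK)

lemma gA_symm (C : E n → ℝ) (y : E n) (i j : Fin n) : gA A C y i j = gA A C y j i := by
  rw [gA_apply, gA_apply, Matrix.one_apply, Matrix.one_apply]
  simp only [eq_comm]
  ring

lemma quad_gA (C : E n → ℝ) (x v : E n) :
    ∑ i, ∑ j, gA A C x i j * v i * v j = ‖v‖ ^ 2 + C x * (inner ℝ (A x) v) ^ 2 := by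
  have h1 : ∀ i j, gA A C x i j * v i * v j =
      (1 : Matrix (Fin n) (Fin n) ℝ) i j * (v i * v j) +
      C x * (((A x) i * v i) * ((A x) j * v j)) := by
    intro i j
    rw [gA_apply]
    ring
  simp only [h1, Finset.sum_add_distrib, ← Finset.mul_sum, ← Finset.sum_mul, sum_mul_eq_inner]
  simp only [Matrix.one_apply, ite_mul, one_mul, zero_mul, Finset.sum_ite_eq, Finset.mem_univ,
    if_true, sum_mul_eq_inner, real_inner_self_eq_norm_sq]
  ring

lemma quad_gA_pos (C : E n → ℝ) (x v : E n) (hK : 0 < 1 + ‖A x‖ ^ 2 * C x) (hv : v ≠ 0) :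
    0 < ‖v‖ ^ 2 + C x * (inner ℝ (A x) v) ^ 2 := by
  have hv0 : 0 < ‖v‖ ^ 2 := by
    have := norm_pos_iff.2 hv
    positivity
  have hcs : (inner ℝ (A x) v) ^ 2 ≤ ‖A x‖ ^ 2 * ‖v‖ ^ 2 := by
    have := abs_real_inner_le_norm (A x) v
    rw [← mul_pow, ← sq_abs (inner ℝ (A x) v)]
    exact pow_le_pow_left₀ (abs_nonneg _) this 2
  rcases le_or_gt 0 (C x) with hc | hc
  · have := mul_nonneg hc (sq_nonneg (inner ℝ (A x) v))
    linarith
  · have h1 : C x * (‖A x‖ ^ 2 * ‖v‖ ^ 2) ≤ C x * (inner ℝ (A x) v) ^ 2 :=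
      mul_le_mul_of_nonpos_left hcs hc.le
    have h2 : 0 < (1 + ‖A x‖ ^ 2 * C x) * ‖v‖ ^ 2 := mul_pos hK hv0
    nlinarith

lemma posDef_gA {C : E n → ℝ} (x : E n) (hK : 0 < 1 + ‖A x‖ ^ 2 * C x) :
    (gA A C x).PosDef := by
  refine Matrix.PosDef.of_dotProduct_mulVec_pos ?_ ?_
  · ext i j
    rw [Matrix.conjTranspose_apply, star_trivial]
    exact gA_symm C x j i
  · intro v hv
    have h1 : star v ⬝ᵥ (gA A C x).mulVec v =
        ∑ i, ∑ j, gA A C x i j * (WithLp.toLp 2 v : E n) i * (WithLp.toLp 2 v : E n) j := by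
      simp only [star_trivial, dotProduct, Matrix.mulVec, Finset.mul_sum]
      refine Finset.sum_congr rfl fun i _ => Finset.sum_congr rfl fun j _ => ?_
      ring
    rw [h1, quad_gA]
    refine quad_gA_pos C x _ hK ?_
    intro h
    exact hv (by simpa using congrArg (fun w : E n => (w : Fin n → ℝ)) h)

lemma hasF_A (i : Fin n) (x : E n) :
    HasFDerivAt (fun y : E n => (A y) i) ((EuclideanSpace.proj i : E n →L[ℝ] ℝ) ∘L A) x :=
  ((EuclideanSpace.proj i : E n →L[ℝ] ℝ) ∘L A).hasFDerivAt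

/-- skew maps -/
def IsSkew (A : E n →L[ℝ] E n) : Prop := ∀ u v, inner ℝ (A u) v = - inner ℝ u (A v)

lemma Aev_skew (hA : IsSkew A) (i j : Fin n) : (A (ev i)) j = - (A (ev j)) i := by
  rw [← inner_ev (A (ev i)) j, hA, ev_inner]

lemma pd_gA (x : E n) (hC : DifferentiableAt ℝ C x) (p i j : Fin n) :
    pd p (fun y => gA A C y i j) x = pd p C x * ((A x) i * (A x) j) +
      C x * ((A (ev p)) i * (A x) j + (A x) i * (A (ev p)) j) := by
  have h := (hC.hasFDerivAt.fun_mul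
    ((hasF_A (A := A) i x).fun_mul (hasF_A (A := A) j x))).const_add
    ((1 : Matrix (Fin n) (Fin n) ℝ) i j)
  have h2 := pd_of h p
  change pd p (fun y => gA A C y i j) x = _ at h2
  rw [h2]
  simp [pd]
  ring

lemma gamL_gA (hA : IsSkew A) (x : E n) (hC : DifferentiableAt ℝ C x) (k i j : Fin n) :
    gamL (gA A C) k i j x = 1 / 2 * (pd i C x * ((A x) j * (A x) k) +
      pd j C x * ((A x) i * (A x) k) - pd k C x * ((A x) i * (A x) j)) +
      C x * ((A x) j * (A (ev i)) k + (A x) i * (A (ev j)) k) := by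
  unfold gamL
  rw [pd_gA x hC, pd_gA x hC, pd_gA x hC, Aev_skew hA k i, Aev_skew hA k j, Aev_skew hA j i]
  ring

/-- Second derivatives as a bilinear form. -/
lemma pd_pd (hC : ContDiff ℝ ∞ C) (x : E n) (i j : Fin n) :
    pd i (pd j C) x = fderiv ℝ (fderiv ℝ C) x (ev i) (ev j) := by
  have h1 : DifferentiableAt ℝ (fderiv ℝ C) x :=
    (hC.fderiv_right (m := ∞) le_rfl).differentiable (by simp) x
  have h2 : HasFDerivAt (fun y => fderiv ℝ C y (ev j))
      ((fderiv ℝ (fderiv ℝ C) x).flip (ev j)) x := by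
    have := h1.hasFDerivAt.clm_apply (hasFDerivAt_const (ev j : E n) x)
    refine this.congr_fderiv ?_
    ext v
    simp
  have h3 := pd_of h2 i
  exact h3

lemma differentiable_pd (hC : ContDiff ℝ ∞ C) (j : Fin n) : Differentiable ℝ (pd j C) := by
  unfold pd
  exact ((hC.fderiv_right (m := ∞) le_rfl).clm_apply contDiff_const).differentiable (by simp)

lemma snd_symm (hC : ContDiff ℝ ∞ C) (x p q : E n) :
    fderiv ℝ (fderiv ℝ C) x p q = fderiv ℝ (fderiv ℝ C) x q p := by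
  have h : ContDiffAt ℝ 2 C x := (hC.of_le ENat.LEInfty.out).contDiffAt
  exact (h.isSymmSndFDerivAt (by simp)).eq p q

end Pool.Agent.GBC
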