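import Pool.Agent.GBC.Zero

/-!
# The rotation field of the first two coordinates
-/

namespace Pool.Agent.GBC

open MeasureTheory Metric Set Filter Topology Real
open scoped ContDiff

/-- Rank two rotation generators. -/
structure IsRot {n : ℕ} (A : E n →L[ℝ] E n) : Prop where
  skew : IsSkew A
  rank : IsRankTwo A
  cube : ∀ x, A (A (A x)) = - A x
  trace : ∑ i, ‖A (ev i)‖ ^ 2 = 2

/-- The generator of the rotations of the first two coordinates. -/
noncomputable def rot (m : ℕ) : E (m + 2) →L[ℝ] E (m + 2) :=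
  (EuclideanSpace.proj 0 : E (m + 2) →L[ℝ] ℝ).smulRight (ev 1 : E (m + 2)) -
    (EuclideanSpace.proj 1 : E (m + 2) →L[ℝ] ℝ).smulRight (ev 0 : E (m + 2))

variable {m : ℕ}

lemma rot_apply (x : E (m + 2)) : rot m x = x 0 • (ev 1 : E (m + 2)) - x 1 • (ev 0 : E (m + 2)) :=
  rfl

lemma inner_rot (x v : E (m + 2)) : inner ℝ (rot m x) v = x 0 * v 1 - x 1 * v 0 := by
  rw [rot_apply, inner_sub_left, real_inner_smul_left, real_inner_smul_left, ev_inner, ev_inner]

lemma rot_zero (x : E (m + 2)) : (rot m x) 0 = - x 1 := by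
  rw [rot_apply]
  simp [ev]

lemma rot_one (x : E (m + 2)) : (rot m x) 1 = x 0 := by
  rw [rot_apply]
  simp [ev]

lemma norm_rot_sq (x : E (m + 2)) : ‖rot m x‖ ^ 2 = x 0 ^ 2 + x 1 ^ 2 := by
  rw [← real_inner_self_eq_norm_sq, inner_rot, rot_zero, rot_one]
  ring

lemma isRot_rot (m : ℕ) : IsRot (rot m) := by
  refine ⟨?_, ?_, ?_, ?_⟩
  · intro u v
    rw [inner_rot, real_inner_comm, inner_rot]
    ring
  · intro x p hp
    rw [inner_rot] at hp
    rw [norm_rot_sq, inner_rot, rot_zero, rot_one, rot_apply, rot_apply, smul_sub, smul_sub,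
      smul_smul, smul_smul, smul_smul, smul_smul]
    congr 2
    · linear_combination (-x 1) * hp
    · linear_combination (x 0) * hp
  · intro x
    rw [rot_apply (rot m (rot m x))]
    simp only [rot_zero, rot_one]
    rw [rot_apply]
    module
  · simp only [norm_rot_sq, Finset.sum_add_distrib]
    have h1 : ∀ i : Fin (m + 2), (ev i : E (m + 2)) 0 ^ 2 = if i = 0 then 1 else 0 := by
      intro i
      rw [coord_ev, Matrix.one_apply]
      split_ifs <;> simp
    have h2 : ∀ i : Fin (m + 2), (ev i : E (m + 2)) 1 ^ 2 = if i = 1 then 1 else 0 := by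
      intro i
      rw [coord_ev, Matrix.one_apply]
      split_ifs <;> simp
    simp only [h1, h2, Finset.sum_ite_eq', Finset.mem_univ, if_true]
    norm_num

end Pool.Agent.GBC
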