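import Pool.Agent.GBC.Table

/-!
# The Gauss-Bonnet curvature in closed form
-/

set_option linter.unusedSimpArgs false

namespace Pool.Agent.GBC

open MeasureTheory Metric Set Filter Topology Real

variable {N : ℕ} {J : E (N + 2) →L[ℝ] E (N + 2)} {x : E (N + 2)}

section sums

variable (b : OrthonormalBasis (Option (Option (Fin N))) ℝ (E (N + 2)))

lemma sum_oo_sq (hJ : IsCx J) (hb : FrameRel J x b) :
    ∑ a, ∑ e, oo J b a e ^ 2 = N := by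
  have h : ∀ a, ∑ e, oo J b a e ^ 2 = 1 := by
    intro a
    have := oo_sum hJ b hb a a
    simp only [if_true] at this
    rw [← this]
    exact Finset.sum_congr rfl fun e _ => sq _
  simp [h]

lemma sum_dl_sq : ∑ a : Fin N, ∑ e, dl a e ^ 2 = N := by
  simp [dl]

lemma sum_four (hJ : IsCx J) (hb : FrameRel J x b) :
    ∑ a, ∑ a', ∑ e, ∑ f, (oo J b a e * oo J b a' f - oo J b a f * oo J b a' e +
      2 * (oo J b a a' * oo J b e f)) ^ 2 = (6 : ℝ) * N * (N + 1) := by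
  have hs := sum_oo_sq b hJ hb
  have h0 : ∀ a a' e f, (oo J b a e * oo J b a' f - oo J b a f * oo J b a' e +
      2 * (oo J b a a' * oo J b e f)) ^ 2 =
      oo J b a e ^ 2 * oo J b a' f ^ 2 + oo J b a f ^ 2 * oo J b a' e ^ 2 +
      4 * (oo J b a a' ^ 2 * oo J b e f ^ 2) -
      2 * ((oo J b a e * oo J b a' e) * (oo J b a f * oo J b a' f)) +
      4 * ((oo J b a e * oo J b a a') * (oo J b a' f * oo J b e f)) -
      4 * ((oo J b a' e * oo J b a a') * (oo J b a f * oo J b e f)) := by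
    intro a a' e f
    ring
  have h1 : ∑ a, ∑ a', ∑ e, ∑ f, oo J b a e ^ 2 * oo J b a' f ^ 2 = (N : ℝ) * N := by
    rw [← hs, Finset.sum_mul_sum]
    refine Finset.sum_congr rfl fun a _ => Finset.sum_congr rfl fun a' _ => ?_
    rw [Finset.sum_mul_sum]
  have h2 : ∑ a, ∑ a', ∑ e, ∑ f, oo J b a f ^ 2 * oo J b a' e ^ 2 = (N : ℝ) * N := by
    rw [← h1]
    refine Finset.sum_congr rfl fun a _ => Finset.sum_congr rfl fun a' _ => ?_
    rw [Finset.sum_comm]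
  have h3 : ∑ a, ∑ a', ∑ e, ∑ f, oo J b a a' ^ 2 * oo J b e f ^ 2 = (N : ℝ) * N := by
    simp only [← Finset.mul_sum, hs, ← Finset.sum_mul]
  have h4 : ∑ a, ∑ a', ∑ e, ∑ f, (oo J b a e * oo J b a' e) * (oo J b a f * oo J b a' f) =
      (N : ℝ) := by
    have : ∀ a a', ∑ e, ∑ f, (oo J b a e * oo J b a' e) * (oo J b a f * oo J b a' f) =
        dl a a' ^ 2 := by
      intro a a'
      rw [← Finset.sum_mul_sum, oo_sum hJ b hb, sq]
      rfl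
    simp only [this, sum_dl_sq]
  have h5 : ∑ a, ∑ a', ∑ e, ∑ f, (oo J b a e * oo J b a a') * (oo J b a' f * oo J b e f) =
      (N : ℝ) := by
    rw [← hs]
    refine Finset.sum_congr rfl fun a _ => Finset.sum_congr rfl fun a' _ => ?_
    simp only [← Finset.mul_sum, oo_sum hJ b hb, mul_ite, mul_one, mul_zero, Finset.sum_ite_eq,
      Finset.mem_univ, if_true]
    ring
  have h6 : ∑ a, ∑ a', ∑ e, ∑ f, (oo J b a' e * oo J b a a') * (oo J b a f * oo J b e f) =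
      -(N : ℝ) := by
    rw [← hs, ← Finset.sum_neg_distrib]
    refine Finset.sum_congr rfl fun a _ => ?_
    rw [← Finset.sum_neg_distrib]
    refine Finset.sum_congr rfl fun a' _ => ?_
    simp only [← Finset.mul_sum, oo_sum hJ b hb, mul_ite, mul_one, mul_zero, Finset.sum_ite_eq,
      Finset.mem_univ, if_true]
    rw [oo_skew hJ b a' a]
    ring
  have e : ∀ (k : ℝ) (f : Fin N → Fin N → Fin N → Fin N → ℝ),
      ∑ a, ∑ a', ∑ e, ∑ g, k * f a a' e g = k * ∑ a, ∑ a', ∑ e, ∑ g, f a a' e g := by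
    intro k f
    simp only [Finset.mul_sum]
  simp only [h0, Finset.sum_add_distrib, Finset.sum_sub_distrib]
  rw [e, e, e, e, h1, h2, h3, h4, h5, h6]
  ring

lemma normSq_val (hJ : IsCx J) (hb : FrameRel J x b) (c c1 d K : ℝ) :
    ∑ α, wt K α * ∑ β, wt K β * ∑ γ, wt K γ * ∑ δ, wt K δ * TT J x b c c1 d α β γ δ ^ 2 =
      4 * K⁻¹ ^ 2 * kap x c c1 d ^ 2 + 24 * N * K⁻¹ * PP x c c1 ^ 2 +
      4 * N * K⁻¹ ^ 2 * qq x c c1 ^ 2 + 6 * N * (N + 1) * c ^ 2 := by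
  have hs := sum_oo_sq b hJ hb
  have hd := sum_dl_sq (N := N)
  have h4 := sum_four b hJ hb
  simp only [Fintype.sum_option, wt, Tnnnn hb, Tnnns hb, Tnnnh hb, Tnnsn hb, Tnnss hb, Tnnsh hb, Tnnhn hb, Tnnhs hb, Tnnhh hb,
      Tnsnn hb, Tnsns hb, Tnsnh hb, Tnssn hb, Tnsss hb, Tnssh hb, Tnshn hb, Tnshs hb, Tnshh hb,
      Tnhnn hb, Tnhns hb, Tnhnh hb, Tnhsn hb, Tnhss hb, Tnhsh hb, Tnhhn hb, Tnhhs hb, Tnhhh hb,
      Tsnnn hb, Tsnns hb, Tsnnh hb, Tsnsn hb, Tsnss hb, Tsnsh hb, Tsnhn hb, Tsnhs hb, Tsnhh hb,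
      Tssnn hb, Tssns hb, Tssnh hb, Tsssn hb, Tssss hb, Tsssh hb, Tsshn hb, Tsshs hb, Tsshh hb,
      Tshnn hb, Tshns hb, Tshnh hb, Tshsn hb, Tshss hb, Tshsh hb, Tshhn hb, Tshhs hb, Tshhh hb,
      Thnnn hb, Thnns hb, Thnnh hb, Thnsn hb, Thnss hb, Thnsh hb, Thnhn hb, Thnhs hb, Thnhh hb,
      Thsnn hb, Thsns hb, Thsnh hb, Thssn hb, Thsss hb, Thssh hb, Thshn hb, Thshs hb, Thshh hb,
      Thhnn hb, Thhns hb, Thhnh hb, Thhsn hb, Thhss hb, Thhsh hb, Thhhn hb, Thhhs hb, Thhhh hb,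
    mul_zero, zero_mul, add_zero,
    zero_add, mul_one, one_mul, ne_eq, mul_pow,
    OfNat.ofNat_ne_zero, not_false_eq_true, zero_pow, Finset.sum_const_zero,
    Finset.sum_add_distrib, ← Finset.mul_sum, hs, hd, h4]
  ring

lemma oo_sum' (hJ : IsCx J) (hb : FrameRel J x b) (a c : Fin N) :
    ∑ e, oo J b e a * oo J b e c = dl a c := by
  unfold dl
  rw [← oo_sum hJ b hb a c]
  refine Finset.sum_congr rfl fun e _ => ?_
  rw [oo_skew hJ b e a, oo_skew hJ b e c]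
  ring

/-- Ricci components. -/
noncomputable def RR (J : E (N + 2) →L[ℝ] E (N + 2)) (x : E (N + 2))
    (b : Option (Option (Fin N)) → E (N + 2)) (c c1 d K : ℝ) (β δ : Option (Option (Fin N))) : ℝ :=
  ∑ α, wt K α * TT J x b c c1 d α β α δ

lemma RR_val (hJ : IsCx J) (hb : FrameRel J x b) (c c1 d K : ℝ) :
    RR J x b c c1 d K none none = K⁻¹ * kap x c c1 d ∧
    RR J x b c c1 d K none (some none) = 0 ∧
    (∀ a, RR J x b c c1 d K none (some (some a)) = 0) ∧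
    RR J x b c c1 d K (some none) none = 0 ∧
    RR J x b c c1 d K (some none) (some none) = kap x c c1 d + N * qq x c c1 ∧
    (∀ a, RR J x b c c1 d K (some none) (some (some a)) = 0) ∧
    (∀ a, RR J x b c c1 d K (some (some a)) none = 0) ∧
    (∀ a, RR J x b c c1 d K (some (some a)) (some none) = 0) ∧
    (∀ a a', RR J x b c c1 d K (some (some a)) (some (some a')) =
      (-3 * c + K⁻¹ * qq x c c1) * dl a a') := by
  have hs := oo_self hJ b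
  have hd : ∀ a : Fin N, dl a a = 1 := fun a => by simp [dl]
  refine ⟨?_, ?_, ?_, ?_, ?_, ?_, ?_, ?_, ?_⟩ <;> intros <;>
    simp only [RR, Fintype.sum_option, wt, Tnnnn hb, Tnnns hb, Tnnnh hb, Tnnsn hb, Tnnss hb, Tnnsh hb, Tnnhn hb, Tnnhs hb, Tnnhh hb,
      Tnsnn hb, Tnsns hb, Tnsnh hb, Tnssn hb, Tnsss hb, Tnssh hb, Tnshn hb, Tnshs hb, Tnshh hb,
      Tnhnn hb, Tnhns hb, Tnhnh hb, Tnhsn hb, Tnhss hb, Tnhsh hb, Tnhhn hb, Tnhhs hb, Tnhhh hb,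
      Tsnnn hb, Tsnns hb, Tsnnh hb, Tsnsn hb, Tsnss hb, Tsnsh hb, Tsnhn hb, Tsnhs hb, Tsnhh hb,
      Tssnn hb, Tssns hb, Tssnh hb, Tsssn hb, Tssss hb, Tsssh hb, Tsshn hb, Tsshs hb, Tsshh hb,
      Tshnn hb, Tshns hb, Tshnh hb, Tshsn hb, Tshss hb, Tshsh hb, Tshhn hb, Tshhs hb, Tshhh hb,
      Thnnn hb, Thnns hb, Thnnh hb, Thnsn hb, Thnss hb, Thnsh hb, Thnhn hb, Thnhs hb, Thnhh hb,
      Thsnn hb, Thsns hb, Thsnh hb, Thssn hb, Thsss hb, Thssh hb, Thshn hb, Thshs hb, Thshh hb,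
      Thhnn hb, Thhns hb, Thhnh hb, Thhsn hb, Thhss hb, Thhsh hb, Thhhn hb, Thhhs hb, Thhhh hb,
    mul_zero, zero_mul, add_zero, sub_zero, zero_sub,
    zero_add, mul_one, one_mul, Finset.sum_const_zero, hs, hd]
  · rw [Finset.sum_const, Finset.card_univ, Fintype.card_fin, nsmul_eq_mul]
  · rename_i a a'
    have h1 : ∀ e, -c * (-(oo J b e a' * oo J b a e) + 2 * (oo J b e a * oo J b e a')) =
        (-3 * c) * (oo J b e a * oo J b e a') := by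
      intro e
      rw [oo_skew hJ b a e]
      ring
    simp only [h1, ← Finset.mul_sum, oo_sum' b hJ hb]
    ring

lemma normSqRic_val (hJ : IsCx J) (hb : FrameRel J x b) (c c1 d K : ℝ) :
    ∑ β, wt K β * ∑ δ, wt K δ * RR J x b c c1 d K β δ ^ 2 =
      K⁻¹ ^ 2 * kap x c c1 d ^ 2 + K⁻¹ ^ 2 * (kap x c c1 d + N * qq x c c1) ^ 2 +
      N * (-3 * c + K⁻¹ * qq x c c1) ^ 2 := by
  obtain ⟨h1, h2, h3, h4, h5, h6, h7, h8, h9⟩ := RR_val b hJ hb c c1 d K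
  have hd := sum_dl_sq (N := N)
  simp only [Fintype.sum_option, wt, h1, h2, h3, h4, h5, h6, h7, h8, h9,
    mul_zero, zero_mul, add_zero,
    zero_add, mul_one, one_mul, ne_eq, mul_pow,
    OfNat.ofNat_ne_zero, not_false_eq_true, zero_pow, Finset.sum_const_zero,
    Finset.sum_add_distrib, ← Finset.mul_sum, hd]
  ring

lemma scal_val (hJ : IsCx J) (hb : FrameRel J x b) (c c1 d K : ℝ) :
    ∑ β, wt K β * RR J x b c c1 d K β β =
      K⁻¹ * kap x c c1 d + K⁻¹ * (kap x c c1 d + N * qq x c c1) +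
      N * (-3 * c + K⁻¹ * qq x c c1) := by
  obtain ⟨h1, h2, h3, h4, h5, h6, h7, h8, h9⟩ := RR_val b hJ hb c c1 d K
  have hd : ∀ a : Fin N, dl a a = 1 := fun a => by simp [dl]
  simp only [Fintype.sum_option, wt, h1, h5, h9, hd, mul_one, one_mul, Finset.sum_const,
    Finset.card_univ, Fintype.card_fin, nsmul_eq_mul]
  ring

end sums

/-- **The Gauss-Bonnet curvature** of `δ + C(|x|²) Jx ⊗ Jx`. -/
theorem gaussBonnet_gJ (hJ : IsCx J) {C C1 C2 : ℝ → ℝ} (hC : ∀ z, HasDerivAt C (C1 z) z)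
    (hC1 : ∀ z, HasDerivAt C1 (C2 z) z) (hK : ∀ z, 0 ≤ z → 1 + z * C z ≠ 0)
    (hx : x ≠ 0) :
    gaussBonnet (gJ J C) x = 12 * N / (1 + ‖x‖ ^ 2 * C (‖x‖ ^ 2)) *
      (2 * (‖x‖ ^ 2 * C (‖x‖ ^ 2)) * (2 * C1 (‖x‖ ^ 2) + ‖x‖ ^ 2 * C2 (‖x‖ ^ 2)) +
      (N + 1) * C (‖x‖ ^ 2) * (C (‖x‖ ^ 2) + ‖x‖ ^ 2 * C1 (‖x‖ ^ 2)) +
      (C (‖x‖ ^ 2) + ‖x‖ ^ 2 * C1 (‖x‖ ^ 2)) ^ 2 * (2 + ‖x‖ ^ 2 * C (‖x‖ ^ 2)) /
        (1 + ‖x‖ ^ 2 * C (‖x‖ ^ 2)) +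
      (N - 2) * (1 + ‖x‖ ^ 2 * C (‖x‖ ^ 2)) * C (‖x‖ ^ 2) ^ 2 / 4) := by
  obtain ⟨b, hb0, hb1⟩ := exists_frame hJ x hx
  have hK0 := hK (‖x‖ ^ 2) (sq_nonneg _)
  have hG := inv_frame hJ C x hx hK0 b hb1
  have hb := frameRel hJ x hx b hb0 hb1
  unfold gaussBonnet
  rw [normSqRiem_frame (gJ J C) x _ (fun α i => (b α) i) hG,
    normSqRic_frame (gJ J C) x _ (fun α i => (b α) i) hG,
    scal_frame (gJ J C) x _ (fun α i => (b α) i) hG]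
  simp only [frameR_gJ hJ hC hC1 hK]
  have e1 := normSq_val b hJ hb (C (‖x‖ ^ 2)) (C1 (‖x‖ ^ 2)) (dd C C1 C2 (‖x‖ ^ 2))
    (1 + ‖x‖ ^ 2 * C (‖x‖ ^ 2))
  have e2 := normSqRic_val b hJ hb (C (‖x‖ ^ 2)) (C1 (‖x‖ ^ 2)) (dd C C1 C2 (‖x‖ ^ 2))
    (1 + ‖x‖ ^ 2 * C (‖x‖ ^ 2))
  have e3 := scal_val b hJ hb (C (‖x‖ ^ 2)) (C1 (‖x‖ ^ 2)) (dd C C1 C2 (‖x‖ ^ 2))
    (1 + ‖x‖ ^ 2 * C (‖x‖ ^ 2))
  simp only [TT, RR] at e1 e2 e3
  rw [e1, e2, e3]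
  simp only [kap, qq, PP, dd]
  have h4 : ‖x‖ ^ 4 = (‖x‖ ^ 2) ^ 2 := by ring
  rw [h4]
  generalize ‖x‖ ^ 2 = z at *
  generalize C z = c at *
  generalize C1 z = c1 at *
  generalize C2 z = c2 at *
  clear e1 e2 e3
  field_simp
  ring

end Pool.Agent.GBC
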