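import Pool.Agent.GBC.Eval

/-!
# Table of the curvature components in the adapted frame
-/

set_option linter.unusedSimpArgs false
set_option linter.unusedTactic false
set_option linter.unnecessarySeqFocus false

namespace Pool.Agent.GBC

open MeasureTheory Metric Set Filter Topology Real

variable {N : ℕ} {J : E (N + 2) →L[ℝ] E (N + 2)} {x : E (N + 2)}
  {b : Option (Option (Fin N)) → E (N + 2)}

lemma oo_def (b : Option (Option (Fin N)) → E (N + 2)) (a c : Fin N) :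
    inner ℝ (J (b (some (some a)))) (b (some (some c))) = oo J b a c := rfl

/-- Components. -/
noncomputable def TT (J : E (N + 2) →L[ℝ] E (N + 2)) (x : E (N + 2))
    (b : Option (Option (Fin N)) → E (N + 2)) (c c1 d : ℝ) (α β γ δ : Option (Option (Fin N))) :
    ℝ := Rf J x c c1 d (b α) (b β) (b γ) (b δ)

/-- Value. -/
noncomputable def kap (x : E (N + 2)) (c c1 d : ℝ) : ℝ :=
  -3 * c - 7 * ‖x‖ ^ 2 * c1 + ‖x‖ ^ 2 * c ^ 2 + ‖x‖ ^ 4 * d

/-- Value. -/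
noncomputable def PP (x : E (N + 2)) (c c1 : ℝ) : ℝ := c + ‖x‖ ^ 2 * c1

/-- Value. -/
noncomputable def qq (x : E (N + 2)) (c c1 : ℝ) : ℝ := ‖x‖ ^ 2 * (c ^ 2 - c1)

/-- Delta. -/
noncomputable def dl (a e : Fin N) : ℝ := if a = e then 1 else 0

lemma Tnnnn (hb : FrameRel J x b) (c c1 d : ℝ) :
    TT J x b c c1 d none none none none = 0 := by
  simp only [TT, Rf, om, WW, kap, PP, qq, dl, oo_def, hb.X0, hb.X1, hb.X2, hb.Y0, hb.Y1, hb.Y2,
    hb.O00, hb.O01, hb.O02, hb.O10, hb.O11, hb.O12, hb.O20, hb.O21, hb.D00, hb.D01, hb.D02,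
    hb.D10, hb.D11, hb.D12, hb.D20, hb.D21, hb.D22] <;> ring

lemma Tnnns (hb : FrameRel J x b) (c c1 d : ℝ) :
    TT J x b c c1 d none none none (some none) = 0 := by
  simp only [TT, Rf, om, WW, kap, PP, qq, dl, oo_def, hb.X0, hb.X1, hb.X2, hb.Y0, hb.Y1, hb.Y2,
    hb.O00, hb.O01, hb.O02, hb.O10, hb.O11, hb.O12, hb.O20, hb.O21, hb.D00, hb.D01, hb.D02,
    hb.D10, hb.D11, hb.D12, hb.D20, hb.D21, hb.D22] <;> ring

lemma Tnnnh (hb : FrameRel J x b) (c c1 d : ℝ) (a : Fin N) :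
    TT J x b c c1 d none none none (some (some a)) = 0 := by
  simp only [TT, Rf, om, WW, kap, PP, qq, dl, oo_def, hb.X0, hb.X1, hb.X2, hb.Y0, hb.Y1, hb.Y2,
    hb.O00, hb.O01, hb.O02, hb.O10, hb.O11, hb.O12, hb.O20, hb.O21, hb.D00, hb.D01, hb.D02,
    hb.D10, hb.D11, hb.D12, hb.D20, hb.D21, hb.D22] <;> ring

lemma Tnnsn (hb : FrameRel J x b) (c c1 d : ℝ) :
    TT J x b c c1 d none none (some none) none = 0 := by
  simp only [TT, Rf, om, WW, kap, PP, qq, dl, oo_def, hb.X0, hb.X1, hb.X2, hb.Y0, hb.Y1, hb.Y2,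
    hb.O00, hb.O01, hb.O02, hb.O10, hb.O11, hb.O12, hb.O20, hb.O21, hb.D00, hb.D01, hb.D02,
    hb.D10, hb.D11, hb.D12, hb.D20, hb.D21, hb.D22] <;> ring

lemma Tnnss (hb : FrameRel J x b) (c c1 d : ℝ) :
    TT J x b c c1 d none none (some none) (some none) = 0 := by
  simp only [TT, Rf, om, WW, kap, PP, qq, dl, oo_def, hb.X0, hb.X1, hb.X2, hb.Y0, hb.Y1, hb.Y2,
    hb.O00, hb.O01, hb.O02, hb.O10, hb.O11, hb.O12, hb.O20, hb.O21, hb.D00, hb.D01, hb.D02,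
    hb.D10, hb.D11, hb.D12, hb.D20, hb.D21, hb.D22] <;> ring

lemma Tnnsh (hb : FrameRel J x b) (c c1 d : ℝ) (a : Fin N) :
    TT J x b c c1 d none none (some none) (some (some a)) = 0 := by
  simp only [TT, Rf, om, WW, kap, PP, qq, dl, oo_def, hb.X0, hb.X1, hb.X2, hb.Y0, hb.Y1, hb.Y2,
    hb.O00, hb.O01, hb.O02, hb.O10, hb.O11, hb.O12, hb.O20, hb.O21, hb.D00, hb.D01, hb.D02,
    hb.D10, hb.D11, hb.D12, hb.D20, hb.D21, hb.D22] <;> ring

lemma Tnnhn (hb : FrameRel J x b) (c c1 d : ℝ) (a : Fin N) :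
    TT J x b c c1 d none none (some (some a)) none = 0 := by
  simp only [TT, Rf, om, WW, kap, PP, qq, dl, oo_def, hb.X0, hb.X1, hb.X2, hb.Y0, hb.Y1, hb.Y2,
    hb.O00, hb.O01, hb.O02, hb.O10, hb.O11, hb.O12, hb.O20, hb.O21, hb.D00, hb.D01, hb.D02,
    hb.D10, hb.D11, hb.D12, hb.D20, hb.D21, hb.D22] <;> ring

lemma Tnnhs (hb : FrameRel J x b) (c c1 d : ℝ) (a : Fin N) :
    TT J x b c c1 d none none (some (some a)) (some none) = 0 := by
  simp only [TT, Rf, om, WW, kap, PP, qq, dl, oo_def, hb.X0, hb.X1, hb.X2, hb.Y0, hb.Y1, hb.Y2,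
    hb.O00, hb.O01, hb.O02, hb.O10, hb.O11, hb.O12, hb.O20, hb.O21, hb.D00, hb.D01, hb.D02,
    hb.D10, hb.D11, hb.D12, hb.D20, hb.D21, hb.D22] <;> ring

lemma Tnnhh (hb : FrameRel J x b) (c c1 d : ℝ) (a b' : Fin N) :
    TT J x b c c1 d none none (some (some a)) (some (some b')) = 0 := by
  simp only [TT, Rf, om, WW, kap, PP, qq, dl, oo_def, hb.X0, hb.X1, hb.X2, hb.Y0, hb.Y1, hb.Y2,
    hb.O00, hb.O01, hb.O02, hb.O10, hb.O11, hb.O12, hb.O20, hb.O21, hb.D00, hb.D01, hb.D02,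
    hb.D10, hb.D11, hb.D12, hb.D20, hb.D21, hb.D22] <;> ring

lemma Tnsnn (hb : FrameRel J x b) (c c1 d : ℝ) :
    TT J x b c c1 d none (some none) none none = 0 := by
  simp only [TT, Rf, om, WW, kap, PP, qq, dl, oo_def, hb.X0, hb.X1, hb.X2, hb.Y0, hb.Y1, hb.Y2,
    hb.O00, hb.O01, hb.O02, hb.O10, hb.O11, hb.O12, hb.O20, hb.O21, hb.D00, hb.D01, hb.D02,
    hb.D10, hb.D11, hb.D12, hb.D20, hb.D21, hb.D22] <;> ring

lemma Tnsns (hb : FrameRel J x b) (c c1 d : ℝ) :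
    TT J x b c c1 d none (some none) none (some none) = kap x c c1 d := by
  simp only [TT, Rf, om, WW, kap, PP, qq, dl, oo_def, hb.X0, hb.X1, hb.X2, hb.Y0, hb.Y1, hb.Y2,
    hb.O00, hb.O01, hb.O02, hb.O10, hb.O11, hb.O12, hb.O20, hb.O21, hb.D00, hb.D01, hb.D02,
    hb.D10, hb.D11, hb.D12, hb.D20, hb.D21, hb.D22] <;> ring

lemma Tnsnh (hb : FrameRel J x b) (c c1 d : ℝ) (a : Fin N) :
    TT J x b c c1 d none (some none) none (some (some a)) = 0 := by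
  simp only [TT, Rf, om, WW, kap, PP, qq, dl, oo_def, hb.X0, hb.X1, hb.X2, hb.Y0, hb.Y1, hb.Y2,
    hb.O00, hb.O01, hb.O02, hb.O10, hb.O11, hb.O12, hb.O20, hb.O21, hb.D00, hb.D01, hb.D02,
    hb.D10, hb.D11, hb.D12, hb.D20, hb.D21, hb.D22] <;> ring

lemma Tnssn (hb : FrameRel J x b) (c c1 d : ℝ) :
    TT J x b c c1 d none (some none) (some none) none = (-1) * kap x c c1 d := by
  simp only [TT, Rf, om, WW, kap, PP, qq, dl, oo_def, hb.X0, hb.X1, hb.X2, hb.Y0, hb.Y1, hb.Y2,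
    hb.O00, hb.O01, hb.O02, hb.O10, hb.O11, hb.O12, hb.O20, hb.O21, hb.D00, hb.D01, hb.D02,
    hb.D10, hb.D11, hb.D12, hb.D20, hb.D21, hb.D22] <;> ring

lemma Tnsss (hb : FrameRel J x b) (c c1 d : ℝ) :
    TT J x b c c1 d none (some none) (some none) (some none) = 0 := by
  simp only [TT, Rf, om, WW, kap, PP, qq, dl, oo_def, hb.X0, hb.X1, hb.X2, hb.Y0, hb.Y1, hb.Y2,
    hb.O00, hb.O01, hb.O02, hb.O10, hb.O11, hb.O12, hb.O20, hb.O21, hb.D00, hb.D01, hb.D02,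
    hb.D10, hb.D11, hb.D12, hb.D20, hb.D21, hb.D22] <;> ring

lemma Tnssh (hb : FrameRel J x b) (c c1 d : ℝ) (a : Fin N) :
    TT J x b c c1 d none (some none) (some none) (some (some a)) = 0 := by
  simp only [TT, Rf, om, WW, kap, PP, qq, dl, oo_def, hb.X0, hb.X1, hb.X2, hb.Y0, hb.Y1, hb.Y2,
    hb.O00, hb.O01, hb.O02, hb.O10, hb.O11, hb.O12, hb.O20, hb.O21, hb.D00, hb.D01, hb.D02,
    hb.D10, hb.D11, hb.D12, hb.D20, hb.D21, hb.D22] <;> ring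

lemma Tnshn (hb : FrameRel J x b) (c c1 d : ℝ) (a : Fin N) :
    TT J x b c c1 d none (some none) (some (some a)) none = 0 := by
  simp only [TT, Rf, om, WW, kap, PP, qq, dl, oo_def, hb.X0, hb.X1, hb.X2, hb.Y0, hb.Y1, hb.Y2,
    hb.O00, hb.O01, hb.O02, hb.O10, hb.O11, hb.O12, hb.O20, hb.O21, hb.D00, hb.D01, hb.D02,
    hb.D10, hb.D11, hb.D12, hb.D20, hb.D21, hb.D22] <;> ring

lemma Tnshs (hb : FrameRel J x b) (c c1 d : ℝ) (a : Fin N) :
    TT J x b c c1 d none (some none) (some (some a)) (some none) = 0 := by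
  simp only [TT, Rf, om, WW, kap, PP, qq, dl, oo_def, hb.X0, hb.X1, hb.X2, hb.Y0, hb.Y1, hb.Y2,
    hb.O00, hb.O01, hb.O02, hb.O10, hb.O11, hb.O12, hb.O20, hb.O21, hb.D00, hb.D01, hb.D02,
    hb.D10, hb.D11, hb.D12, hb.D20, hb.D21, hb.D22] <;> ring

lemma Tnshh (hb : FrameRel J x b) (c c1 d : ℝ) (a b' : Fin N) :
    TT J x b c c1 d none (some none) (some (some a)) (some (some b')) = (-2 * PP x c c1) * oo J b a b' := by
  simp only [TT, Rf, om, WW, kap, PP, qq, dl, oo_def, hb.X0, hb.X1, hb.X2, hb.Y0, hb.Y1, hb.Y2,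
    hb.O00, hb.O01, hb.O02, hb.O10, hb.O11, hb.O12, hb.O20, hb.O21, hb.D00, hb.D01, hb.D02,
    hb.D10, hb.D11, hb.D12, hb.D20, hb.D21, hb.D22] <;> ring

lemma Tnhnn (hb : FrameRel J x b) (c c1 d : ℝ) (a : Fin N) :
    TT J x b c c1 d none (some (some a)) none none = 0 := by
  simp only [TT, Rf, om, WW, kap, PP, qq, dl, oo_def, hb.X0, hb.X1, hb.X2, hb.Y0, hb.Y1, hb.Y2,
    hb.O00, hb.O01, hb.O02, hb.O10, hb.O11, hb.O12, hb.O20, hb.O21, hb.D00, hb.D01, hb.D02,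
    hb.D10, hb.D11, hb.D12, hb.D20, hb.D21, hb.D22] <;> ring

lemma Tnhns (hb : FrameRel J x b) (c c1 d : ℝ) (a : Fin N) :
    TT J x b c c1 d none (some (some a)) none (some none) = 0 := by
  simp only [TT, Rf, om, WW, kap, PP, qq, dl, oo_def, hb.X0, hb.X1, hb.X2, hb.Y0, hb.Y1, hb.Y2,
    hb.O00, hb.O01, hb.O02, hb.O10, hb.O11, hb.O12, hb.O20, hb.O21, hb.D00, hb.D01, hb.D02,
    hb.D10, hb.D11, hb.D12, hb.D20, hb.D21, hb.D22] <;> ring

lemma Tnhnh (hb : FrameRel J x b) (c c1 d : ℝ) (a b' : Fin N) :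
    TT J x b c c1 d none (some (some a)) none (some (some b')) = 0 := by
  simp only [TT, Rf, om, WW, kap, PP, qq, dl, oo_def, hb.X0, hb.X1, hb.X2, hb.Y0, hb.Y1, hb.Y2,
    hb.O00, hb.O01, hb.O02, hb.O10, hb.O11, hb.O12, hb.O20, hb.O21, hb.D00, hb.D01, hb.D02,
    hb.D10, hb.D11, hb.D12, hb.D20, hb.D21, hb.D22] <;> ring

lemma Tnhsn (hb : FrameRel J x b) (c c1 d : ℝ) (a : Fin N) :
    TT J x b c c1 d none (some (some a)) (some none) none = 0 := by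
  simp only [TT, Rf, om, WW, kap, PP, qq, dl, oo_def, hb.X0, hb.X1, hb.X2, hb.Y0, hb.Y1, hb.Y2,
    hb.O00, hb.O01, hb.O02, hb.O10, hb.O11, hb.O12, hb.O20, hb.O21, hb.D00, hb.D01, hb.D02,
    hb.D10, hb.D11, hb.D12, hb.D20, hb.D21, hb.D22] <;> ring

lemma Tnhss (hb : FrameRel J x b) (c c1 d : ℝ) (a : Fin N) :
    TT J x b c c1 d none (some (some a)) (some none) (some none) = 0 := by
  simp only [TT, Rf, om, WW, kap, PP, qq, dl, oo_def, hb.X0, hb.X1, hb.X2, hb.Y0, hb.Y1, hb.Y2,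
    hb.O00, hb.O01, hb.O02, hb.O10, hb.O11, hb.O12, hb.O20, hb.O21, hb.D00, hb.D01, hb.D02,
    hb.D10, hb.D11, hb.D12, hb.D20, hb.D21, hb.D22] <;> ring

lemma Tnhsh (hb : FrameRel J x b) (c c1 d : ℝ) (a b' : Fin N) :
    TT J x b c c1 d none (some (some a)) (some none) (some (some b')) = (-1 * PP x c c1) * oo J b a b' := by
  simp only [TT, Rf, om, WW, kap, PP, qq, dl, oo_def, hb.X0, hb.X1, hb.X2, hb.Y0, hb.Y1, hb.Y2,
    hb.O00, hb.O01, hb.O02, hb.O10, hb.O11, hb.O12, hb.O20, hb.O21, hb.D00, hb.D01, hb.D02,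
    hb.D10, hb.D11, hb.D12, hb.D20, hb.D21, hb.D22] <;> ring

lemma Tnhhn (hb : FrameRel J x b) (c c1 d : ℝ) (a b' : Fin N) :
    TT J x b c c1 d none (some (some a)) (some (some b')) none = 0 := by
  simp only [TT, Rf, om, WW, kap, PP, qq, dl, oo_def, hb.X0, hb.X1, hb.X2, hb.Y0, hb.Y1, hb.Y2,
    hb.O00, hb.O01, hb.O02, hb.O10, hb.O11, hb.O12, hb.O20, hb.O21, hb.D00, hb.D01, hb.D02,
    hb.D10, hb.D11, hb.D12, hb.D20, hb.D21, hb.D22] <;> ring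

lemma Tnhhs (hb : FrameRel J x b) (c c1 d : ℝ) (a b' : Fin N) :
    TT J x b c c1 d none (some (some a)) (some (some b')) (some none) = (1 * PP x c c1) * oo J b a b' := by
  simp only [TT, Rf, om, WW, kap, PP, qq, dl, oo_def, hb.X0, hb.X1, hb.X2, hb.Y0, hb.Y1, hb.Y2,
    hb.O00, hb.O01, hb.O02, hb.O10, hb.O11, hb.O12, hb.O20, hb.O21, hb.D00, hb.D01, hb.D02,
    hb.D10, hb.D11, hb.D12, hb.D20, hb.D21, hb.D22] <;> ring

lemma Tnhhh (hb : FrameRel J x b) (c c1 d : ℝ) (a b' e : Fin N) :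
    TT J x b c c1 d none (some (some a)) (some (some b')) (some (some e)) = 0 := by
  simp only [TT, Rf, om, WW, kap, PP, qq, dl, oo_def, hb.X0, hb.X1, hb.X2, hb.Y0, hb.Y1, hb.Y2,
    hb.O00, hb.O01, hb.O02, hb.O10, hb.O11, hb.O12, hb.O20, hb.O21, hb.D00, hb.D01, hb.D02,
    hb.D10, hb.D11, hb.D12, hb.D20, hb.D21, hb.D22] <;> ring

lemma Tsnnn (hb : FrameRel J x b) (c c1 d : ℝ) :
    TT J x b c c1 d (some none) none none none = 0 := by
  simp only [TT, Rf, om, WW, kap, PP, qq, dl, oo_def, hb.X0, hb.X1, hb.X2, hb.Y0, hb.Y1, hb.Y2,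
    hb.O00, hb.O01, hb.O02, hb.O10, hb.O11, hb.O12, hb.O20, hb.O21, hb.D00, hb.D01, hb.D02,
    hb.D10, hb.D11, hb.D12, hb.D20, hb.D21, hb.D22] <;> ring

lemma Tsnns (hb : FrameRel J x b) (c c1 d : ℝ) :
    TT J x b c c1 d (some none) none none (some none) = (-1) * kap x c c1 d := by
  simp only [TT, Rf, om, WW, kap, PP, qq, dl, oo_def, hb.X0, hb.X1, hb.X2, hb.Y0, hb.Y1, hb.Y2,
    hb.O00, hb.O01, hb.O02, hb.O10, hb.O11, hb.O12, hb.O20, hb.O21, hb.D00, hb.D01, hb.D02,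
    hb.D10, hb.D11, hb.D12, hb.D20, hb.D21, hb.D22] <;> ring

lemma Tsnnh (hb : FrameRel J x b) (c c1 d : ℝ) (a : Fin N) :
    TT J x b c c1 d (some none) none none (some (some a)) = 0 := by
  simp only [TT, Rf, om, WW, kap, PP, qq, dl, oo_def, hb.X0, hb.X1, hb.X2, hb.Y0, hb.Y1, hb.Y2,
    hb.O00, hb.O01, hb.O02, hb.O10, hb.O11, hb.O12, hb.O20, hb.O21, hb.D00, hb.D01, hb.D02,
    hb.D10, hb.D11, hb.D12, hb.D20, hb.D21, hb.D22] <;> ring

lemma Tsnsn (hb : FrameRel J x b) (c c1 d : ℝ) :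
    TT J x b c c1 d (some none) none (some none) none = kap x c c1 d := by
  simp only [TT, Rf, om, WW, kap, PP, qq, dl, oo_def, hb.X0, hb.X1, hb.X2, hb.Y0, hb.Y1, hb.Y2,
    hb.O00, hb.O01, hb.O02, hb.O10, hb.O11, hb.O12, hb.O20, hb.O21, hb.D00, hb.D01, hb.D02,
    hb.D10, hb.D11, hb.D12, hb.D20, hb.D21, hb.D22] <;> ring

lemma Tsnss (hb : FrameRel J x b) (c c1 d : ℝ) :
    TT J x b c c1 d (some none) none (some none) (some none) = 0 := by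
  simp only [TT, Rf, om, WW, kap, PP, qq, dl, oo_def, hb.X0, hb.X1, hb.X2, hb.Y0, hb.Y1, hb.Y2,
    hb.O00, hb.O01, hb.O02, hb.O10, hb.O11, hb.O12, hb.O20, hb.O21, hb.D00, hb.D01, hb.D02,
    hb.D10, hb.D11, hb.D12, hb.D20, hb.D21, hb.D22] <;> ring

lemma Tsnsh (hb : FrameRel J x b) (c c1 d : ℝ) (a : Fin N) :
    TT J x b c c1 d (some none) none (some none) (some (some a)) = 0 := by
  simp only [TT, Rf, om, WW, kap, PP, qq, dl, oo_def, hb.X0, hb.X1, hb.X2, hb.Y0, hb.Y1, hb.Y2,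
    hb.O00, hb.O01, hb.O02, hb.O10, hb.O11, hb.O12, hb.O20, hb.O21, hb.D00, hb.D01, hb.D02,
    hb.D10, hb.D11, hb.D12, hb.D20, hb.D21, hb.D22] <;> ring

lemma Tsnhn (hb : FrameRel J x b) (c c1 d : ℝ) (a : Fin N) :
    TT J x b c c1 d (some none) none (some (some a)) none = 0 := by
  simp only [TT, Rf, om, WW, kap, PP, qq, dl, oo_def, hb.X0, hb.X1, hb.X2, hb.Y0, hb.Y1, hb.Y2,
    hb.O00, hb.O01, hb.O02, hb.O10, hb.O11, hb.O12, hb.O20, hb.O21, hb.D00, hb.D01, hb.D02,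
    hb.D10, hb.D11, hb.D12, hb.D20, hb.D21, hb.D22] <;> ring

lemma Tsnhs (hb : FrameRel J x b) (c c1 d : ℝ) (a : Fin N) :
    TT J x b c c1 d (some none) none (some (some a)) (some none) = 0 := by
  simp only [TT, Rf, om, WW, kap, PP, qq, dl, oo_def, hb.X0, hb.X1, hb.X2, hb.Y0, hb.Y1, hb.Y2,
    hb.O00, hb.O01, hb.O02, hb.O10, hb.O11, hb.O12, hb.O20, hb.O21, hb.D00, hb.D01, hb.D02,
    hb.D10, hb.D11, hb.D12, hb.D20, hb.D21, hb.D22] <;> ring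

lemma Tsnhh (hb : FrameRel J x b) (c c1 d : ℝ) (a b' : Fin N) :
    TT J x b c c1 d (some none) none (some (some a)) (some (some b')) = (2 * PP x c c1) * oo J b a b' := by
  simp only [TT, Rf, om, WW, kap, PP, qq, dl, oo_def, hb.X0, hb.X1, hb.X2, hb.Y0, hb.Y1, hb.Y2,
    hb.O00, hb.O01, hb.O02, hb.O10, hb.O11, hb.O12, hb.O20, hb.O21, hb.D00, hb.D01, hb.D02,
    hb.D10, hb.D11, hb.D12, hb.D20, hb.D21, hb.D22] <;> ring

lemma Tssnn (hb : FrameRel J x b) (c c1 d : ℝ) :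
    TT J x b c c1 d (some none) (some none) none none = 0 := by
  simp only [TT, Rf, om, WW, kap, PP, qq, dl, oo_def, hb.X0, hb.X1, hb.X2, hb.Y0, hb.Y1, hb.Y2,
    hb.O00, hb.O01, hb.O02, hb.O10, hb.O11, hb.O12, hb.O20, hb.O21, hb.D00, hb.D01, hb.D02,
    hb.D10, hb.D11, hb.D12, hb.D20, hb.D21, hb.D22] <;> ring

lemma Tssns (hb : FrameRel J x b) (c c1 d : ℝ) :
    TT J x b c c1 d (some none) (some none) none (some none) = 0 := by
  simp only [TT, Rf, om, WW, kap, PP, qq, dl, oo_def, hb.X0, hb.X1, hb.X2, hb.Y0, hb.Y1, hb.Y2,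
    hb.O00, hb.O01, hb.O02, hb.O10, hb.O11, hb.O12, hb.O20, hb.O21, hb.D00, hb.D01, hb.D02,
    hb.D10, hb.D11, hb.D12, hb.D20, hb.D21, hb.D22] <;> ring

lemma Tssnh (hb : FrameRel J x b) (c c1 d : ℝ) (a : Fin N) :
    TT J x b c c1 d (some none) (some none) none (some (some a)) = 0 := by
  simp only [TT, Rf, om, WW, kap, PP, qq, dl, oo_def, hb.X0, hb.X1, hb.X2, hb.Y0, hb.Y1, hb.Y2,
    hb.O00, hb.O01, hb.O02, hb.O10, hb.O11, hb.O12, hb.O20, hb.O21, hb.D00, hb.D01, hb.D02,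
    hb.D10, hb.D11, hb.D12, hb.D20, hb.D21, hb.D22] <;> ring

lemma Tsssn (hb : FrameRel J x b) (c c1 d : ℝ) :
    TT J x b c c1 d (some none) (some none) (some none) none = 0 := by
  simp only [TT, Rf, om, WW, kap, PP, qq, dl, oo_def, hb.X0, hb.X1, hb.X2, hb.Y0, hb.Y1, hb.Y2,
    hb.O00, hb.O01, hb.O02, hb.O10, hb.O11, hb.O12, hb.O20, hb.O21, hb.D00, hb.D01, hb.D02,
    hb.D10, hb.D11, hb.D12, hb.D20, hb.D21, hb.D22] <;> ring

lemma Tssss (hb : FrameRel J x b) (c c1 d : ℝ) :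
    TT J x b c c1 d (some none) (some none) (some none) (some none) = 0 := by
  simp only [TT, Rf, om, WW, kap, PP, qq, dl, oo_def, hb.X0, hb.X1, hb.X2, hb.Y0, hb.Y1, hb.Y2,
    hb.O00, hb.O01, hb.O02, hb.O10, hb.O11, hb.O12, hb.O20, hb.O21, hb.D00, hb.D01, hb.D02,
    hb.D10, hb.D11, hb.D12, hb.D20, hb.D21, hb.D22] <;> ring

lemma Tsssh (hb : FrameRel J x b) (c c1 d : ℝ) (a : Fin N) :
    TT J x b c c1 d (some none) (some none) (some none) (some (some a)) = 0 := by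
  simp only [TT, Rf, om, WW, kap, PP, qq, dl, oo_def, hb.X0, hb.X1, hb.X2, hb.Y0, hb.Y1, hb.Y2,
    hb.O00, hb.O01, hb.O02, hb.O10, hb.O11, hb.O12, hb.O20, hb.O21, hb.D00, hb.D01, hb.D02,
    hb.D10, hb.D11, hb.D12, hb.D20, hb.D21, hb.D22] <;> ring

lemma Tsshn (hb : FrameRel J x b) (c c1 d : ℝ) (a : Fin N) :
    TT J x b c c1 d (some none) (some none) (some (some a)) none = 0 := by
  simp only [TT, Rf, om, WW, kap, PP, qq, dl, oo_def, hb.X0, hb.X1, hb.X2, hb.Y0, hb.Y1, hb.Y2,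
    hb.O00, hb.O01, hb.O02, hb.O10, hb.O11, hb.O12, hb.O20, hb.O21, hb.D00, hb.D01, hb.D02,
    hb.D10, hb.D11, hb.D12, hb.D20, hb.D21, hb.D22] <;> ring

lemma Tsshs (hb : FrameRel J x b) (c c1 d : ℝ) (a : Fin N) :
    TT J x b c c1 d (some none) (some none) (some (some a)) (some none) = 0 := by
  simp only [TT, Rf, om, WW, kap, PP, qq, dl, oo_def, hb.X0, hb.X1, hb.X2, hb.Y0, hb.Y1, hb.Y2,
    hb.O00, hb.O01, hb.O02, hb.O10, hb.O11, hb.O12, hb.O20, hb.O21, hb.D00, hb.D01, hb.D02,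
    hb.D10, hb.D11, hb.D12, hb.D20, hb.D21, hb.D22] <;> ring

lemma Tsshh (hb : FrameRel J x b) (c c1 d : ℝ) (a b' : Fin N) :
    TT J x b c c1 d (some none) (some none) (some (some a)) (some (some b')) = 0 := by
  simp only [TT, Rf, om, WW, kap, PP, qq, dl, oo_def, hb.X0, hb.X1, hb.X2, hb.Y0, hb.Y1, hb.Y2,
    hb.O00, hb.O01, hb.O02, hb.O10, hb.O11, hb.O12, hb.O20, hb.O21, hb.D00, hb.D01, hb.D02,
    hb.D10, hb.D11, hb.D12, hb.D20, hb.D21, hb.D22] <;> ring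

lemma Tshnn (hb : FrameRel J x b) (c c1 d : ℝ) (a : Fin N) :
    TT J x b c c1 d (some none) (some (some a)) none none = 0 := by
  simp only [TT, Rf, om, WW, kap, PP, qq, dl, oo_def, hb.X0, hb.X1, hb.X2, hb.Y0, hb.Y1, hb.Y2,
    hb.O00, hb.O01, hb.O02, hb.O10, hb.O11, hb.O12, hb.O20, hb.O21, hb.D00, hb.D01, hb.D02,
    hb.D10, hb.D11, hb.D12, hb.D20, hb.D21, hb.D22] <;> ring

lemma Tshns (hb : FrameRel J x b) (c c1 d : ℝ) (a : Fin N) :
    TT J x b c c1 d (some none) (some (some a)) none (some none) = 0 := by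
  simp only [TT, Rf, om, WW, kap, PP, qq, dl, oo_def, hb.X0, hb.X1, hb.X2, hb.Y0, hb.Y1, hb.Y2,
    hb.O00, hb.O01, hb.O02, hb.O10, hb.O11, hb.O12, hb.O20, hb.O21, hb.D00, hb.D01, hb.D02,
    hb.D10, hb.D11, hb.D12, hb.D20, hb.D21, hb.D22] <;> ring

lemma Tshnh (hb : FrameRel J x b) (c c1 d : ℝ) (a b' : Fin N) :
    TT J x b c c1 d (some none) (some (some a)) none (some (some b')) = (1 * PP x c c1) * oo J b a b' := by
  simp only [TT, Rf, om, WW, kap, PP, qq, dl, oo_def, hb.X0, hb.X1, hb.X2, hb.Y0, hb.Y1, hb.Y2,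
    hb.O00, hb.O01, hb.O02, hb.O10, hb.O11, hb.O12, hb.O20, hb.O21, hb.D00, hb.D01, hb.D02,
    hb.D10, hb.D11, hb.D12, hb.D20, hb.D21, hb.D22] <;> ring

lemma Tshsn (hb : FrameRel J x b) (c c1 d : ℝ) (a : Fin N) :
    TT J x b c c1 d (some none) (some (some a)) (some none) none = 0 := by
  simp only [TT, Rf, om, WW, kap, PP, qq, dl, oo_def, hb.X0, hb.X1, hb.X2, hb.Y0, hb.Y1, hb.Y2,
    hb.O00, hb.O01, hb.O02, hb.O10, hb.O11, hb.O12, hb.O20, hb.O21, hb.D00, hb.D01, hb.D02,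
    hb.D10, hb.D11, hb.D12, hb.D20, hb.D21, hb.D22] <;> ring

lemma Tshss (hb : FrameRel J x b) (c c1 d : ℝ) (a : Fin N) :
    TT J x b c c1 d (some none) (some (some a)) (some none) (some none) = 0 := by
  simp only [TT, Rf, om, WW, kap, PP, qq, dl, oo_def, hb.X0, hb.X1, hb.X2, hb.Y0, hb.Y1, hb.Y2,
    hb.O00, hb.O01, hb.O02, hb.O10, hb.O11, hb.O12, hb.O20, hb.O21, hb.D00, hb.D01, hb.D02,
    hb.D10, hb.D11, hb.D12, hb.D20, hb.D21, hb.D22] <;> ring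

lemma Tshsh (hb : FrameRel J x b) (c c1 d : ℝ) (a b' : Fin N) :
    TT J x b c c1 d (some none) (some (some a)) (some none) (some (some b')) = (1 * qq x c c1) * dl a b' := by
  simp only [TT, Rf, om, WW, kap, PP, qq, dl, oo_def, hb.X0, hb.X1, hb.X2, hb.Y0, hb.Y1, hb.Y2,
    hb.O00, hb.O01, hb.O02, hb.O10, hb.O11, hb.O12, hb.O20, hb.O21, hb.D00, hb.D01, hb.D02,
    hb.D10, hb.D11, hb.D12, hb.D20, hb.D21, hb.D22] <;> ring

lemma Tshhn (hb : FrameRel J x b) (c c1 d : ℝ) (a b' : Fin N) :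
    TT J x b c c1 d (some none) (some (some a)) (some (some b')) none = (-1 * PP x c c1) * oo J b a b' := by
  simp only [TT, Rf, om, WW, kap, PP, qq, dl, oo_def, hb.X0, hb.X1, hb.X2, hb.Y0, hb.Y1, hb.Y2,
    hb.O00, hb.O01, hb.O02, hb.O10, hb.O11, hb.O12, hb.O20, hb.O21, hb.D00, hb.D01, hb.D02,
    hb.D10, hb.D11, hb.D12, hb.D20, hb.D21, hb.D22] <;> ring

lemma Tshhs (hb : FrameRel J x b) (c c1 d : ℝ) (a b' : Fin N) :
    TT J x b c c1 d (some none) (some (some a)) (some (some b')) (some none) = (-1 * qq x c c1) * dl a b' := by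
  simp only [TT, Rf, om, WW, kap, PP, qq, dl, oo_def, hb.X0, hb.X1, hb.X2, hb.Y0, hb.Y1, hb.Y2,
    hb.O00, hb.O01, hb.O02, hb.O10, hb.O11, hb.O12, hb.O20, hb.O21, hb.D00, hb.D01, hb.D02,
    hb.D10, hb.D11, hb.D12, hb.D20, hb.D21, hb.D22] <;> ring

lemma Tshhh (hb : FrameRel J x b) (c c1 d : ℝ) (a b' e : Fin N) :
    TT J x b c c1 d (some none) (some (some a)) (some (some b')) (some (some e)) = 0 := by
  simp only [TT, Rf, om, WW, kap, PP, qq, dl, oo_def, hb.X0, hb.X1, hb.X2, hb.Y0, hb.Y1, hb.Y2,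
    hb.O00, hb.O01, hb.O02, hb.O10, hb.O11, hb.O12, hb.O20, hb.O21, hb.D00, hb.D01, hb.D02,
    hb.D10, hb.D11, hb.D12, hb.D20, hb.D21, hb.D22] <;> ring

lemma Thnnn (hb : FrameRel J x b) (c c1 d : ℝ) (a : Fin N) :
    TT J x b c c1 d (some (some a)) none none none = 0 := by
  simp only [TT, Rf, om, WW, kap, PP, qq, dl, oo_def, hb.X0, hb.X1, hb.X2, hb.Y0, hb.Y1, hb.Y2,
    hb.O00, hb.O01, hb.O02, hb.O10, hb.O11, hb.O12, hb.O20, hb.O21, hb.D00, hb.D01, hb.D02,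
    hb.D10, hb.D11, hb.D12, hb.D20, hb.D21, hb.D22] <;> ring

lemma Thnns (hb : FrameRel J x b) (c c1 d : ℝ) (a : Fin N) :
    TT J x b c c1 d (some (some a)) none none (some none) = 0 := by
  simp only [TT, Rf, om, WW, kap, PP, qq, dl, oo_def, hb.X0, hb.X1, hb.X2, hb.Y0, hb.Y1, hb.Y2,
    hb.O00, hb.O01, hb.O02, hb.O10, hb.O11, hb.O12, hb.O20, hb.O21, hb.D00, hb.D01, hb.D02,
    hb.D10, hb.D11, hb.D12, hb.D20, hb.D21, hb.D22] <;> ring

lemma Thnnh (hb : FrameRel J x b) (c c1 d : ℝ) (a b' : Fin N) :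
    TT J x b c c1 d (some (some a)) none none (some (some b')) = 0 := by
  simp only [TT, Rf, om, WW, kap, PP, qq, dl, oo_def, hb.X0, hb.X1, hb.X2, hb.Y0, hb.Y1, hb.Y2,
    hb.O00, hb.O01, hb.O02, hb.O10, hb.O11, hb.O12, hb.O20, hb.O21, hb.D00, hb.D01, hb.D02,
    hb.D10, hb.D11, hb.D12, hb.D20, hb.D21, hb.D22] <;> ring

lemma Thnsn (hb : FrameRel J x b) (c c1 d : ℝ) (a : Fin N) :
    TT J x b c c1 d (some (some a)) none (some none) none = 0 := by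
  simp only [TT, Rf, om, WW, kap, PP, qq, dl, oo_def, hb.X0, hb.X1, hb.X2, hb.Y0, hb.Y1, hb.Y2,
    hb.O00, hb.O01, hb.O02, hb.O10, hb.O11, hb.O12, hb.O20, hb.O21, hb.D00, hb.D01, hb.D02,
    hb.D10, hb.D11, hb.D12, hb.D20, hb.D21, hb.D22] <;> ring

lemma Thnss (hb : FrameRel J x b) (c c1 d : ℝ) (a : Fin N) :
    TT J x b c c1 d (some (some a)) none (some none) (some none) = 0 := by
  simp only [TT, Rf, om, WW, kap, PP, qq, dl, oo_def, hb.X0, hb.X1, hb.X2, hb.Y0, hb.Y1, hb.Y2,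
    hb.O00, hb.O01, hb.O02, hb.O10, hb.O11, hb.O12, hb.O20, hb.O21, hb.D00, hb.D01, hb.D02,
    hb.D10, hb.D11, hb.D12, hb.D20, hb.D21, hb.D22] <;> ring

lemma Thnsh (hb : FrameRel J x b) (c c1 d : ℝ) (a b' : Fin N) :
    TT J x b c c1 d (some (some a)) none (some none) (some (some b')) = (1 * PP x c c1) * oo J b a b' := by
  simp only [TT, Rf, om, WW, kap, PP, qq, dl, oo_def, hb.X0, hb.X1, hb.X2, hb.Y0, hb.Y1, hb.Y2,
    hb.O00, hb.O01, hb.O02, hb.O10, hb.O11, hb.O12, hb.O20, hb.O21, hb.D00, hb.D01, hb.D02,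
    hb.D10, hb.D11, hb.D12, hb.D20, hb.D21, hb.D22] <;> ring

lemma Thnhn (hb : FrameRel J x b) (c c1 d : ℝ) (a b' : Fin N) :
    TT J x b c c1 d (some (some a)) none (some (some b')) none = 0 := by
  simp only [TT, Rf, om, WW, kap, PP, qq, dl, oo_def, hb.X0, hb.X1, hb.X2, hb.Y0, hb.Y1, hb.Y2,
    hb.O00, hb.O01, hb.O02, hb.O10, hb.O11, hb.O12, hb.O20, hb.O21, hb.D00, hb.D01, hb.D02,
    hb.D10, hb.D11, hb.D12, hb.D20, hb.D21, hb.D22] <;> ring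

lemma Thnhs (hb : FrameRel J x b) (c c1 d : ℝ) (a b' : Fin N) :
    TT J x b c c1 d (some (some a)) none (some (some b')) (some none) = (-1 * PP x c c1) * oo J b a b' := by
  simp only [TT, Rf, om, WW, kap, PP, qq, dl, oo_def, hb.X0, hb.X1, hb.X2, hb.Y0, hb.Y1, hb.Y2,
    hb.O00, hb.O01, hb.O02, hb.O10, hb.O11, hb.O12, hb.O20, hb.O21, hb.D00, hb.D01, hb.D02,
    hb.D10, hb.D11, hb.D12, hb.D20, hb.D21, hb.D22] <;> ring

lemma Thnhh (hb : FrameRel J x b) (c c1 d : ℝ) (a b' e : Fin N) :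
    TT J x b c c1 d (some (some a)) none (some (some b')) (some (some e)) = 0 := by
  simp only [TT, Rf, om, WW, kap, PP, qq, dl, oo_def, hb.X0, hb.X1, hb.X2, hb.Y0, hb.Y1, hb.Y2,
    hb.O00, hb.O01, hb.O02, hb.O10, hb.O11, hb.O12, hb.O20, hb.O21, hb.D00, hb.D01, hb.D02,
    hb.D10, hb.D11, hb.D12, hb.D20, hb.D21, hb.D22] <;> ring

lemma Thsnn (hb : FrameRel J x b) (c c1 d : ℝ) (a : Fin N) :
    TT J x b c c1 d (some (some a)) (some none) none none = 0 := by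
  simp only [TT, Rf, om, WW, kap, PP, qq, dl, oo_def, hb.X0, hb.X1, hb.X2, hb.Y0, hb.Y1, hb.Y2,
    hb.O00, hb.O01, hb.O02, hb.O10, hb.O11, hb.O12, hb.O20, hb.O21, hb.D00, hb.D01, hb.D02,
    hb.D10, hb.D11, hb.D12, hb.D20, hb.D21, hb.D22] <;> ring

lemma Thsns (hb : FrameRel J x b) (c c1 d : ℝ) (a : Fin N) :
    TT J x b c c1 d (some (some a)) (some none) none (some none) = 0 := by
  simp only [TT, Rf, om, WW, kap, PP, qq, dl, oo_def, hb.X0, hb.X1, hb.X2, hb.Y0, hb.Y1, hb.Y2,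
    hb.O00, hb.O01, hb.O02, hb.O10, hb.O11, hb.O12, hb.O20, hb.O21, hb.D00, hb.D01, hb.D02,
    hb.D10, hb.D11, hb.D12, hb.D20, hb.D21, hb.D22] <;> ring

lemma Thsnh (hb : FrameRel J x b) (c c1 d : ℝ) (a b' : Fin N) :
    TT J x b c c1 d (some (some a)) (some none) none (some (some b')) = (-1 * PP x c c1) * oo J b a b' := by
  simp only [TT, Rf, om, WW, kap, PP, qq, dl, oo_def, hb.X0, hb.X1, hb.X2, hb.Y0, hb.Y1, hb.Y2,
    hb.O00, hb.O01, hb.O02, hb.O10, hb.O11, hb.O12, hb.O20, hb.O21, hb.D00, hb.D01, hb.D02,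
    hb.D10, hb.D11, hb.D12, hb.D20, hb.D21, hb.D22] <;> ring

lemma Thssn (hb : FrameRel J x b) (c c1 d : ℝ) (a : Fin N) :
    TT J x b c c1 d (some (some a)) (some none) (some none) none = 0 := by
  simp only [TT, Rf, om, WW, kap, PP, qq, dl, oo_def, hb.X0, hb.X1, hb.X2, hb.Y0, hb.Y1, hb.Y2,
    hb.O00, hb.O01, hb.O02, hb.O10, hb.O11, hb.O12, hb.O20, hb.O21, hb.D00, hb.D01, hb.D02,
    hb.D10, hb.D11, hb.D12, hb.D20, hb.D21, hb.D22] <;> ring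

lemma Thsss (hb : FrameRel J x b) (c c1 d : ℝ) (a : Fin N) :
    TT J x b c c1 d (some (some a)) (some none) (some none) (some none) = 0 := by
  simp only [TT, Rf, om, WW, kap, PP, qq, dl, oo_def, hb.X0, hb.X1, hb.X2, hb.Y0, hb.Y1, hb.Y2,
    hb.O00, hb.O01, hb.O02, hb.O10, hb.O11, hb.O12, hb.O20, hb.O21, hb.D00, hb.D01, hb.D02,
    hb.D10, hb.D11, hb.D12, hb.D20, hb.D21, hb.D22] <;> ring

lemma Thssh (hb : FrameRel J x b) (c c1 d : ℝ) (a b' : Fin N) :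
    TT J x b c c1 d (some (some a)) (some none) (some none) (some (some b')) = (-1 * qq x c c1) * dl a b' := by
  simp only [TT, Rf, om, WW, kap, PP, qq, dl, oo_def, hb.X0, hb.X1, hb.X2, hb.Y0, hb.Y1, hb.Y2,
    hb.O00, hb.O01, hb.O02, hb.O10, hb.O11, hb.O12, hb.O20, hb.O21, hb.D00, hb.D01, hb.D02,
    hb.D10, hb.D11, hb.D12, hb.D20, hb.D21, hb.D22] <;> ring

lemma Thshn (hb : FrameRel J x b) (c c1 d : ℝ) (a b' : Fin N) :
    TT J x b c c1 d (some (some a)) (some none) (some (some b')) none = (1 * PP x c c1) * oo J b a b' := by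
  simp only [TT, Rf, om, WW, kap, PP, qq, dl, oo_def, hb.X0, hb.X1, hb.X2, hb.Y0, hb.Y1, hb.Y2,
    hb.O00, hb.O01, hb.O02, hb.O10, hb.O11, hb.O12, hb.O20, hb.O21, hb.D00, hb.D01, hb.D02,
    hb.D10, hb.D11, hb.D12, hb.D20, hb.D21, hb.D22] <;> ring

lemma Thshs (hb : FrameRel J x b) (c c1 d : ℝ) (a b' : Fin N) :
    TT J x b c c1 d (some (some a)) (some none) (some (some b')) (some none) = (1 * qq x c c1) * dl a b' := by
  simp only [TT, Rf, om, WW, kap, PP, qq, dl, oo_def, hb.X0, hb.X1, hb.X2, hb.Y0, hb.Y1, hb.Y2,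
    hb.O00, hb.O01, hb.O02, hb.O10, hb.O11, hb.O12, hb.O20, hb.O21, hb.D00, hb.D01, hb.D02,
    hb.D10, hb.D11, hb.D12, hb.D20, hb.D21, hb.D22] <;> ring

lemma Thshh (hb : FrameRel J x b) (c c1 d : ℝ) (a b' e : Fin N) :
    TT J x b c c1 d (some (some a)) (some none) (some (some b')) (some (some e)) = 0 := by
  simp only [TT, Rf, om, WW, kap, PP, qq, dl, oo_def, hb.X0, hb.X1, hb.X2, hb.Y0, hb.Y1, hb.Y2,
    hb.O00, hb.O01, hb.O02, hb.O10, hb.O11, hb.O12, hb.O20, hb.O21, hb.D00, hb.D01, hb.D02,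
    hb.D10, hb.D11, hb.D12, hb.D20, hb.D21, hb.D22] <;> ring

lemma Thhnn (hb : FrameRel J x b) (c c1 d : ℝ) (a b' : Fin N) :
    TT J x b c c1 d (some (some a)) (some (some b')) none none = 0 := by
  simp only [TT, Rf, om, WW, kap, PP, qq, dl, oo_def, hb.X0, hb.X1, hb.X2, hb.Y0, hb.Y1, hb.Y2,
    hb.O00, hb.O01, hb.O02, hb.O10, hb.O11, hb.O12, hb.O20, hb.O21, hb.D00, hb.D01, hb.D02,
    hb.D10, hb.D11, hb.D12, hb.D20, hb.D21, hb.D22] <;> ring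

lemma Thhns (hb : FrameRel J x b) (c c1 d : ℝ) (a b' : Fin N) :
    TT J x b c c1 d (some (some a)) (some (some b')) none (some none) = (-2 * PP x c c1) * oo J b a b' := by
  simp only [TT, Rf, om, WW, kap, PP, qq, dl, oo_def, hb.X0, hb.X1, hb.X2, hb.Y0, hb.Y1, hb.Y2,
    hb.O00, hb.O01, hb.O02, hb.O10, hb.O11, hb.O12, hb.O20, hb.O21, hb.D00, hb.D01, hb.D02,
    hb.D10, hb.D11, hb.D12, hb.D20, hb.D21, hb.D22] <;> ring

lemma Thhnh (hb : FrameRel J x b) (c c1 d : ℝ) (a b' e : Fin N) :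
    TT J x b c c1 d (some (some a)) (some (some b')) none (some (some e)) = 0 := by
  simp only [TT, Rf, om, WW, kap, PP, qq, dl, oo_def, hb.X0, hb.X1, hb.X2, hb.Y0, hb.Y1, hb.Y2,
    hb.O00, hb.O01, hb.O02, hb.O10, hb.O11, hb.O12, hb.O20, hb.O21, hb.D00, hb.D01, hb.D02,
    hb.D10, hb.D11, hb.D12, hb.D20, hb.D21, hb.D22] <;> ring

lemma Thhsn (hb : FrameRel J x b) (c c1 d : ℝ) (a b' : Fin N) :
    TT J x b c c1 d (some (some a)) (some (some b')) (some none) none = (2 * PP x c c1) * oo J b a b' := by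
  simp only [TT, Rf, om, WW, kap, PP, qq, dl, oo_def, hb.X0, hb.X1, hb.X2, hb.Y0, hb.Y1, hb.Y2,
    hb.O00, hb.O01, hb.O02, hb.O10, hb.O11, hb.O12, hb.O20, hb.O21, hb.D00, hb.D01, hb.D02,
    hb.D10, hb.D11, hb.D12, hb.D20, hb.D21, hb.D22] <;> ring

lemma Thhss (hb : FrameRel J x b) (c c1 d : ℝ) (a b' : Fin N) :
    TT J x b c c1 d (some (some a)) (some (some b')) (some none) (some none) = 0 := by
  simp only [TT, Rf, om, WW, kap, PP, qq, dl, oo_def, hb.X0, hb.X1, hb.X2, hb.Y0, hb.Y1, hb.Y2,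
    hb.O00, hb.O01, hb.O02, hb.O10, hb.O11, hb.O12, hb.O20, hb.O21, hb.D00, hb.D01, hb.D02,
    hb.D10, hb.D11, hb.D12, hb.D20, hb.D21, hb.D22] <;> ring

lemma Thhsh (hb : FrameRel J x b) (c c1 d : ℝ) (a b' e : Fin N) :
    TT J x b c c1 d (some (some a)) (some (some b')) (some none) (some (some e)) = 0 := by
  simp only [TT, Rf, om, WW, kap, PP, qq, dl, oo_def, hb.X0, hb.X1, hb.X2, hb.Y0, hb.Y1, hb.Y2,
    hb.O00, hb.O01, hb.O02, hb.O10, hb.O11, hb.O12, hb.O20, hb.O21, hb.D00, hb.D01, hb.D02,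
    hb.D10, hb.D11, hb.D12, hb.D20, hb.D21, hb.D22] <;> ring

lemma Thhhn (hb : FrameRel J x b) (c c1 d : ℝ) (a b' e : Fin N) :
    TT J x b c c1 d (some (some a)) (some (some b')) (some (some e)) none = 0 := by
  simp only [TT, Rf, om, WW, kap, PP, qq, dl, oo_def, hb.X0, hb.X1, hb.X2, hb.Y0, hb.Y1, hb.Y2,
    hb.O00, hb.O01, hb.O02, hb.O10, hb.O11, hb.O12, hb.O20, hb.O21, hb.D00, hb.D01, hb.D02,
    hb.D10, hb.D11, hb.D12, hb.D20, hb.D21, hb.D22] <;> ring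

lemma Thhhs (hb : FrameRel J x b) (c c1 d : ℝ) (a b' e : Fin N) :
    TT J x b c c1 d (some (some a)) (some (some b')) (some (some e)) (some none) = 0 := by
  simp only [TT, Rf, om, WW, kap, PP, qq, dl, oo_def, hb.X0, hb.X1, hb.X2, hb.Y0, hb.Y1, hb.Y2,
    hb.O00, hb.O01, hb.O02, hb.O10, hb.O11, hb.O12, hb.O20, hb.O21, hb.D00, hb.D01, hb.D02,
    hb.D10, hb.D11, hb.D12, hb.D20, hb.D21, hb.D22] <;> ring

lemma Thhhh (hb : FrameRel J x b) (c c1 d : ℝ) (a b' e f : Fin N) :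
    TT J x b c c1 d (some (some a)) (some (some b')) (some (some e)) (some (some f)) = (-c) * (oo J b a e * oo J b b' f - oo J b a f * oo J b b' e + 2 * (oo J b a b' * oo J b e f)) := by
  simp only [TT, Rf, om, WW, kap, PP, qq, dl, oo_def, hb.X0, hb.X1, hb.X2, hb.Y0, hb.Y1, hb.Y2,
    hb.O00, hb.O01, hb.O02, hb.O10, hb.O11, hb.O12, hb.O20, hb.O21, hb.D00, hb.D01, hb.D02,
    hb.D10, hb.D11, hb.D12, hb.D20, hb.D21, hb.D22] <;> ring

end Pool.Agent.GBC
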