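import Pool.Agent.GBC.Area

/-!
# The perimeter of a round ball: upper bound
-/

namespace Pool.Agent.GBC

open MeasureTheory Metric Set Filter Topology Real
open scoped ContDiff

variable {n : ℕ} {J : E n →L[ℝ] E n} {C : ℝ → ℝ}

lemma continuous_FF (n : ℕ) (hC : Continuous C) : Continuous (FF n C) := by
  unfold FF
  fun_prop

lemma sqrt_FF_mul (hn : 1 ≤ n) {z : ℝ} (hz : 0 < z) :
    √(FF n C z) * z ^ (1 - (n : ℝ) / 2) = √(1 + z * C z) * √z := by
  unfold FF
  rw [sqrt_mul (pow_nonneg hz.le _), sqrt_eq_rpow (z ^ (n - 1)), ← rpow_natCast z (n - 1),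
    ← rpow_mul hz.le, mul_right_comm, ← rpow_add hz, sqrt_eq_rpow z, mul_comm]
  congr 2
  rw [Nat.cast_sub hn]
  push_cast
  ring

lemma upper_step (hJ : IsCx J) (hn : 1 ≤ n) (hC : ContDiff ℝ ∞ C) (hC0 : ∀ z, 0 ≤ C z)
    {X : E n → E n} (hX : IsTestField (gJ J C) X) {k z₀ M : ℝ} (hk : 0 < k) (hkz : 1 / k < z₀)
    (hM : ∀ z, z₀ - 1 / k < z → z < z₀ → √(FF n C z) ≤ M) :
    ∫ x, (1 - chi k z₀ (‖x‖ ^ 2)) * divDens (gJ J C) X x ≤ M * omega n := by
  have hZ : ContDiff ℝ ∞ fun x => dens (gJ J C) x • X x := (contDiff_dens hJ hC hC0).smul hX.smooth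
  have hZc : HasCompactSupport fun x => dens (gJ J C) x • X x := 
    hasCompactSupport_smul' _ hX.compact
  have h1 := parts_chi (k := k) (z₀ := z₀) (fun x => dens (gJ J C) x • X x) hZ hZc
  simp only [divDens_eq]
  rw [h1, ← flux_chi (n := n) hn hk hkz, ← integral_const_mul]
  have hfl := flux_chi (n := n) hn hk hkz
  refine integral_mono ?_ ?_ ?_
  · refine Continuous.integrable_of_hasCompactSupport ?_ ?_
    · refine (continuous_const.mul ?_).mul (continuous_id.inner hZ.continuous)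
      exact (chi'_contDiff k z₀).continuous.comp (by fun_prop)
    · refine HasCompactSupport.mul_left ?_
      refine hZc.mono fun x hx => ?_
      rw [Function.mem_support] at hx ⊢
      intro h0
      exact hx (by rw [h0, inner_zero_right])
  · refine Integrable.const_mul ?_ M
    by_contra h
    rw [integral_undef h] at hfl
    exact absurd hfl.symm (omega_pos hn).ne'
  · intro x
    simp only
    rcases le_or_gt (‖x‖ ^ 2) (z₀ - 1 / k) with hx1 | hx1
    · rw [chi'_of_le hk hx1]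
      simp
    rcases le_or_gt z₀ (‖x‖ ^ 2) with hx2 | hx2
    · rw [chi'_of_ge hk hx2]
      simp
    have hz : 0 < ‖x‖ ^ 2 := by linarith
    have h3 : inner ℝ x (dens (gJ J C) x • X x) ≤ M * (‖x‖ ^ 2) ^ (1 - (n : ℝ) / 2) := by
      calc inner ℝ x (dens (gJ J C) x • X x) ≤ ‖x‖ * ‖dens (gJ J C) x • X x‖ :=
            real_inner_le_norm _ _
        _ ≤ ‖x‖ * √(1 + ‖x‖ ^ 2 * C (‖x‖ ^ 2)) := by
            refine mul_le_mul_of_nonneg_left ?_ (norm_nonneg _)
            rw [norm_smul, dens_gJ hJ, Real.norm_eq_abs, abs_of_nonneg (sqrt_nonneg _)]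
            have := norm_le_one_of_test hC0 hX x
            calc _ ≤ √(1 + ‖x‖ ^ 2 * C (‖x‖ ^ 2)) * 1 :=
                  mul_le_mul_of_nonneg_left this (sqrt_nonneg _)
              _ = _ := mul_one _
        _ = √(FF n C (‖x‖ ^ 2)) * (‖x‖ ^ 2) ^ (1 - (n : ℝ) / 2) := by
            rw [sqrt_FF_mul hn hz, sqrt_sq (norm_nonneg x), mul_comm]
        _ ≤ M * (‖x‖ ^ 2) ^ (1 - (n : ℝ) / 2) :=
            mul_le_mul_of_nonneg_right (hM _ hx1 hx2) (rpow_nonneg hz.le _)
    have h4 : 0 ≤ 2 * chi' k z₀ (‖x‖ ^ 2) := by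
      have := chi'_nonneg (z₀ := z₀) hk (‖x‖ ^ 2)
      linarith
    calc 2 * chi' k z₀ (‖x‖ ^ 2) * inner ℝ x (dens (gJ J C) x • X x)
        ≤ 2 * chi' k z₀ (‖x‖ ^ 2) * (M * (‖x‖ ^ 2) ^ (1 - (n : ℝ) / 2)) :=
          mul_le_mul_of_nonneg_left h3 h4
      _ = _ := by ring

lemma tendsto_cut (hJ : IsCx J) (hC : ContDiff ℝ ∞ C) (hC0 : ∀ z, 0 ≤ C z)
    {X : E n → E n} (hX : IsTestField (gJ J C) X) {r₀ : ℝ} (hr : 0 < r₀) :
    Tendsto (fun k : ℕ => ∫ x, (1 - chi (k + 1) (r₀ ^ 2) (‖x‖ ^ 2)) * divDens (gJ J C) X x) atTop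
      (𝓝 (∫ x in ball 0 r₀, divDens (gJ J C) X x)) := by
  have hZ : ContDiff ℝ ∞ fun x => dens (gJ J C) x • X x := (contDiff_dens hJ hC hC0).smul hX.smooth
  have hZc : HasCompactSupport fun x => dens (gJ J C) x • X x := 
    hasCompactSupport_smul' _ hX.compact
  have hZi : ∀ i, ContDiff ℝ ∞ fun y => (dens (gJ J C) y • X y) i := fun i => by
    exact (EuclideanSpace.proj i : E n →L[ℝ] ℝ).contDiff.comp hZ
  have hZic : ∀ i, HasCompactSupport fun y => (dens (gJ J C) y • X y) i := fun i => by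
    exact hZc.comp_left (g := fun v : E n => v i) rfl
  have hDi : ∀ i, Integrable fun x => pd i (fun y => (dens (gJ J C) y • X y) i) x := by
    intro i
    refine (((hZi i).continuous_fderiv (by simp)).clm_apply
      continuous_const).integrable_of_hasCompactSupport ?_
    exact (hZic i).fderiv_apply ℝ _
  have hD : Integrable (divDens (gJ J C) X) := by
    have h := integrable_finsetSum Finset.univ fun i _ => hDi i
    have h2 : divDens (gJ J C) X =
        fun x => ∑ i, pd i (fun y => (dens (gJ J C) y • X y) i) x := by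
      funext x
      exact divDens_eq _ _ _
    rw [h2]
    exact h
  rw [← integral_indicator measurableSet_ball]
  refine tendsto_integral_of_dominated_convergence (fun x => ‖divDens (gJ J C) X x‖) ?_ hD.norm
    ?_ ?_
  · intro k
    refine AEStronglyMeasurable.mul ?_ hD.aestronglyMeasurable
    refine Continuous.aestronglyMeasurable ?_
    exact continuous_const.sub ((chi_contDiff _ _).continuous.comp (by fun_prop))
  · intro k
    refine Eventually.of_forall fun x => ?_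
    rw [norm_mul]
    have h1 := chi_nonneg (k + 1) (r₀ ^ 2) (‖x‖ ^ 2)
    have h2 := chi_le_one (k + 1) (r₀ ^ 2) (‖x‖ ^ 2)
    have h3 : ‖1 - chi (k + 1) (r₀ ^ 2) (‖x‖ ^ 2)‖ ≤ 1 := by
      rw [Real.norm_eq_abs, abs_le]
      constructor <;> linarith
    calc _ ≤ 1 * ‖divDens (gJ J C) X x‖ := mul_le_mul_of_nonneg_right h3 (norm_nonneg _)
      _ = _ := one_mul _
  · refine Eventually.of_forall fun x => ?_
    by_cases hx : x ∈ ball (0 : E n) r₀
    · rw [indicator_of_mem hx]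
      rw [mem_ball_zero_iff] at hx
      have h0 : 0 < r₀ ^ 2 - ‖x‖ ^ 2 := by
        have := norm_nonneg x
        nlinarith
      refine tendsto_const_nhds.congr' ?_
      obtain ⟨N, hN⟩ := exists_nat_gt (1 / (r₀ ^ 2 - ‖x‖ ^ 2))
      filter_upwards [eventually_ge_atTop N] with k hk
      have hk1 : (0 : ℝ) < k + 1 := by positivity
      rw [chi_of_le hk1, sub_zero, one_mul]
      have h5 : 1 / ((k : ℝ) + 1) ≤ r₀ ^ 2 - ‖x‖ ^ 2 := by
        rw [div_le_iff₀ hk1]
        have h6 : (N : ℝ) ≤ k := by exact_mod_cast hk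
        rw [div_lt_iff₀ h0] at hN
        nlinarith
      linarith
    · rw [indicator_of_notMem hx]
      rw [mem_ball_zero_iff, not_lt] at hx
      refine tendsto_const_nhds.congr fun k => ?_
      have hk1 : (0 : ℝ) < k + 1 := by positivity
      rw [chi_of_ge hk1, sub_self, zero_mul]
      exact pow_le_pow_left₀ hr.le hx 2

/-- The upper bound for the area of a round sphere. -/
theorem flux_le (hJ : IsCx J) (hn : 1 ≤ n) (hC : ContDiff ℝ ∞ C) (hC0 : ∀ z, 0 ≤ C z)
    {X : E n → E n} (hX : IsTestField (gJ J C) X) {r₀ : ℝ} (hr : 0 < r₀) :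
    ∫ x in ball 0 r₀, divDens (gJ J C) X x ≤ √(FF n C (r₀ ^ 2)) * omega n := by
  refine le_of_forall_pos_le_add fun ε hε => ?_
  have hω := omega_pos hn
  set δ := ε / omega n with hδ
  have hδ0 : 0 < δ := div_pos hε hω
  have hcont : ContinuousAt (fun z => √(FF n C z)) (r₀ ^ 2) :=
    (continuous_sqrt.comp (continuous_FF n hC.continuous)).continuousAt
  obtain ⟨d, hd, hdd⟩ := Metric.continuousAt_iff.1 hcont δ hδ0
  refine le_of_tendsto (tendsto_cut hJ hC hC0 hX hr) ?_
  obtain ⟨N, hN⟩ := exists_nat_gt (max (1 / d) (1 / r₀ ^ 2))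
  filter_upwards [eventually_ge_atTop N] with k hk
  have hk1 : (0 : ℝ) < k + 1 := by positivity
  have hkN : (N : ℝ) ≤ k := by exact_mod_cast hk
  have h1 : 1 / d < k + 1 := by
    have := le_max_left (1 / d) (1 / r₀ ^ 2)
    linarith
  have h2 : 1 / r₀ ^ 2 < k + 1 := by
    have := le_max_right (1 / d) (1 / r₀ ^ 2)
    linarith
  have h3 : 1 / ((k : ℝ) + 1) < d := (one_div_lt hk1 hd).2 h1
  have h4 : 1 / ((k : ℝ) + 1) < r₀ ^ 2 := (one_div_lt hk1 (by positivity)).2 h2
  have h5 := upper_step hJ hn hC hC0 hX (k := k + 1) (z₀ := r₀ ^ 2)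
    (M := √(FF n C (r₀ ^ 2)) + δ) hk1 h4 ?_
  · refine h5.trans (le_of_eq ?_)
    rw [hδ]
    field_simp
  · intro z hz1 hz2
    have h6 : dist z (r₀ ^ 2) < d := by
      rw [Real.dist_eq, abs_lt]
      constructor <;> linarith
    have h7 := hdd h6
    rw [Real.dist_eq, abs_lt] at h7
    linarith [h7.2]

end Pool.Agent.GBC
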