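import Pool.Agent.GBC.RiemA

/-!
# The Gauss-Bonnet curvature of `δ + C(x) Ax ⊗ Ax` vanishes if `A` has rank two
-/

set_option linter.unusedSimpArgs false

namespace Pool.Agent.GBC

open MeasureTheory Metric Set Filter Topology Real
open scoped ContDiff

/-- The rank two condition. -/
def IsRankTwo {n : ℕ} (A : E n →L[ℝ] E n) : Prop :=
  ∀ x p, inner ℝ (A x) p = 0 → ‖A x‖ ^ 2 • A p = inner ℝ (A x) (A p) • A x

variable {N : ℕ} {A : E (N + 1) →L[ℝ] E (N + 1)} {C : E (N + 1) → ℝ}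

lemma exists_frameA (y : E (N + 1)) (hy : y ≠ 0) :
    ∃ b : OrthonormalBasis (Option (Fin N)) ℝ (E (N + 1)), b none = ‖y‖⁻¹ • y := by
  have hy0 : ‖y‖ ≠ 0 := norm_ne_zero_iff.2 hy
  let v : Option (Fin N) → E (N + 1) := fun o => match o with
    | none => ‖y‖⁻¹ • y
    | some _ => 0
  let s : Set (Option (Fin N)) := {none}
  have hv : Orthonormal ℝ (s.domRestrict v) := by
    constructor
    · rintro ⟨o, ho⟩
      change ‖v o‖ = 1
      rw [mem_singleton_iff] at ho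
      subst ho
      simp [v, norm_smul, hy0]
    · rintro ⟨o, ho⟩ ⟨o', ho'⟩ hne
      rw [mem_singleton_iff] at ho ho'
      subst ho
      subst ho'
      exact absurd rfl hne
  have hcard : Module.finrank ℝ (E (N + 1)) = Fintype.card (Option (Fin N)) := by
    simp
  obtain ⟨b, hb⟩ := hv.exists_orthonormalBasis_extension_of_card_eq hcard
  exact ⟨b, hb none (by simp [s])⟩

/-- The weights. -/
noncomputable def wA {N : ℕ} (K : ℝ) : Option (Fin N) → ℝ
  | none => K⁻¹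
  | some _ => 1

lemma inv_frameA (C : E (N + 1) → ℝ) (x : E (N + 1)) (hx : A x ≠ 0)
    (hK : 1 + ‖A x‖ ^ 2 * C x ≠ 0)
    (b : OrthonormalBasis (Option (Fin N)) ℝ (E (N + 1)))
    (hb : b none = ‖A x‖⁻¹ • A x) (i j : Fin (N + 1)) :
    (gA A C x)⁻¹ i j = ∑ α, wA (1 + ‖A x‖ ^ 2 * C x) α * ((b α) i * (b α) j) := by
  have hx0 : ‖A x‖ ≠ 0 := norm_ne_zero_iff.2 hx
  have h1 : ∑ α, (b α) i * (b α) j = (1 : Matrix (Fin (N + 1)) (Fin (N + 1)) ℝ) i j := by
    have h2 := b.sum_inner_mul_inner (ev i) (ev j)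
    rw [ev_inner, ev_comm, coord_ev] at h2
    rw [← h2]
    refine Finset.sum_congr rfl fun α _ => ?_
    rw [ev_inner, inner_ev]
  rw [inv_gA C x hK, gAi, ← h1]
  simp only [Fintype.sum_option, wA, hb]
  simp only [PiLp.smul_apply, smul_eq_mul, one_mul]
  have h3 : ‖A x‖⁻¹ * ‖A x‖⁻¹ - C x / (1 + ‖A x‖ ^ 2 * C x) =
      (1 + ‖A x‖ ^ 2 * C x)⁻¹ * (‖A x‖⁻¹ * ‖A x‖⁻¹) := by
    generalize C x = c at *
    generalize ‖A x‖ = r at *
    field_simp
    ring
  linear_combination ((A x) i * (A x) j) * h3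

lemma frameR_gA {n : ℕ} {A : E n →L[ℝ] E n} {C : E n → ℝ} {ι : Type*} [Fintype ι]
    (hA : IsSkew A) (hC : ContDiff ℝ ∞ C)
    (hK : ∀ x, 1 + ‖A x‖ ^ 2 * C x ≠ 0) (x : E n) (b : ι → E n) (α β γ δ : ι) :
    frameR (gA A C) x (fun α i => (b α) i) α β γ δ =
      Rg A x (C x) (gC C x) (fderiv ℝ (fderiv ℝ C) x) (b α) (b β) (b γ) (b δ) := by
  unfold frameR
  simp only [riem_gA hA hC hK]
  simp only [sum_slot _ (Rg_lin4 (A := A) x _ _ _ _ _ _),
    sum_slot _ (Rg_lin3 (A := A) x _ _ _ _ _ _),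
    sum_slot _ (Rg_lin2 (A := A) x _ _ _ _ _ _), sum_slot _ (Rg_lin1 (A := A) x _ _ _ _ _ _)]

lemma gaussBonnet_gA_of_ne (hA : IsSkew A) (hA2 : IsRankTwo A) (hC : ContDiff ℝ ∞ C)
    (hK : ∀ x, 1 + ‖A x‖ ^ 2 * C x ≠ 0) (x : E (N + 1)) (hx : A x ≠ 0) :
    gaussBonnet (gA A C) x = 0 := by
  obtain ⟨b, hb⟩ := exists_frameA (A x) hx
  have hx0 : ‖A x‖ ≠ 0 := norm_ne_zero_iff.2 hx
  have hG := inv_frameA C x hx (hK x) b hb
  have hperp : ∀ a, inner ℝ (A x) (b (some a)) = 0 := by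
    intro a
    have h1 : A x = ‖A x‖ • b none := by rw [hb, smul_smul, mul_inv_cancel₀ hx0, one_smul]
    rw [h1, real_inner_smul_left, b.inner_eq_zero (by simp), mul_zero]
  have hlp : ∀ a, A (b (some a)) =
      (inner ℝ (A x) (A (b (some a))) / ‖A x‖ ^ 2) • A x := by
    intro a
    have h1 := hA2 x (b (some a)) (hperp a)
    have h2 : ‖A x‖ ^ 2 ≠ 0 := pow_ne_zero 2 hx0
    rw [div_eq_inv_mul, ← smul_smul, ← h1, smul_smul, inv_mul_cancel₀ h2, one_smul]
  set T : Option (Fin N) → Option (Fin N) → Option (Fin N) → Option (Fin N) → ℝ :=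
    fun α β γ δ => Rg A x (C x) (gC C x) (fderiv ℝ (fderiv ℝ C) x) (b α) (b β) (b γ) (b δ)
    with hT
  have hanti : ∀ α β γ δ, T α β γ δ = - T β α γ δ := fun α β γ δ => Rg_anti x _ _ _ _ _ _ _
  have hpair : ∀ α β γ δ, T α β γ δ = T γ δ α β := fun α β γ δ =>
    Rg_pair x _ _ _ (fun p q => snd_symm hC x p q) _ _ _ _
  have z1 : ∀ a c γ δ, T (some a) (some c) γ δ = 0 := fun a c γ δ =>
    Rg_zero hA x _ _ _ (hperp a) (hperp c) (hlp a) (hlp c) _ _
  have z2 : ∀ a c γ δ, T γ δ (some a) (some c) = 0 := by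
    intro a c γ δ
    rw [hpair, z1]
  have z3 : ∀ γ δ, T none none γ δ = 0 := by
    intro γ δ
    have := hanti none none γ δ
    linarith
  have z4 : ∀ γ δ, T γ δ none none = 0 := by
    intro γ δ
    rw [hpair, z3]
  have z5 : ∀ a c, T none (some a) (some c) none = - T (some a) none (some c) none :=
    fun a c => hanti _ _ _ _
  have z6 : ∀ a c, T (some a) none none (some c) = - T (some a) none (some c) none := by
    intro a c
    rw [hpair, hanti, hpair]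
  have z7 : ∀ a c, T none (some a) none (some c) = T (some a) none (some c) none := by
    intro a c
    rw [hanti, z6, neg_neg]
  unfold gaussBonnet
  rw [normSqRiem_frame (gA A C) x _ (fun α i => (b α) i) hG,
    normSqRic_frame (gA A C) x _ (fun α i => (b α) i) hG,
    scal_frame (gA A C) x _ (fun α i => (b α) i) hG]
  simp only [frameR_gA hA hC hK]
  change (∑ α, wA _ α * ∑ β, wA _ β * ∑ γ, wA _ γ * ∑ δ, wA _ δ * T α β γ δ ^ 2) -
    4 * (∑ β, wA _ β * ∑ δ, wA _ δ * (∑ α, wA _ α * T α β α δ) ^ 2) +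
    (∑ β, wA _ β * ∑ α, wA _ α * T α β α β) ^ 2 = 0
  generalize 1 + ‖A x‖ ^ 2 * C x = K at *
  simp only [Fintype.sum_option, wA, z1, z2, z3, z4, z5, z6, z7, mul_zero, zero_mul, add_zero,
    zero_add, one_mul, ne_eq, OfNat.ofNat_ne_zero, not_false_eq_true, zero_pow,
    Finset.sum_const_zero, mul_pow, neg_sq, ← Finset.mul_sum, Finset.sum_add_distrib]
  ring

lemma Rg_eq_zero {n : ℕ} {A : E n →L[ℝ] E n} (x p q s t : E n) : Rg A x 0 0 0 p q s t = 0 := by
  simp [Rg, sec, GG, gml]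

lemma gaussBonnet_gA_of_zero {n : ℕ} {A : E n →L[ℝ] E n} {C : E n → ℝ}
    (hA : IsSkew A) (hC : ContDiff ℝ ∞ C)
    (hK : ∀ x, 1 + ‖A x‖ ^ 2 * C x ≠ 0) (x : E n) (hx : C =ᶠ[𝓝 x] fun _ => 0) :
    gaussBonnet (gA A C) x = 0 := by
  have h1 : C x = 0 := hx.eq_of_nhds
  have h2 : gC C x = 0 := by
    ext i
    rw [gC_apply, pd, hx.fderiv_eq]
    simp
  have h3 : fderiv ℝ (fderiv ℝ C) x = 0 := by
    have : fderiv ℝ C =ᶠ[𝓝 x] fun _ => 0 := by
      have := hx.fderiv (𝕜 := ℝ)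
      refine this.trans (Eventually.of_forall fun y => ?_)
      simp
    rw [this.fderiv_eq]
    simp
  have h4 : ∀ i j k l, riem (gA A C) x i j k l = 0 := by
    intro i j k l
    rw [riem_gA hA hC hK, h1, h2, h3, Rg_eq_zero]
  have h5 : ∀ j l, ric (gA A C) x j l = 0 := by
    intro j l
    unfold ric
    simp only [h4, mul_zero, Finset.sum_const_zero]
  unfold gaussBonnet normSqRiem normSqRic scal
  simp only [h4, h5, mul_zero, Finset.sum_const_zero]
  ring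

end Pool.Agent.GBC
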